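import Pool.Agent.LibBHN.Str

/-! Task NX-1: inequality, lengths, prefixes, finite conjunctions. -/

namespace Pool.Agent.LibBHN

open Function Pool.Agent.LibNexp

variable {O : List Bool → Bool}

theorem misc_flatMap_nil (l : List Bool) : l.flatMap (fun _ => ([] : List Bool)) = [] := by
  induction l <;> simp_all

/-- The string starts with a fixed word. -/
theorem nexp_prefix (w : List Bool) {k : ℕ} (i : Fin k) :
    NEXP O fun e : Fin k → List Bool => w <+: e i := by
  have h1 : NEXP O fun e : Fin 2 → List Bool => e 0 = w ++ e 1 := by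
    refine ((nexp_subst (O := O) (fun _ => []) (fun b => [b]) w).reindex
      ![1, 1, 0]).congr fun e => ?_
    simp [misc_flatMap_nil]
  have h2 : NEXP O fun e : Fin 1 → List Bool => ∃ z, e 0 = w ++ z := by
    refine nexp_ex (R := fun e z => e 0 = w ++ z) h1 (g := fun n => n) PolyB.id ?_
    rintro e z h
    have := len_le_size e 0
    rw [h, List.length_append] at this
    omega
  refine (h2.reindex ![i]).congr fun e => ?_
  simp only [Matrix.cons_val_fin_one]
  exact ⟨fun ⟨z, hz⟩ => ⟨z, hz.symm⟩, fun ⟨z, hz⟩ => ⟨z, hz.symm⟩⟩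

theorem nexp_append {k : ℕ} (i j l : Fin k) :
    NEXP O fun e : Fin k → List Bool => e l = e i ++ e j := by
  refine ((nexp_cat (O := O)).reindex ![i, j, l]).congr fun e => ?_
  simp

theorem nexp_snoc (b : Bool) {k : ℕ} (i j : Fin k) :
    NEXP O fun e : Fin k → List Bool => e j = e i ++ [b] := by
  refine ((nexp_subst (O := O) (fun b => [b]) (fun _ => []) [b]).reindex
    ![i, i, j]).congr fun e => ?_
  simp [misc_flatMap_nil]

theorem misc_ext (b : Bool) :
    NEXP O fun e : Fin 2 → List Bool => ∃ w, e 1 = e 0 ++ [b] ++ w := by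
  have h1 : NEXP O fun e : Fin 3 → List Bool => e 1 = e 0 ++ [b] ++ e 2 := by
    refine ((nexp_subst (O := O) (fun b => [b]) (fun b => [b]) [b]).reindex
      ![0, 2, 1]).congr fun e => ?_
    simp
  refine nexp_ex (R := fun e w => e 1 = e 0 ++ [b] ++ w) h1 (g := fun n => n) PolyB.id ?_
  rintro e z h
  have := len_le_size e 1
  rw [h] at this
  simp only [List.length_append] at this
  omega

theorem misc_dif (b : Bool) : NEXP O fun e : Fin 2 → List Bool =>
    ∃ u v w, e 0 = u ++ [b] ++ v ∧ e 1 = u ++ [!b] ++ w := by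
  have h1 : NEXP O fun e : Fin 5 → List Bool =>
      e 0 = e 2 ++ [b] ++ e 3 ∧ e 1 = e 2 ++ [!b] ++ e 4 := by
    refine NEXP.and ?_ ?_
    · refine ((nexp_subst (O := O) (fun b => [b]) (fun b => [b]) [b]).reindex
        ![2, 3, 0]).congr fun e => ?_
      simp
    · refine ((nexp_subst (O := O) (fun b => [b]) (fun b => [b]) [!b]).reindex
        ![2, 4, 1]).congr fun e => ?_
      simp
  have h2 : NEXP O fun e : Fin 4 → List Bool => ∃ w,
      e 0 = e 2 ++ [b] ++ e 3 ∧ e 1 = e 2 ++ [!b] ++ w := by
    refine nexp_ex (R := fun e w => e 0 = e 2 ++ [b] ++ e 3 ∧ e 1 = e 2 ++ [!b] ++ w) h1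
      (g := fun n => n) PolyB.id ?_
    rintro e z ⟨-, h⟩
    have := len_le_size e 1
    rw [h] at this
    simp only [List.length_append] at this
    omega
  have h3 : NEXP O fun e : Fin 3 → List Bool => ∃ v w,
      e 0 = e 2 ++ [b] ++ v ∧ e 1 = e 2 ++ [!b] ++ w := by
    refine nexp_ex (R := fun e v => ∃ w, e 0 = e 2 ++ [b] ++ v ∧ e 1 = e 2 ++ [!b] ++ w) h2
      (g := fun n => n) PolyB.id ?_
    rintro e z ⟨w, h, -⟩
    have := len_le_size e 0
    rw [h] at this
    simp only [List.length_append] at this
    omega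
  refine nexp_ex (R := fun e u => ∃ v w, e 0 = u ++ [b] ++ v ∧ e 1 = u ++ [!b] ++ w) h3
    (g := fun n => n) PolyB.id ?_
  rintro e z ⟨v, w, h, -⟩
  have := len_le_size e 0
  rw [h] at this
  simp only [List.length_append] at this
  omega

theorem misc_ne_iff : ∀ x y : List Bool, x ≠ y ↔
    (((∃ u v w, x = u ++ [false] ++ v ∧ y = u ++ [!false] ++ w) ∨
      (∃ u v w, x = u ++ [true] ++ v ∧ y = u ++ [!true] ++ w)) ∨
    ((∃ w, y = x ++ [false] ++ w) ∨ (∃ w, y = x ++ [true] ++ w))) ∨
    ((∃ w, x = y ++ [false] ++ w) ∨ (∃ w, x = y ++ [true] ++ w)) := by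
  intro x y
  constructor
  · revert y
    induction x with
    | nil =>
      intro y h
      cases y with
      | nil => exact absurd rfl h
      | cons b y =>
        cases b
        · exact Or.inl (Or.inr (Or.inl ⟨y, rfl⟩))
        · exact Or.inl (Or.inr (Or.inr ⟨y, rfl⟩))
    | cons a x ih =>
      intro y h
      cases y with
      | nil =>
        cases a
        · exact Or.inr (Or.inl ⟨x, rfl⟩)
        · exact Or.inr (Or.inr ⟨x, rfl⟩)
      | cons b y =>
        by_cases hab : a = b
        · subst hab
          rcases ih y (fun h' => h (by rw [h'])) with (((⟨u, v, w, h1, h2⟩ | ⟨u, v, w, h1, h2⟩) |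
            (⟨w, h1⟩ | ⟨w, h1⟩)) | (⟨w, h1⟩ | ⟨w, h1⟩))
          · exact Or.inl (Or.inl (Or.inl ⟨a :: u, v, w, by rw [h1]; rfl, by rw [h2]; rfl⟩))
          · exact Or.inl (Or.inl (Or.inr ⟨a :: u, v, w, by rw [h1]; rfl, by rw [h2]; rfl⟩))
          · exact Or.inl (Or.inr (Or.inl ⟨w, by rw [h1]; rfl⟩))
          · exact Or.inl (Or.inr (Or.inr ⟨w, by rw [h1]; rfl⟩))
          · exact Or.inr (Or.inl ⟨w, by rw [h1]; rfl⟩)
          · exact Or.inr (Or.inr ⟨w, by rw [h1]; rfl⟩)
        · cases a
          · have hb : b = true := by cases b <;> simp_all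
            subst hb
            exact Or.inl (Or.inl (Or.inl ⟨[], x, y, rfl, rfl⟩))
          · have hb : b = false := by cases b <;> simp_all
            subst hb
            exact Or.inl (Or.inl (Or.inr ⟨[], x, y, rfl, rfl⟩))
  · rintro (((⟨u, v, w, rfl, h2⟩ | ⟨u, v, w, rfl, h2⟩) | (⟨w, h1⟩ | ⟨w, h1⟩)) |
      (⟨w, h1⟩ | ⟨w, h1⟩)) h
    · rw [h2, List.append_assoc, List.append_assoc, List.append_cancel_left_eq] at h
      simp at h
    · rw [h2, List.append_assoc, List.append_assoc, List.append_cancel_left_eq] at h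
      simp at h
    · have := congrArg List.length h1
      rw [h] at this
      simp only [List.length_append, List.length_singleton] at this
      omega
    · have := congrArg List.length h1
      rw [h] at this
      simp only [List.length_append, List.length_singleton] at this
      omega
    · have := congrArg List.length h1
      rw [h] at this
      simp only [List.length_append, List.length_singleton] at this
      omega
    · have := congrArg List.length h1
      rw [h] at this
      simp only [List.length_append, List.length_singleton] at this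
      omega

theorem nexp_ne {k : ℕ} (i j : Fin k) : NEXP O fun e : Fin k → List Bool => e i ≠ e j := by
  refine (((((misc_dif (O := O) false).reindex ![i, j]).or
    ((misc_dif (O := O) true).reindex ![i, j])).or
    (((misc_ext (O := O) false).reindex ![i, j]).or
      ((misc_ext (O := O) true).reindex ![i, j]))).or
    (((misc_ext (O := O) false).reindex ![j, i]).or
      ((misc_ext (O := O) true).reindex ![j, i]))).congr fun e => ?_
  rw [misc_ne_iff]
  simp only [Matrix.cons_val_zero, Matrix.cons_val_one]

/-- `|e j| = c |e i| + d`. -/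
theorem nexp_lin (c d : ℕ) {k : ℕ} (i j : Fin k) :
    NEXP O fun e : Fin k → List Bool => (e j).length = c * (e i).length + d := by
  refine ((nexp_len (O := O) 1 c 0 d).reindex ![i, j]).congr fun e => ?_
  constructor
  · rintro ⟨k, h1, h2⟩
    simp only [Matrix.cons_val_zero, Matrix.cons_val_one] at h1 h2
    rw [h2, h1]; ring
  · intro h
    exact ⟨(e i).length, by simp, by simpa using h⟩

/-- `|e j| = |e i| ^ c + d`. -/
theorem nexp_powAdd (c d : ℕ) {k : ℕ} (i j : Fin k) :
    NEXP O fun e : Fin k → List Bool => (e j).length = (e i).length ^ c + d := by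
  have h1 : NEXP O fun e : Fin 3 → List Bool =>
      (e 2).length = (e 0).length ^ c ∧ (e 1).length = 1 * (e 2).length + d := by
    refine NEXP.and ?_ (nexp_lin 1 d 2 1)
    refine ((nexp_pow (O := O) c).reindex ![0, 2]).congr fun e => ?_
    simp
  have h2 : NEXP O fun e : Fin 2 → List Bool => ∃ z : List Bool,
      z.length = (e 0).length ^ c ∧ (e 1).length = 1 * z.length + d := by
    refine nexp_ex (R := fun e z => z.length = (e 0).length ^ c ∧
      (e 1).length = 1 * z.length + d) h1 (g := fun n => n) PolyB.id ?_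
    rintro e z ⟨-, h⟩
    have := len_le_size e 1
    omega
  refine (h2.reindex ![i, j]).congr fun e => ?_
  simp only [Matrix.cons_val_zero, Matrix.cons_val_one, one_mul]
  constructor
  · rintro ⟨z, h3, h4⟩
    rw [h4, h3]
  · intro h
    exact ⟨List.replicate ((e i).length ^ c) true, by simp, by simpa using h⟩

theorem nexp_lenLe {k : ℕ} (i j : Fin k) :
    NEXP O fun e : Fin k → List Bool => (e i).length ≤ (e j).length := by
  refine ((nexp_le (O := O)).reindex ![i, j]).congr fun e => ?_
  simp

theorem nexp_true {k : ℕ} : NEXP O fun _ : Fin k → List Bool => True :=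
  nexp_of_prog (.star (.pop 0 true)) (T := fun n => n) PolyB.id (fun _ _ _ _ => trivial)
    (fun e _ => ⟨0, init e, Nat.zero_le _, Iter.nil _⟩)

theorem nexp_false {k : ℕ} : NEXP O fun _ : Fin k → List Bool => False := by
  refine (NEXP.finite_exists (O := O) (k := k) (∅ : Finset ℕ) (R := fun _ _ => True)
    fun i hi => by simp at hi).congr fun e => ?_
  simp

theorem nexp_finite_forall {k : ℕ} {ι : Type} (s : Finset ι)
    {R : ι → (Fin k → List Bool) → Prop} (h : ∀ i ∈ s, NEXP O (R i)) :
    NEXP O fun e => ∀ i ∈ s, R i e := by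
  classical
  induction s using Finset.induction_on with
  | empty => exact nexp_true.congr fun e => by simp
  | insert a s ha ih =>
    refine ((h a (Finset.mem_insert_self _ _)).and
      (ih fun i hi => h i (Finset.mem_insert_of_mem hi))).congr fun e => ?_
    simp

/-- A condition not depending on the input. -/
theorem nexp_prop {k : ℕ} (p : Prop) {R : (Fin k → List Bool) → Prop} (h : p → NEXP O R) :
    NEXP O fun e => p ∧ R e := by
  by_cases hp : p
  · exact (h hp).congr fun e => by simp [hp]
  · exact nexp_false.congr fun e => by simp [hp]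

end Pool.Agent.LibBHN
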