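import Pool.Agent.LibBHN.Str1

/-! Comparison of binary numbers. -/

namespace Pool.Agent.LibBHN

open Function Pool.Agent.LibNexp

variable {O : List Bool → Bool}

theorem nexp_suc {k : ℕ} (i j : Fin k) :
    NEXP O fun e : Fin k → List Bool => Suc (e i) (e j) := by
  have h1 : NEXP O fun e : Fin 4 → List Bool =>
      e 0 = (e 2).flatMap (fun _ => [true]) ++ [false] ++ e 3 ∧
      e 1 = (e 2).flatMap (fun _ => [false]) ++ [true] ++ e 3 := by
    refine NEXP.and ?_ ?_
    · refine ((nexp_subst (O := O) (fun _ => [true]) (fun b => [b]) [false]).reindex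
        ![2, 3, 0]).congr fun e => ?_
      simp
    · refine ((nexp_subst (O := O) (fun _ => [false]) (fun b => [b]) [true]).reindex
        ![2, 3, 1]).congr fun e => ?_
      simp
  have h2 : NEXP O fun e : Fin 3 → List Bool => ∃ l,
      e 0 = (e 2).flatMap (fun _ => [true]) ++ [false] ++ l ∧
      e 1 = (e 2).flatMap (fun _ => [false]) ++ [true] ++ l := by
    refine nexp_ex (R := fun e l => e 0 = (e 2).flatMap (fun _ => [true]) ++ [false] ++ l ∧
      e 1 = (e 2).flatMap (fun _ => [false]) ++ [true] ++ l) h1 (g := fun n => n) PolyB.id ?_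
    rintro e z ⟨h, -⟩
    have := len_le_size e 0
    rw [h] at this
    simp only [List.length_append] at this
    omega
  have h3 : NEXP O fun e : Fin 2 → List Bool => ∃ z l : List Bool,
      e 0 = z.flatMap (fun _ => [true]) ++ [false] ++ l ∧
      e 1 = z.flatMap (fun _ => [false]) ++ [true] ++ l := by
    refine nexp_ex (R := fun e z => ∃ l, e 0 = z.flatMap (fun _ => [true]) ++ [false] ++ l ∧
      e 1 = z.flatMap (fun _ => [false]) ++ [true] ++ l) h2 (g := fun n => n) PolyB.id ?_
    rintro e z ⟨l, h, -⟩
    have := len_le_size e 0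
    rw [h] at this
    have h4 : (z.flatMap fun _ => [true]).length = z.length := by simp
    simp only [List.length_append, h4] at this
    omega
  refine (h3.reindex ![i, j]).congr fun e => ?_
  rw [suc_iff]
  simp

/-- Comparison of numbers of the same length. -/
theorem nexp_valLe {k : ℕ} (i j : Fin k) : NEXP O fun e : Fin k → List Bool =>
    (e i).length = (e j).length ∧ val (e i) ≤ val (e j) := by
  have h1 : NEXP O fun e : Fin 3 → List Bool => Suc (e 1) (e 2) ∧ (e 2).length ≤ (e 0).length := by
    refine (nexp_suc 1 2).and (((nexp_le (O := O)).reindex ![2, 0]).congr fun e => ?_)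
    simp
  have h2 := nexp_reach (k := 1) (S := fun e a b => Suc a b ∧ b.length ≤ (e 0).length) h1
    (g := fun n => n) PolyB.id monotone_id (by
      rintro e a b ⟨-, h⟩
      exact h.trans (len_le_size e 0))
  refine (h2.reindex ![j, i, j]).congr fun e => ?_
  show Relation.ReflTransGen (fun a b => Suc a b ∧ b.length ≤ (e j).length) (e i) (e j) ↔ _
  generalize e i = x
  generalize e j = y
  constructor
  · intro h
    refine Relation.ReflTransGen.head_induction_on h ⟨rfl, le_rfl⟩ ?_
    rintro a b ⟨⟨h3, h4⟩, -⟩ - ⟨h5, h6⟩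
    exact ⟨by omega, by omega⟩
  · rintro ⟨h3, h4⟩
    obtain ⟨d, hd⟩ := Nat.exists_eq_add_of_le h4
    induction d generalizing x with
    | zero =>
      have : x = y := val_inj h3 (by omega)
      subst this
      exact .refl
    | succ d ih =>
      have hlt := val_lt y
      have hx : val (bits y.length (val x + 1)) = val x + 1 := val_bits (by omega)
      refine Relation.ReflTransGen.head (b := bits y.length (val x + 1))
        ⟨⟨by rw [length_bits, h3], hx⟩, by rw [length_bits]⟩
        (ih _ (by rw [length_bits]) (by omega) (by omega))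

theorem nexp_valLt {k : ℕ} (i j : Fin k) : NEXP O fun e : Fin k → List Bool =>
    (e i).length = (e j).length ∧ val (e i) < val (e j) := by
  have h1 : NEXP O fun e : Fin 3 → List Bool => Suc (e 0) (e 2) ∧
      ((e 2).length = (e 1).length ∧ val (e 2) ≤ val (e 1)) := (nexp_suc 0 2).and (nexp_valLe 2 1)
  have h2 : NEXP O fun e : Fin 2 → List Bool => ∃ z, Suc (e 0) z ∧
      (z.length = (e 1).length ∧ val z ≤ val (e 1)) := by
    refine nexp_ex (R := fun e z => Suc (e 0) z ∧ (z.length = (e 1).length ∧ val z ≤ val (e 1)))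
      h1 (g := fun n => n) PolyB.id ?_
    rintro e z ⟨-, h, -⟩
    have := len_le_size e 1
    show _ ≤ size e
    omega
  refine (h2.reindex ![i, j]).congr fun e => ?_
  simp only [Matrix.cons_val_zero, Matrix.cons_val_one]
  constructor
  · rintro ⟨z, ⟨h3, h4⟩, h5, h6⟩
    exact ⟨by omega, by omega⟩
  · rintro ⟨h3, h4⟩
    have hlt := val_lt (e j)
    have hx : val (bits (e j).length (val (e i) + 1)) = val (e i) + 1 := val_bits (by omega)
    exact ⟨bits (e j).length (val (e i) + 1), ⟨by rw [length_bits, h3], hx⟩,
      by rw [length_bits], by omega⟩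

end Pool.Agent.LibBHN
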