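import Pool.Agent.LibBHN.CountA
import Pool.Agent.LibBHN.Misc
import Pool.Agent.LibBHN.Str2

/-! Task NX-3: counting in the class. -/

namespace Pool.Agent.LibBHN

open Function Pool.Agent.LibNexp

variable {O : List Bool → Bool}

namespace CountAux

theorem nexp_pairR {k : ℕ} (i j l : Fin k) :
    NEXP O fun e : Fin k → List Bool => e l = pair (e i) (e j) := by
  refine ((nexp_pairRel (O := O)).reindex ![i, j, l]).congr fun e => ?_
  simp

/-- A step of the walk without counting. -/
def S1 (u a b : List Bool) : Prop := ∃ y c y', a = pair y c ∧ b = pair y' c ∧ Suc y y' ∧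
  y'.length ≤ u.length ∧ c.length ≤ u.length

/-- A step of the walk with counting. -/
def S2 (u a b x : List Bool) : Prop := ∃ y c y' c', a = pair y c ∧ b = pair y' c' ∧
  Suc y y' ∧ Suc c c' ∧ y = x ++ [false] ∧ y'.length ≤ u.length ∧ c'.length ≤ u.length

theorem nexp_S1 {k : ℕ} (i j l : Fin k) :
    NEXP O fun e : Fin k → List Bool => S1 (e i) (e j) (e l) := by
  have h1 : NEXP O fun e : Fin 6 → List Bool => e 1 = pair (e 3) (e 4) ∧ e 2 = pair (e 5) (e 4) ∧
      Suc (e 3) (e 5) ∧ (e 5).length ≤ (e 0).length ∧ (e 4).length ≤ (e 0).length :=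
    (nexp_pairR 3 4 1).and ((nexp_pairR 5 4 2).and ((nexp_suc 3 5).and
      ((nexp_lenLe 5 0).and (nexp_lenLe 4 0))))
  have h2 : NEXP O fun e : Fin 5 → List Bool => ∃ y', e 1 = pair (e 3) (e 4) ∧
      e 2 = pair y' (e 4) ∧ Suc (e 3) y' ∧ y'.length ≤ (e 0).length ∧
        (e 4).length ≤ (e 0).length := by
    refine nexp_ex (R := fun e y' => e 1 = pair (e 3) (e 4) ∧
      e 2 = pair y' (e 4) ∧ Suc (e 3) y' ∧ y'.length ≤ (e 0).length ∧
        (e 4).length ≤ (e 0).length) h1 (g := fun n => n) PolyB.id ?_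
    rintro e z ⟨-, -, -, h, -⟩
    exact h.trans (len_le_size e 0)
  have h3 : NEXP O fun e : Fin 4 → List Bool => ∃ c y', e 1 = pair (e 3) c ∧
      e 2 = pair y' c ∧ Suc (e 3) y' ∧ y'.length ≤ (e 0).length ∧
        c.length ≤ (e 0).length := by
    refine nexp_ex (R := fun e c => ∃ y', e 1 = pair (e 3) c ∧
      e 2 = pair y' c ∧ Suc (e 3) y' ∧ y'.length ≤ (e 0).length ∧
        c.length ≤ (e 0).length) h2 (g := fun n => n) PolyB.id ?_
    rintro e z ⟨_, -, -, -, -, h⟩
    exact h.trans (len_le_size e 0)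
  have h4 : NEXP O fun e : Fin 3 → List Bool => ∃ y c y', e 1 = pair y c ∧
      e 2 = pair y' c ∧ Suc y y' ∧ y'.length ≤ (e 0).length ∧
        c.length ≤ (e 0).length := by
    refine nexp_ex (R := fun e y => ∃ c y', e 1 = pair y c ∧
      e 2 = pair y' c ∧ Suc y y' ∧ y'.length ≤ (e 0).length ∧
        c.length ≤ (e 0).length) h3 (g := fun n => n) PolyB.id ?_
    rintro e z ⟨_, _, -, -, ⟨h0, -⟩, h, -⟩
    have := len_le_size e 0
    show _ ≤ size e
    omega
  refine (h4.reindex ![i, j, l]).congr fun e => ?_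
  unfold S1
  simp

theorem nexp_S2 {k : ℕ} (i j l m : Fin k) :
    NEXP O fun e : Fin k → List Bool => S2 (e i) (e j) (e l) (e m) := by
  have h1 : NEXP O fun e : Fin 8 → List Bool => e 1 = pair (e 4) (e 5) ∧ e 2 = pair (e 6) (e 7) ∧
      Suc (e 4) (e 6) ∧ Suc (e 5) (e 7) ∧ e 4 = e 3 ++ [false] ∧
        (e 6).length ≤ (e 0).length ∧ (e 7).length ≤ (e 0).length :=
    (nexp_pairR 4 5 1).and ((nexp_pairR 6 7 2).and ((nexp_suc 4 6).and ((nexp_suc 5 7).and
      ((nexp_snoc false 3 4).and ((nexp_lenLe 6 0).and (nexp_lenLe 7 0))))))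
  have h2 : NEXP O fun e : Fin 7 → List Bool => ∃ c', e 1 = pair (e 4) (e 5) ∧
      e 2 = pair (e 6) c' ∧ Suc (e 4) (e 6) ∧ Suc (e 5) c' ∧ e 4 = e 3 ++ [false] ∧
        (e 6).length ≤ (e 0).length ∧ c'.length ≤ (e 0).length := by
    refine nexp_ex (R := fun e c' => e 1 = pair (e 4) (e 5) ∧
      e 2 = pair (e 6) c' ∧ Suc (e 4) (e 6) ∧ Suc (e 5) c' ∧ e 4 = e 3 ++ [false] ∧
        (e 6).length ≤ (e 0).length ∧ c'.length ≤ (e 0).length) h1 (g := fun n => n) PolyB.id ?_
    rintro e z ⟨-, -, -, -, -, -, h⟩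
    exact h.trans (len_le_size e 0)
  have h3 : NEXP O fun e : Fin 6 → List Bool => ∃ y' c', e 1 = pair (e 4) (e 5) ∧
      e 2 = pair y' c' ∧ Suc (e 4) y' ∧ Suc (e 5) c' ∧ e 4 = e 3 ++ [false] ∧
        y'.length ≤ (e 0).length ∧ c'.length ≤ (e 0).length := by
    refine nexp_ex (R := fun e y' => ∃ c', e 1 = pair (e 4) (e 5) ∧
      e 2 = pair y' c' ∧ Suc (e 4) y' ∧ Suc (e 5) c' ∧ e 4 = e 3 ++ [false] ∧
        y'.length ≤ (e 0).length ∧ c'.length ≤ (e 0).length) h2 (g := fun n => n) PolyB.id ?_
    rintro e z ⟨_, -, -, -, -, -, h, -⟩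
    exact h.trans (len_le_size e 0)
  have h4 : NEXP O fun e : Fin 5 → List Bool => ∃ c y' c', e 1 = pair (e 4) c ∧
      e 2 = pair y' c' ∧ Suc (e 4) y' ∧ Suc c c' ∧ e 4 = e 3 ++ [false] ∧
        y'.length ≤ (e 0).length ∧ c'.length ≤ (e 0).length := by
    refine nexp_ex (R := fun e c => ∃ y' c', e 1 = pair (e 4) c ∧
      e 2 = pair y' c' ∧ Suc (e 4) y' ∧ Suc c c' ∧ e 4 = e 3 ++ [false] ∧
        y'.length ≤ (e 0).length ∧ c'.length ≤ (e 0).length) h3 (g := fun n => n) PolyB.id ?_
    rintro e z ⟨_, _, -, -, -, ⟨h0, -⟩, -, -, h⟩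
    have := len_le_size e 0
    show _ ≤ size e
    omega
  have h5 : NEXP O fun e : Fin 4 → List Bool => ∃ y c y' c', e 1 = pair y c ∧
      e 2 = pair y' c' ∧ Suc y y' ∧ Suc c c' ∧ y = e 3 ++ [false] ∧
        y'.length ≤ (e 0).length ∧ c'.length ≤ (e 0).length := by
    refine nexp_ex (R := fun e y => ∃ c y' c', e 1 = pair y c ∧
      e 2 = pair y' c' ∧ Suc y y' ∧ Suc c c' ∧ y = e 3 ++ [false] ∧
        y'.length ≤ (e 0).length ∧ c'.length ≤ (e 0).length) h4 (g := fun n => n) PolyB.id ?_
    rintro e z ⟨_, _, _, -, -, ⟨h0, -⟩, -, -, h, -⟩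
    have := len_le_size e 0
    show _ ≤ size e
    omega
  refine (h5.reindex ![i, j, l, m]).congr fun e => ?_
  unfold S2
  simp

/-- The start of the walk. -/
def St (u a : List Bool) : Prop := ∃ z, z = u.flatMap (fun _ => [false]) ∧ a = pair z z

/-- The end of the walk. -/
def En (u b : List Bool) : Prop := ∃ y, b = pair y u ∧ y.length ≤ u.length

theorem nexp_St {k : ℕ} (i j : Fin k) : NEXP O fun e : Fin k → List Bool => St (e i) (e j) := by
  have h1 : NEXP O fun e : Fin 3 → List Bool =>
      e 2 = (e 0).flatMap (fun _ => [false]) ∧ e 1 = pair (e 2) (e 2) := by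
    refine NEXP.and ?_ (nexp_pairR 2 2 1)
    refine ((nexp_subst (O := O) (fun _ => [false]) (fun _ => []) []).reindex
      ![0, 0, 2]).congr fun e => ?_
    simp [misc_flatMap_nil]
  have h2 : NEXP O fun e : Fin 2 → List Bool => ∃ z,
      z = (e 0).flatMap (fun _ => [false]) ∧ e 1 = pair z z := by
    refine nexp_ex (R := fun e z => z = (e 0).flatMap (fun _ => [false]) ∧ e 1 = pair z z)
      h1 (g := fun n => n) PolyB.id ?_
    rintro e z ⟨-, h⟩
    have := len_le_size e 1
    rw [h, length_pair] at this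
    show _ ≤ size e
    omega
  refine (h2.reindex ![i, j]).congr fun e => ?_
  unfold St
  simp

theorem nexp_En {k : ℕ} (i j : Fin k) : NEXP O fun e : Fin k → List Bool => En (e i) (e j) := by
  have h1 : NEXP O fun e : Fin 3 → List Bool =>
      e 1 = pair (e 2) (e 0) ∧ (e 2).length ≤ (e 0).length :=
    (nexp_pairR 2 0 1).and (nexp_lenLe 2 0)
  have h2 : NEXP O fun e : Fin 2 → List Bool => ∃ z, e 1 = pair z (e 0) ∧
      z.length ≤ (e 0).length := by
    refine nexp_ex (R := fun e z => e 1 = pair z (e 0) ∧ z.length ≤ (e 0).length)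
      h1 (g := fun n => n) PolyB.id ?_
    rintro e z ⟨-, h⟩
    exact h.trans (len_le_size e 0)
  refine (h2.reindex ![i, j]).congr fun e => ?_
  unfold En
  simp

theorem flatMap_false (u : List Bool) :
    u.flatMap (fun _ => [false]) = List.replicate u.length false := by
  induction u with
  | nil => rfl
  | cons b u ih => rw [List.flatMap_cons, ih]; rfl

theorem val_replicate (n : ℕ) : val (List.replicate n false) = 0 := by
  induction n with
  | zero => rfl
  | succ n ih => simp [List.replicate_succ, val, ih]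

theorem bits_zero (n : ℕ) : bits n 0 = List.replicate n false := by
  refine val_inj (by simp) ?_
  rw [val_replicate, val_bits (by positivity)]

theorem val_append_false (x : List Bool) : val (x ++ [false]) = val x := by
  induction x with
  | nil => rfl
  | cons b x ih => simp [val, ih]

theorem bits_succ_append {n m : ℕ} (h : m < 2 ^ n) : bits (n + 1) m = bits n m ++ [false] := by
  refine val_inj (by simp) ?_
  rw [val_append_false, val_bits h, val_bits (by rw [pow_succ]; omega)]

open Classical in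
/-- Partial counts. -/
noncomputable def pc (n : ℕ) (P : List Bool → Prop) (t : ℕ) : ℕ :=
  ((Finset.range (2 ^ n)).filter fun m => m < t ∧ P (bits n m)).card

theorem pc_zero (n : ℕ) (P : List Bool → Prop) : pc n P 0 = 0 := by
  classical
  unfold pc
  rw [Finset.card_eq_zero]
  simp

theorem pc_top (n : ℕ) (P : List Bool → Prop) : pc n P (2 ^ n) = cnt n P := by
  classical
  unfold pc cnt
  congr 1
  ext m
  simp only [Finset.mem_filter, Finset.mem_range]
  tauto

theorem pc_le (n : ℕ) (P : List Bool → Prop) (t : ℕ) : pc n P t ≤ cnt n P := by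
  classical
  unfold pc cnt
  refine Finset.card_le_card fun m hm => ?_
  simp only [Finset.mem_filter, Finset.mem_range] at hm ⊢
  tauto

theorem pc_mono (n : ℕ) (P : List Bool → Prop) (t : ℕ) : pc n P t ≤ pc n P (t + 1) := by
  classical
  unfold pc
  refine Finset.card_le_card fun m hm => ?_
  simp only [Finset.mem_filter, Finset.mem_range] at hm ⊢
  exact ⟨hm.1, by omega, hm.2.2⟩

theorem pc_succ {n : ℕ} {P : List Bool → Prop} {t : ℕ} (ht : t < 2 ^ n) (h : P (bits n t)) :
    pc n P (t + 1) = pc n P t + 1 := by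
  classical
  unfold pc
  have h1 : (Finset.range (2 ^ n)).filter (fun m => m < t + 1 ∧ P (bits n m)) =
      insert t ((Finset.range (2 ^ n)).filter fun m => m < t ∧ P (bits n m)) := by
    ext m
    simp only [Finset.mem_filter, Finset.mem_range, Finset.mem_insert]
    constructor
    · rintro ⟨h2, h3, h4⟩
      by_cases h5 : m = t
      · exact Or.inl h5
      · exact Or.inr ⟨h2, by omega, h4⟩
    · rintro (rfl | ⟨h2, h3, h4⟩)
      · exact ⟨ht, by omega, h⟩
      · exact ⟨h2, by omega, h4⟩
  rw [h1, Finset.card_insert_of_notMem]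
  simp

theorem pc_succ_cases {n : ℕ} {P : List Bool → Prop} {t : ℕ} (h : pc n P t < pc n P (t + 1)) :
    t < 2 ^ n ∧ P (bits n t) := by
  classical
  by_contra hc
  have h1 : pc n P (t + 1) = pc n P t := by
    unfold pc
    congr 1
    ext m
    simp only [Finset.mem_filter, Finset.mem_range]
    constructor
    · rintro ⟨h2, h3, h4⟩
      refine ⟨h2, ?_, h4⟩
      by_contra h5
      have : m = t := by omega
      subst this
      exact hc ⟨h2, h4⟩
    · rintro ⟨h2, h3, h4⟩
      exact ⟨h2, by omega, h4⟩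
  omega

/-- The step of the walk. -/
def S {k : ℕ} (R : (Fin k → List Bool) → List Bool → Prop) (e : Fin (k + 1) → List Bool)
    (a b : List Bool) : Prop :=
  S1 (e (Fin.last k)) a b ∨
    ∃ x, S2 (e (Fin.last k)) a b x ∧ R (low (Nat.le_add_right k 1) e) x

theorem reach_iff {k : ℕ} {R : (Fin k → List Bool) → List Bool → Prop}
    (e : Fin (k + 1) → List Bool) (n : ℕ) (hn : (e (Fin.last k)).length = n + 1) :
    (∃ a b, St (e (Fin.last k)) a ∧ En (e (Fin.last k)) b ∧ Relation.ReflTransGen (S R e) a b) ↔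
      val (e (Fin.last k)) ≤ cnt n (R (low (Nat.le_add_right k 1) e)) := by
  set u := e (Fin.last k) with hu
  set P := R (low (Nat.le_add_right k 1) e) with hP
  constructor
  · rintro ⟨a, b, ⟨z, rfl, rfl⟩, ⟨y, rfl, hy⟩, h⟩
    have key : ∀ b, Relation.ReflTransGen (S R e) (pair (u.flatMap fun _ => [false])
        (u.flatMap fun _ => [false])) b → ∃ y c, b = pair y c ∧ y.length = n + 1 ∧
          c.length = n + 1 ∧ val c ≤ pc n P (val y) := by
      intro b hb
      induction hb with
      | refl =>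
        refine ⟨_, _, rfl, ?_, ?_, ?_⟩
        · rw [flatMap_false, List.length_replicate, hn]
        · rw [flatMap_false, List.length_replicate, hn]
        · rw [flatMap_false, val_replicate]; exact Nat.zero_le _
      | tail _ hstep ih =>
        obtain ⟨y, c, rfl, hy, hc, hv⟩ := ih
        rcases hstep with ⟨y1, c1, y', h1, h2, ⟨h3, h3'⟩, h4, h5⟩ |
          ⟨x, ⟨y1, c1, y', c', h1, h2, ⟨h3, h3'⟩, ⟨h6, h6'⟩, h7, h4, h5⟩, hx⟩
        · obtain ⟨rfl, rfl⟩ := pair_injective h1
          refine ⟨y', c, h2, by omega, hc, ?_⟩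
          rw [h3']
          exact hv.trans (pc_mono _ _ _)
        · obtain ⟨rfl, rfl⟩ := pair_injective h1
          refine ⟨y', c', h2, by omega, by omega, ?_⟩
          rw [h3', h6']
          have hxl : x.length = n := by
            rw [h7] at hy
            simpa using hy
          have hyx : val y = val x := by rw [h7, val_append_false]
          have hlt : val y < 2 ^ n := by
            rw [hyx, ← hxl]
            exact val_lt x
          have hPx : P (bits n (val y)) := by
            rw [hyx, ← hxl, bits_val]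
            exact hx
          rw [pc_succ hlt hPx]
          omega
    obtain ⟨y1, c1, h1, h2, h3, h4⟩ := key _ h
    obtain ⟨rfl, rfl⟩ := pair_injective h1
    exact h4.trans (pc_le _ _ _)
  · intro h
    have hstart : pair (bits (n + 1) 0) (bits (n + 1) 0) =
        pair (u.flatMap fun _ => [false]) (u.flatMap fun _ => [false]) := by
      rw [bits_zero, flatMap_false, hn]
    have hcl : cnt n P ≤ 2 ^ n := cnt_le n P
    have hpow : 2 ^ (n + 1) = 2 * 2 ^ n := by rw [pow_succ]; ring
    have hpos : 0 < 2 ^ n := by positivity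
    have key : ∀ t ≤ 2 ^ n, ∀ c ≤ pc n P t, Relation.ReflTransGen (S R e)
        (pair (bits (n + 1) 0) (bits (n + 1) 0)) (pair (bits (n + 1) t) (bits (n + 1) c)) := by
      intro t
      induction t with
      | zero =>
        intro _ c hc
        rw [pc_zero] at hc
        have : c = 0 := by omega
        subst this
        exact .refl
      | succ t ih =>
        intro ht c hc
        have hs : Suc (bits (n + 1) t) (bits (n + 1) (t + 1)) :=
          ⟨by simp, by rw [val_bits (by omega), val_bits (by omega)]⟩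
        by_cases hc' : c ≤ pc n P t
        · refine (ih (by omega) c hc').tail (Or.inl ?_)
          exact ⟨_, _, _, rfl, rfl, hs, by rw [length_bits, ← hu, hn],
            by rw [length_bits, ← hu, hn]⟩
        · obtain ⟨h1, h2⟩ := pc_succ_cases (n := n) (P := P) (t := t) (by omega)
          have h3 := pc_succ h1 h2
          obtain ⟨d, rfl⟩ : ∃ d, c = d + 1 := ⟨c - 1, by omega⟩
          have hd : d + 1 ≤ 2 ^ n := by
            have := pc_le n P (t + 1)
            omega
          refine (ih (by omega) d (by omega)).tail (Or.inr ⟨bits n t, ?_, h2⟩)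
          exact ⟨_, _, _, _, rfl, rfl, hs, ⟨by simp, by rw [val_bits (by omega),
            val_bits (by omega)]⟩, bits_succ_append h1, by rw [length_bits, ← hu, hn],
            by rw [length_bits, ← hu, hn]⟩
    have hub : bits (n + 1) (val u) = u := by rw [← hn, bits_val]
    refine ⟨_, _, ⟨_, rfl, rfl⟩, ⟨bits (n + 1) (2 ^ n), rfl, by rw [length_bits, hn]⟩, ?_⟩
    rw [← hstart]
    have := key (2 ^ n) le_rfl (val u) (by rw [pc_top]; exact h)
    rwa [hub] at this

end CountAux

open CountAux in
/-- Lower bounds on the number of strings with a property in the class are in the class. -/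
theorem nexp_count {k : ℕ} {R : (Fin k → List Bool) → List Bool → Prop}
    (h : NEXP O fun e : Fin (k + 1) → List Bool =>
      R (low (Nat.le_add_right k 1) e) (e (Fin.last k))) :
    NEXP O fun e : Fin (k + 1) → List Bool => ∃ n, (e (Fin.last k)).length = n + 1 ∧
      val (e (Fin.last k)) ≤ cnt n (R (low (Nat.le_add_right k 1) e)) := by
  -- the step is in the class
  have hS2 : NEXP O fun e : Fin (k + 3 + 1) → List Bool =>
      S2 (e ⟨k, by omega⟩) (e ⟨k + 1, by omega⟩) (e ⟨k + 2, by omega⟩) (e (Fin.last (k + 3))) ∧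
        R (fun j => e (Fin.castLE (by omega) j)) (e (Fin.last (k + 3))) := by
    refine (nexp_S2 _ _ _ _).and ?_
    refine (h.reindex (m := k + 3 + 1)
      (Fin.snoc (α := fun _ => Fin (k + 3 + 1)) (fun j : Fin k => Fin.castLE (by omega) j)
        (Fin.last (k + 3)))).congr fun e => ?_
    have h1 : (low (Nat.le_add_right k 1) fun j : Fin (k + 1) =>
        e (Fin.snoc (α := fun _ => Fin (k + 3 + 1)) (fun j : Fin k => Fin.castLE (by omega) j)
        (Fin.last (k + 3)) j)) = fun j => e (Fin.castLE (by omega) j) := by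
      funext j
      unfold low
      have h2 : Fin.castLE (Nat.le_add_right k 1) j = j.castSucc := by
        ext; simp
      rw [h2]
      beta_reduce
      rw [Fin.snoc_castSucc]
    rw [h1]
    beta_reduce
    rw [Fin.snoc_last]
  have hS3 : NEXP O fun e : Fin (k + 3) → List Bool => ∃ x,
      S2 (e ⟨k, by omega⟩) (e ⟨k + 1, by omega⟩) (e ⟨k + 2, by omega⟩) x ∧
        R (fun j => e (Fin.castLE (by omega) j)) x := by
    refine nexp_ex (R := fun (e : Fin (k + 3) → List Bool) x =>
      S2 (e ⟨k, by omega⟩) (e ⟨k + 1, by omega⟩) (e ⟨k + 2, by omega⟩) x ∧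
        R (fun j => e (Fin.castLE (by omega) j)) x) (hS2.congr fun e => Iff.rfl)
      (g := fun n => n) PolyB.id ?_
    rintro e z ⟨⟨y, c, y', c', -, -, ⟨h0, -⟩, -, h1, h2, -⟩, -⟩
    have := len_le_size e ⟨k, by omega⟩
    have h3 : y.length = z.length + 1 := by rw [h1]; simp
    show _ ≤ size e
    omega
  have hS : NEXP O fun e : Fin (k + 1 + 2) → List Bool =>
      S R (low (Nat.le_add_right (k + 1) 2) e) (e (Fin.castSucc (Fin.last (k + 1))))
        (e (Fin.last (k + 1 + 1))) :=
    ((nexp_S1 ⟨k, by omega⟩ ⟨k + 1, by omega⟩ ⟨k + 2, by omega⟩).or hS3).congr fun e => Iff.rfl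
  have hreach := nexp_reach (k := k + 1) (S := S R) hS (g := fun n => 3 * n + 2)
    (((PolyB.const 3).mul PolyB.id).add (PolyB.const 2))
    (by intro a b hab; show 3 * a + 2 ≤ 3 * b + 2; omega) (by
      intro e a b hab
      have := len_le_size e (Fin.last k)
      show _ ≤ 3 * size e + 2
      rcases hab with ⟨y1, c1, y', -, rfl, -, h4, h5⟩ |
          ⟨x, ⟨y1, c1, y', c', -, rfl, -, -, -, h4, h5⟩, -⟩
      · rw [length_pair]; omega
      · rw [length_pair]; omega)
  have hb : NEXP O fun e : Fin (k + 2) → List Bool => ∃ b,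
      St (e ⟨k, by omega⟩) (e (Fin.last (k + 1))) ∧ En (e ⟨k, by omega⟩) b ∧
        Relation.ReflTransGen (S R (low (Nat.le_add_right (k + 1) 1) e))
          (e (Fin.last (k + 1))) b := by
    refine nexp_ex (R := fun (e : Fin (k + 2) → List Bool) b =>
      St (e ⟨k, by omega⟩) (e (Fin.last (k + 1))) ∧ En (e ⟨k, by omega⟩) b ∧
        Relation.ReflTransGen (S R (low (Nat.le_add_right (k + 1) 1) e))
          (e (Fin.last (k + 1))) b)
      (((nexp_St ⟨k, by omega⟩ ⟨k + 1, by omega⟩).and
        ((nexp_En ⟨k, by omega⟩ ⟨k + 2, by omega⟩).and hreach)).congr fun e => Iff.rfl)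
      (g := fun n => 3 * n + 2) (((PolyB.const 3).mul PolyB.id).add (PolyB.const 2)) ?_
    rintro e z ⟨-, ⟨y, rfl, hy⟩, -⟩
    have := len_le_size e ⟨k, by omega⟩
    rw [length_pair]
    omega
  have ha : NEXP O fun e : Fin (k + 1) → List Bool => ∃ a b,
      St (e (Fin.last k)) a ∧ En (e (Fin.last k)) b ∧
        Relation.ReflTransGen (S R e) a b := by
    refine nexp_ex (R := fun (e : Fin (k + 1) → List Bool) a => ∃ b,
      St (e (Fin.last k)) a ∧ En (e (Fin.last k)) b ∧
        Relation.ReflTransGen (S R e) a b) (hb.congr fun e => Iff.rfl)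
      (g := fun n => 3 * n + 2) (((PolyB.const 3).mul PolyB.id).add (PolyB.const 2)) ?_
    rintro e z ⟨b, ⟨y, rfl, rfl⟩, -⟩
    have := len_le_size e (Fin.last k)
    rw [length_pair, flatMap_false, List.length_replicate]
    show _ ≤ 3 * size e + 2
    omega
  have hpos : NEXP O fun e : Fin (k + 1) → List Bool => ∃ z, e (Fin.last k) = z ++ [true] ∨
      e (Fin.last k) = z ++ [false] := by
    refine nexp_ex (R := fun (e : Fin (k + 1) → List Bool) z => e (Fin.last k) = z ++ [true] ∨
      e (Fin.last k) = z ++ [false])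
      (((nexp_snoc true (Fin.last (k + 1)) ⟨k, by omega⟩).or
        (nexp_snoc false (Fin.last (k + 1)) ⟨k, by omega⟩)).congr fun e => Iff.rfl)
      (g := fun n => n) PolyB.id ?_
    rintro e z hz
    have := len_le_size e (Fin.last k)
    rcases hz with hz | hz
    · rw [hz] at this; simp only [List.length_append, List.length_cons] at this
      show _ ≤ size e
      omega
    · rw [hz] at this; simp only [List.length_append, List.length_cons] at this
      show _ ≤ size e
      omega
  refine (hpos.and ha).congr fun e => ?_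
  constructor
  · rintro ⟨⟨z, hz⟩, h1⟩
    have hn : (e (Fin.last k)).length = z.length + 1 := by
      rcases hz with hz | hz <;> rw [hz] <;> simp
    exact ⟨z.length, hn, (reach_iff e _ hn).1 h1⟩
  · rintro ⟨n, hn, h1⟩
    refine ⟨?_, (reach_iff e n hn).2 h1⟩
    have hne : e (Fin.last k) ≠ [] := by
      intro h0
      rw [h0] at hn
      simp at hn
    refine ⟨(e (Fin.last k)).dropLast, ?_⟩
    have h2 := List.dropLast_append_getLast hne
    cases h3 : (e (Fin.last k)).getLast hne
    · right; rw [h3] at h2; exact h2.symm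
    · left; rw [h3] at h2; exact h2.symm

end Pool.Agent.LibBHN
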