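import Pool.Agent.LibBHN.Reach

/-!
Walks whose control is a relation of the class between strings of polynomial length and whose
memory consists of two stacks of exponential length.
-/

namespace Pool.Agent.LibBHN

open Function Pool.Agent.LibNexp

variable {O : List Bool → Bool}

/-- Basic actions on two stacks. -/
inductive Act
  | push (r b : Bool) : Act
  | pop (r b : Bool) : Act
  | empty (r : Bool) : Act

/-- All basic actions. -/
def acts : List Act :=
  [.push false false, .push false true, .push true false, .push true true,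
    .pop false false, .pop false true, .pop true false, .pop true true, .empty false, .empty true]

theorem mem_acts (a : Act) : a ∈ acts := by
  rcases a with ⟨r, b⟩ | ⟨r, b⟩ | r
  · cases r <;> cases b <;> simp [acts]
  · cases r <;> cases b <;> simp [acts]
  · cases r <;> simp [acts]

/-- The effect of an action on the two stacks. -/
def Act.rel : Act → List Bool × List Bool → List Bool × List Bool → Prop
  | .push false b, c, c' => c' = (b :: c.1, c.2)
  | .push true b, c, c' => c' = (c.1, b :: c.2)
  | .pop false b, c, c' => c = (b :: c'.1, c'.2)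
  | .pop true b, c, c' => c = (c'.1, b :: c'.2)
  | .empty false, c, c' => c.1 = [] ∧ c' = c
  | .empty true, c, c' => c.2 = [] ∧ c' = c

/-- One step of a controlled walk. -/
def LStep {α : Type} (S : Act → α → α → Prop) (c c' : α × List Bool × List Bool) : Prop :=
  ∃ a, S a c.1 c'.1 ∧ a.rel c.2 c'.2

/-- Programs that never terminate. -/
def fail : Prog := .seq (.push 0 true) (.empty 0)

theorem not_run_fail {t : ℕ} {σ σ' : State} : ¬ Run O fail t σ σ' := by
  rintro ⟨t1, t2, τ, -, ⟨-, rfl⟩, -, h, -⟩
  rw [update_self] at h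
  cases h

/-- Choice from a list. -/
def altL : List Prog → Prog
  | [] => fail
  | p :: l => .alt p (altL l)

theorem run_altL {l : List Prog} {t : ℕ} {σ σ' : State} :
    Run O (altL l) t σ σ' ↔ ∃ p ∈ l, Run O p t σ σ' := by
  induction l with
  | nil => simp [altL, not_run_fail]
  | cons p l ih =>
    constructor
    · rintro (h | h)
      · exact ⟨p, by simp, h⟩
      · obtain ⟨q, hq, h⟩ := ih.1 h
        exact ⟨q, by simp [hq], h⟩
    · rintro ⟨q, hq, h⟩
      rcases List.mem_cons.1 hq with rfl | hq
      · exact Or.inl h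
      · exact Or.inr (ih.2 ⟨q, hq, h⟩)

/-- Guess a string on stack `gs`, test, and put it on stack `cur`. -/
def repl (cur gs : ℕ) (p : Prog) : Prog :=
  .seq (guess gs) (.seq p (.seq (clear cur) (.seq (copy gs cur (gs + 1)) (clear gs))))

theorem repl_sound {cur gs : ℕ} (hcg : cur < gs) {p : Prog} {Q : State → Prop} {T : State → ℕ}
    (hp : IsTest O (gs + 1) Q T p) {σ σ' : State} {t : ℕ} (hq : Quiet gs σ)
    (h : Run O (repl cur gs p) t σ σ') :
    ∃ z, Q (update σ gs z) ∧ σ' = update σ cur z := by
  obtain ⟨t1, t2, τ1, -, h1, t3, t4, τ2, -, h2, t5, t6, τ3, -, h3, t7, t8, τ4, -, h4, h5⟩ := h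
  rw [run_guess] at h1
  obtain ⟨z, -, rfl⟩ := h1
  have e1 : σ gs = [] := hq _ le_rfl
  rw [e1, List.append_nil] at h2
  have hq1 : Quiet (gs + 1) (update σ gs z) := by
    intro r hr
    rw [update_of_ne (by omega)]
    exact hq r (by omega)
  obtain ⟨rfl, h6⟩ := (hp _ hq1).1 _ _ h2
  rw [run_clear] at h3
  obtain ⟨-, rfl⟩ := h3
  have e2 : update (update σ gs z) cur [] (gs + 1) = [] := by
    rw [update_of_ne (by omega)]
    exact hq1 _ le_rfl
  rw [run_copy (by omega) (by omega) (by omega) e2] at h4
  obtain ⟨-, rfl⟩ := h4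
  rw [run_clear] at h5
  obtain ⟨-, rfl⟩ := h5
  refine ⟨z, h6, ?_⟩
  funext r
  by_cases h7 : r = gs
  · subst h7
    rw [update_self, update_of_ne (by omega), e1]
  · rw [update_of_ne h7]
    by_cases h8 : r = cur
    · subst h8
      rw [update_self, update_self, update_self, update_of_ne (by omega), update_self,
        List.append_nil]
    · rw [update_of_ne h8, update_of_ne h8, update_of_ne h7, update_of_ne h8]

theorem repl_complete {cur gs : ℕ} (hcg : cur < gs) {p : Prog} {Q : State → Prop} {T : State → ℕ}
    (hp : IsTest O (gs + 1) Q T p) {σ : State} {z : List Bool} (hq : Quiet gs σ)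
    (h : Q (update σ gs z)) :
    ∃ t, t ≤ 7 * z.length + (σ cur).length + T (update σ gs z) + 4 ∧
      Run O (repl cur gs p) t σ (update σ cur z) := by
  have e1 : σ gs = [] := hq _ le_rfl
  have hq1 : Quiet (gs + 1) (update σ gs z) := by
    intro r hr
    rw [update_of_ne (by omega)]
    exact hq r (by omega)
  obtain ⟨t2, ht2, h2⟩ := (hp _ hq1).2 h
  have e2 : update (update σ gs z) cur [] (gs + 1) = [] := by
    rw [update_of_ne (by omega)]
    exact hq1 _ le_rfl
  have e3 : update σ gs z cur = σ cur := by
    rw [update_of_ne (by omega)]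
  have h1 : Run O (guess gs) z.length σ (update σ gs z) := by
    rw [run_guess]
    exact ⟨z, rfl, by rw [e1, List.append_nil]⟩
  have h3 : Run O (clear cur) ((σ cur).length + 1) (update σ gs z)
      (update (update σ gs z) cur []) := by
    rw [run_clear, e3]
    exact ⟨rfl, rfl⟩
  have h4 : Run O (copy gs cur (gs + 1)) (5 * z.length + 2)
      (update (update σ gs z) cur []) (update (update (update σ gs z) cur []) cur z) := by
    rw [run_copy (by omega) (by omega) (by omega) e2]
    rw [update_of_ne (show gs ≠ cur by omega), update_self, update_self, List.append_nil]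
    exact ⟨rfl, rfl⟩
  have h5 : Run O (clear gs) (z.length + 1)
      (update (update (update σ gs z) cur []) cur z)
      (update (update (update (update σ gs z) cur []) cur z) gs []) := by
    rw [run_clear, update_of_ne (show gs ≠ cur by omega), update_of_ne (show gs ≠ cur by omega),
      update_self]
    exact ⟨rfl, rfl⟩
  have hfin : update (update (update (update σ gs z) cur []) cur z) gs [] =
      update σ cur z := by
    funext r
    by_cases h7 : r = gs
    · subst h7
      rw [update_self, update_of_ne (by omega), e1]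
    · rw [update_of_ne h7]
      by_cases h8 : r = cur
      · subst h8
        simp
      · rw [update_of_ne h8, update_of_ne h8, update_of_ne h7, update_of_ne h8]
  rw [hfin] at h5
  refine ⟨z.length + (t2 + ((σ cur).length + 1 + (5 * z.length + 2 + (z.length + 1)))), by omega,
    _, _, _, rfl, h1, _, _, _, rfl, h2, _, _, _, rfl, h3, _, _, _, rfl, h4, h5⟩

/-- The program of an action. -/
def Act.prog (k : ℕ) : Act → Prog
  | .push r b => .push (if r then k + 3 else k + 1) b
  | .pop r b => .pop (if r then k + 3 else k + 1) b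
  | .empty r => .empty (if r then k + 3 else k + 1)

/-- The state of a walk: current string, first stack, second stack. -/
def wst (k : ℕ) (σ : State) (s X Y : List Bool) : State :=
  update (update (update σ k s) (k + 1) X) (k + 3) Y

theorem wst_k {k : ℕ} {σ : State} {s X Y : List Bool} : wst k σ s X Y k = s := by
  unfold wst
  rw [update_of_ne (by omega), update_of_ne (by omega), update_self]

theorem wst_X {k : ℕ} {σ : State} {s X Y : List Bool} : wst k σ s X Y (k + 1) = X := by
  unfold wst
  rw [update_of_ne (by omega), update_self]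

theorem wst_Y {k : ℕ} {σ : State} {s X Y : List Bool} : wst k σ s X Y (k + 3) = Y := by
  unfold wst
  rw [update_self]

theorem wst_other {k r : ℕ} {σ : State} {s X Y : List Bool} (h1 : r ≠ k) (h2 : r ≠ k + 1)
    (h3 : r ≠ k + 3) : wst k σ s X Y r = σ r := by
  unfold wst
  rw [update_of_ne h3, update_of_ne h2, update_of_ne h1]

theorem wst_upd_k {k : ℕ} {σ : State} {s s' X Y : List Bool} :
    update (wst k σ s X Y) k s' = wst k σ s' X Y := by
  funext r
  by_cases h : r = k
  · subst h; rw [update_self, wst_k]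
  · rw [update_of_ne h]
    by_cases h2 : r = k + 1
    · subst h2; rw [wst_X, wst_X]
    · by_cases h3 : r = k + 3
      · subst h3; rw [wst_Y, wst_Y]
      · rw [wst_other h h2 h3, wst_other h h2 h3]

theorem wst_upd_X {k : ℕ} {σ : State} {s X X' Y : List Bool} :
    update (wst k σ s X Y) (k + 1) X' = wst k σ s X' Y := by
  funext r
  by_cases h2 : r = k + 1
  · subst h2; rw [update_self, wst_X]
  · rw [update_of_ne h2]
    by_cases h : r = k
    · subst h; rw [wst_k, wst_k]
    · by_cases h3 : r = k + 3
      · subst h3; rw [wst_Y, wst_Y]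
      · rw [wst_other h h2 h3, wst_other h h2 h3]

theorem wst_upd_Y {k : ℕ} {σ : State} {s X Y Y' : List Bool} :
    update (wst k σ s X Y) (k + 3) Y' = wst k σ s X Y' := by
  unfold wst
  rw [update_idem]

theorem run_act {k : ℕ} {a : Act} {t : ℕ} {σ τ : State} {s X Y : List Bool} :
    Run O (a.prog k) t (wst k σ s X Y) τ ↔ t = 1 ∧ ∃ X' Y', a.rel (X, Y) (X', Y') ∧
      τ = wst k σ s X' Y' := by
  rcases a with ⟨r, b⟩ | ⟨r, b⟩ | r
  · cases r
    · simp only [Act.prog, Bool.false_eq_true, if_false, Run, Act.rel, wst_X, wst_upd_X]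
      constructor
      · rintro ⟨rfl, rfl⟩
        exact ⟨rfl, _, _, rfl, rfl⟩
      · rintro ⟨rfl, X', Y', h, rfl⟩
        obtain ⟨rfl, rfl⟩ := Prod.mk.inj h
        exact ⟨rfl, rfl⟩
    · simp only [Act.prog, if_true, Run, Act.rel, wst_Y, wst_upd_Y]
      constructor
      · rintro ⟨rfl, rfl⟩
        exact ⟨rfl, _, _, rfl, rfl⟩
      · rintro ⟨rfl, X', Y', h, rfl⟩
        obtain ⟨rfl, rfl⟩ := Prod.mk.inj h
        exact ⟨rfl, rfl⟩
  · cases r
    · simp only [Act.prog, Bool.false_eq_true, if_false, Run, Act.rel, wst_X, wst_upd_X]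
      constructor
      · rintro ⟨rfl, l, h, rfl⟩
        exact ⟨rfl, l, Y, by rw [h], rfl⟩
      · rintro ⟨rfl, X', Y', h, rfl⟩
        obtain ⟨h1, h2⟩ := Prod.mk.inj h
        subst h1 h2
        exact ⟨rfl, X', rfl, rfl⟩
    · simp only [Act.prog, if_true, Run, Act.rel, wst_Y, wst_upd_Y]
      constructor
      · rintro ⟨rfl, l, h, rfl⟩
        exact ⟨rfl, X, l, by rw [h], rfl⟩
      · rintro ⟨rfl, X', Y', h, rfl⟩
        obtain ⟨h1, h2⟩ := Prod.mk.inj h
        subst h1 h2
        exact ⟨rfl, Y', rfl, rfl⟩
  · cases r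
    · simp only [Act.prog, Bool.false_eq_true, if_false, Run, Act.rel, wst_X]
      constructor
      · rintro ⟨rfl, h, rfl⟩
        exact ⟨rfl, X, Y, ⟨h, rfl⟩, rfl⟩
      · rintro ⟨rfl, X', Y', ⟨h, h'⟩, rfl⟩
        obtain ⟨rfl, rfl⟩ := Prod.mk.inj h'
        exact ⟨rfl, h, rfl⟩
    · simp only [Act.prog, if_true, Run, Act.rel, wst_Y]
      constructor
      · rintro ⟨rfl, h, rfl⟩
        exact ⟨rfl, X, Y, ⟨h, rfl⟩, rfl⟩
      · rintro ⟨rfl, X', Y', ⟨h, h'⟩, rfl⟩
        obtain ⟨rfl, rfl⟩ := Prod.mk.inj h'
        exact ⟨rfl, h, rfl⟩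

theorem app3_k {k : ℕ} (e : Fin k → List Bool) (a b c : List Bool) :
    app (app (app e a) b) c (Fin.castSucc (Fin.castSucc (Fin.last k))) = a ∧
      app (app (app e a) b) c (Fin.castSucc (Fin.last (k + 1))) = b ∧
      app (app (app e a) b) c (Fin.last (k + 2)) = c := by
  unfold app
  refine ⟨?_, ?_, ?_⟩
  · rw [Fin.snoc_castSucc, Fin.snoc_castSucc, Fin.snoc_last]
  · rw [Fin.snoc_castSucc, Fin.snoc_last]
  · rw [Fin.snoc_last]

theorem low_app3 {k : ℕ} (e : Fin k → List Bool) (a b c : List Bool) :
    low (Nat.le_add_right k 3) (app (app (app e a) b) c) = e := by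
  funext j
  unfold low app
  have h1 : Fin.castLE (Nat.le_add_right k 3) j = ((j.castSucc).castSucc).castSucc := by
    ext; simp
  rw [h1, Fin.snoc_castSucc, Fin.snoc_castSucc, Fin.snoc_castSucc]

/-- The stacks passed to the test of a step. -/
def longRs (k : ℕ) : Fin (k + 2) → ℕ := fun j => if (j : ℕ) = k + 1 then k + 4 else j

theorem long_args {k : ℕ} {σ : State} {z : List Bool} :
    (fun j => update σ (k + 4) z (longRs k j)) =
      app (app (fun j : Fin k => σ j) (σ k)) z := by
  funext j
  unfold longRs app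
  refine Fin.lastCases ?_ (fun j => ?_) j
  · simp
  · rw [Fin.snoc_castSucc]
    refine Fin.lastCases ?_ (fun j => ?_) j
    · simp
    · rw [Fin.snoc_castSucc]
      have := j.2
      simp only [Fin.val_castSucc]
      rw [if_neg (by omega), update_of_ne (by omega)]

/-- One step of the walk as a program. -/
def longStep (k : ℕ) (p : Act → Prog) : Prog :=
  altL (acts.map fun a => .seq (repl k (k + 4) (p a)) (a.prog k))

theorem nexp_long {k : ℕ} {S : Act → (Fin k → List Bool) → List Bool → List Bool → Prop}
    (hS : ∀ a, NEXP O fun e : Fin (k + 2) → List Bool =>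
      S a (low (Nat.le_add_right k 2) e) (e (Fin.castSucc (Fin.last k))) (e (Fin.last (k + 1))))
    {g : ℕ → ℕ} (hg : PolyB g) (hgm : Monotone g)
    (hbound : ∀ a e s s', S a e s s' → s'.length ≤ g (size e))
    (clock : List Bool → ℕ)
    (hclock : ∀ a e s s', S a e s s' → clock s' = clock s + 1 ∧ clock s' ≤ 2 ^ g (size e)) :
    NEXP O fun e : Fin (k + 3) → List Bool => ∃ X Y, Relation.ReflTransGen
      (LStep fun a => S a (low (Nat.le_add_right k 3) e))
      (e (Fin.castSucc (Fin.castSucc (Fin.last k))), e (Fin.castSucc (Fin.last (k + 1))), [])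
      (e (Fin.last (k + 2)), X, Y) := by
  -- the tests
  have hT1 : ∀ a, ∃ T : ℕ → ℕ, ∃ p : Prog, EP T ∧ Monotone T ∧ IsTest O (k + 4 + 1)
      (fun σ => S a (low (Nat.le_add_right k 2) fun j => σ (longRs k j))
        (σ (longRs k (Fin.castSucc (Fin.last k)))) (σ (longRs k (Fin.last (k + 1)))))
      (fun σ => T (size fun j => σ (longRs k j))) p := by
    intro a
    obtain ⟨T, hT, hmono, h⟩ := isTest_nexp (hS a)
    obtain ⟨p, hp⟩ := h (k + 4 + 1) (longRs k) (fun j => by
      unfold longRs; have := j.2; split_ifs <;> omega)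
    exact ⟨T, p, hT, hmono, hp⟩
  choose T p hTEP hTm hp using hT1
  have heq := nexp_eq (O := O) (k := 2) 0 1
  obtain ⟨Tq, hTq, hmonoq, hq⟩ := isTest_nexp heq
  obtain ⟨q, hq⟩ := hq (k + 4) ![k, k + 2] (fun j => by fin_cases j <;> simp)
  -- a common time bound
  obtain ⟨TT, hTTEP, hTTm, hTT⟩ : ∃ TT : ℕ → ℕ, EP TT ∧ Monotone TT ∧ ∀ a n, T a n ≤ TT n := by
    refine ⟨fun n => (acts.map fun a => T a n).sum, ?_, ?_, ?_⟩
    · have : ∀ l : List Act, EP fun n => (l.map fun a => T a n).sum := by
        intro l
        induction l with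
        | nil => simpa using EP.const 0
        | cons a l ih => simpa using (hTEP a).add ih
      exact this acts
    · intro m n hmn
      have : ∀ l : List Act, (l.map fun a => T a m).sum ≤ (l.map fun a => T a n).sum := by
        intro l
        induction l with
        | nil => simp
        | cons a l ih =>
          simp only [List.map_cons, List.sum_cons]
          exact Nat.add_le_add (hTm a hmn) ih
      exact this acts
    · intro a n
      exact List.single_le_sum (by simp) _ (List.mem_map.2 ⟨a, mem_acts a, rfl⟩)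
  rw [nexp_iff]
  refine ⟨fun n => 2 ^ g n * (8 * (g n + n) + TT (n + (g n + n) + g n) + 5) +
      Tq (n + n + g n), ?_, .seq (.star (longStep k p)) q, fun e => ?_⟩
  · refine EP.add (EP.mul (EP.pow2 hg) (EP.add (EP.add (EP.of_poly
      ((PolyB.const 8).mul (hg.add PolyB.id))) (hTTEP.comp ((PolyB.id.add (hg.add PolyB.id)).add hg)))
      (EP.const 5))) (hTq.comp ((PolyB.id.add PolyB.id).add hg))
  set e0 := low (Nat.le_add_right k 3) e with he0
  set s0 := e (Fin.castSucc (Fin.castSucc (Fin.last k))) with hs0
  set X0 := e (Fin.castSucc (Fin.last (k + 1))) with hX0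
  set s1 := e (Fin.last (k + 2)) with hs1
  set ι := init e with hι
  have i0 : ι k = s0 := by
    have h1 := init_apply e (Fin.castSucc (Fin.castSucc (Fin.last k)))
    simpa using h1
  have i1 : ι (k + 1) = X0 := by
    have h1 := init_apply e (Fin.castSucc (Fin.last (k + 1)))
    simpa using h1
  have i2 : ι (k + 2) = s1 := by
    have h1 := init_apply e (Fin.last (k + 2))
    simpa using h1
  have iq : Quiet (k + 3) ι := quiet_init e
  have hself : wst k ι s0 X0 [] = ι := by
    funext r
    by_cases h1 : r = k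
    · subst h1; rw [wst_k, i0]
    · by_cases h2 : r = k + 1
      · subst h2; rw [wst_X, i1]
      · by_cases h3 : r = k + 3
        · subst h3; rw [wst_Y, iq _ le_rfl]
        · rw [wst_other h1 h2 h3]
  have hquiet : ∀ s X Y, Quiet (k + 4) (wst k ι s X Y) := by
    intro s X Y r hr
    rw [wst_other (by omega) (by omega) (by omega)]
    exact iq r (by omega)
  have hlow : ∀ s X Y, (fun j : Fin k => wst k ι s X Y j) = e0 := by
    intro s X Y
    funext j
    have := j.2
    rw [wst_other (by omega) (by omega) (by omega)]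
    have h1 := init_apply e (Fin.castLE (Nat.le_add_right k 3) j)
    simpa [he0, low, hι] using h1
  have hsize : size e = size e0 + s0.length + X0.length + s1.length := by
    have h1 : app (app (app e0 s0) X0) s1 = e := by
      funext j
      unfold app
      refine Fin.lastCases ?_ (fun j => ?_) j
      · rw [Fin.snoc_last]
      · rw [Fin.snoc_castSucc]
        refine Fin.lastCases ?_ (fun j => ?_) j
        · rw [Fin.snoc_last]
        · rw [Fin.snoc_castSucc]
          refine Fin.lastCases ?_ (fun j => ?_) j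
          · rw [Fin.snoc_last]
          · rw [Fin.snoc_castSucc]
            congr 1
    conv_lhs => rw [← h1]
    rw [size_app, size_app, size_app]
  have hargs : ∀ s X Y z, (fun j => update (wst k ι s X Y) (k + 4) z (longRs k j)) =
      app (app e0 s) z := by
    intro s X Y z
    rw [long_args, hlow, wst_k]
  have hQ : ∀ a s X Y z, S a (low (Nat.le_add_right k 2) fun j =>
        update (wst k ι s X Y) (k + 4) z (longRs k j))
      (update (wst k ι s X Y) (k + 4) z (longRs k (Fin.castSucc (Fin.last k))))
      (update (wst k ι s X Y) (k + 4) z (longRs k (Fin.last (k + 1)))) ↔ S a e0 s z := by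
    intro a s X Y z
    have h1 := hargs s X Y z
    have h2 : update (wst k ι s X Y) (k + 4) z (longRs k (Fin.castSucc (Fin.last k))) = s := by
      have := congrFun h1 (Fin.castSucc (Fin.last k))
      rw [(app2_k _ _ _).1] at this
      exact this
    have h3 : update (wst k ι s X Y) (k + 4) z (longRs k (Fin.last (k + 1))) = z := by
      have := congrFun h1 (Fin.last (k + 1))
      rw [(app2_k _ _ _).2] at this
      exact this
    rw [h1, h2, h3, low_app2]
  constructor
  · rintro t σ' ⟨t1, t2, τ, -, h1, h2⟩
    change Iter _ t1 _ _ at h1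
    have key : ∃ s X Y, τ = wst k ι s X Y ∧
        Relation.ReflTransGen (LStep fun a => S a e0) (s0, X0, []) (s, X, Y) := by
      rw [← hself] at h1
      generalize hρ : wst k ι s0 X0 [] = ρ at h1
      have : ∃ s X Y, ρ = wst k ι s X Y ∧
          Relation.ReflTransGen (LStep fun a => S a e0) (s0, X0, []) (s, X, Y) :=
        ⟨s0, X0, [], hρ.symm, .refl⟩
      clear hρ
      induction h1 with
      | nil σ => exact this
      | cons h3 _ ih =>
        obtain ⟨s, X, Y, rfl, h4⟩ := this
        refine ih h2 ?_
        obtain ⟨pr, hpr, h5⟩ := run_altL.1 h3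
        obtain ⟨a, -, rfl⟩ := List.mem_map.1 hpr
        obtain ⟨t3, t4, υ, -, h6, h7⟩ := h5
        obtain ⟨z, h8, rfl⟩ := repl_sound (by omega) (hp a) (hquiet s X Y) h6
        rw [wst_upd_k, run_act] at h7
        obtain ⟨-, X', Y', h9, rfl⟩ := h7
        exact ⟨z, X', Y', rfl, h4.tail ⟨a, (hQ a s X Y z).1 h8, h9⟩⟩
    obtain ⟨s, X, Y, rfl, h4⟩ := key
    have h5 := ((hq _ (hquiet s X Y)).1 _ _ h2).2
    have h6 : s = s1 := by
      have h7 : wst k ι s X Y k = wst k ι s X Y (k + 2) := h5
      rwa [wst_k, wst_other (by omega) (by omega) (by omega), i2] at h7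
    subst h6
    exact ⟨X, Y, h4⟩
  · rintro ⟨X1, Y1, hreach⟩
    set N := size e with hN
    have hgN : g (size e0) ≤ g N := hgm (by omega)
    have hsteps : ∀ c : List Bool × List Bool × List Bool,
        Relation.ReflTransGen (LStep fun a => S a e0) (s0, X0, []) c →
        ∃ n t, (clock c.1 = clock s0 + n) ∧ (c = (s0, X0, []) ∨ clock c.1 ≤ 2 ^ g N) ∧
          c.1.length ≤ g N + N ∧
          t ≤ n * (8 * (g N + N) + TT (N + (g N + N) + g N) + 5) ∧
          Iter (Run O (longStep k p)) t ι (wst k ι c.1 c.2.1 c.2.2) := by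
      intro c hc
      induction hc with
      | refl =>
        refine ⟨0, 0, rfl, Or.inl rfl, ?_, by simp, ?_⟩
        · show s0.length ≤ _
          omega
        · rw [hself]
          exact Iter.nil _
      | @tail c d _ hcd ih =>
        obtain ⟨n, t, h1, h2, h3, h4, h5⟩ := ih
        obtain ⟨a, h6, h7⟩ := hcd
        obtain ⟨s, X, Y⟩ := c
        obtain ⟨s', X', Y'⟩ := d
        simp only at h1 h2 h3 h5 h6 h7 ⊢
        obtain ⟨c1, c2⟩ := hclock _ _ _ _ h6
        have c3 := hbound _ _ _ _ h6
        obtain ⟨t', ht', h8⟩ := repl_complete (cur := k) (by omega) (hp a) (hquiet s X Y)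
          ((hQ a s X Y s').2 h6)
        rw [wst_upd_k] at h8
        have h9 : Run O (longStep k p) (t' + 1) (wst k ι s X Y) (wst k ι s' X' Y') := by
          refine run_altL.2 ⟨_, List.mem_map.2 ⟨a, mem_acts a, rfl⟩, t', 1, _, rfl, h8, ?_⟩
          rw [run_act]
          exact ⟨rfl, X', Y', h7, rfl⟩
        refine ⟨n + 1, t + (t' + 1), by omega, Or.inr (le_trans c2
          (Nat.pow_le_pow_right (by norm_num) hgN)), by omega, ?_, h5.trans (Iter.single h9)⟩
        have h10 : T a (size fun j => update (wst k ι s X Y) (k + 4) s' (longRs k j)) ≤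
            TT (N + (g N + N) + g N) := by
          refine le_trans (hTT a _) (hTTm ?_)
          rw [hargs, size_app, size_app]
          omega
        rw [wst_k] at ht'
        rw [Nat.succ_mul]
        have h11 : 7 * s'.length ≤ 7 * g N := by omega
        omega
    obtain ⟨n, t, h1, h2, h3, h4, h5⟩ := hsteps _ hreach
    simp only at h1 h2 h3 h5
    have hn : n ≤ 2 ^ g N := by
      rcases h2 with h2 | h2
      · obtain ⟨h6, -⟩ := Prod.mk.inj h2
        rw [h6] at h1
        have : n = 0 := by omega
        rw [this]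
        exact Nat.zero_le _
      · omega
    obtain ⟨t', ht', h6⟩ := (hq _ (hquiet s1 X1 Y1)).2 (by
      show wst k ι s1 X1 Y1 k = wst k ι s1 X1 Y1 (k + 2)
      rw [wst_k, wst_other (by omega) (by omega) (by omega), i2])
    refine ⟨t + t', _, ?_, t, t', _, rfl, h5, h6⟩
    have h7 : (size fun j : Fin 2 => wst k ι s1 X1 Y1 ((![k, k + 2] : Fin 2 → ℕ) j)) =
        s1.length + s1.length := by
      unfold size
      rw [Fin.sum_univ_two]
      simp only [Matrix.cons_val_zero, Matrix.cons_val_one]
      rw [wst_k, wst_other (by omega) (by omega) (by omega), i2]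
    have h8 : t' ≤ Tq (s1.length + s1.length) := by rw [← h7]; exact ht'
    have h9 : Tq (s1.length + s1.length) ≤ Tq (N + N + g N) := hmonoq (by omega)
    have h10 : n * (8 * (g N + N) + TT (N + (g N + N) + g N) + 5) ≤
        2 ^ g N * (8 * (g N + N) + TT (N + (g N + N) + g N) + 5) := Nat.mul_le_mul_right _ hn
    show t + t' ≤ 2 ^ g N * (8 * (g N + N) + TT (N + (g N + N) + g N) + 5) + Tq (N + N + g N)
    omega

end Pool.Agent.LibBHN
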