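import Pool.Agent.LibBHN.Mach

/-! Task NX-4: simple machines. -/

namespace Pool.Agent.LibBHN

open Function Pool.Agent.LibNexp

theorem Mach.next_halt {M : Mach} {c : Cfg} {b : Bool} (h : M[c.1]? = some (.halt b)) :
    M.next c = c := by
  obtain ⟨q, x, y⟩ := c
  simp only at h
  simp only [Mach.next, h]

theorem Mach.run_succ (M : Mach) (x : List Bool) (t : ℕ) :
    M.run x (t + 1) = M.next (M.run x t) := by
  simp only [Mach.run, Function.iterate_succ_apply']

/-- After halting nothing changes. -/
theorem Mach.run_halt {M : Mach} {x : List Bool} {t t' : ℕ} {b : Bool} (htt : t ≤ t')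
    (h : M[(M.run x t).1]? = some (.halt b)) : M.run x t' = M.run x t := by
  induction t', htt using Nat.le_induction with
  | base => rfl
  | succ n hn ih =>
    rw [Mach.run_succ, ih, Mach.next_halt h]

theorem id_mem : (fun x => x) ∈ FPTime := by
  refine ⟨[.halt true], 0, fun x => ⟨0, Nat.zero_le _, true, ?_, ?_⟩⟩
  · simp [Mach.run]
  · simp [Mach.run]

/-- The machine reading the whole first stack and remembering the last popped bit. -/
def lastM : Mach :=
  [.pop false 1 2 3, .pop false 1 2 3, .pop false 1 2 4, .halt false, .halt true]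

theorem lastM_iter (x : List Bool) (q : ℕ) (hq : q ≤ 2) :
    (lastM.next)^[x.length] (q, x, []) =
      ((match x.getLast? with
        | none => q
        | some true => 2
        | some false => 1), [], []) := by
  induction x generalizing q with
  | nil => rfl
  | cons b x ih =>
    rw [List.length_cons, Function.iterate_succ_apply]
    have h1 : lastM.next (q, b :: x, []) = (cond b 2 1, x, []) := by
      interval_cases q <;> cases b <;> rfl
    rw [h1, ih _ (by cases b <;> simp)]
    rw [List.getLast?_cons]
    cases hx : x.getLast? with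
    | none => cases b <;> simp
    | some c => cases c <;> simp

theorem last_mem : {x : List Bool | x.getLast? = some true} ∈ PTime := by
  refine ⟨lastM, 2, fun x => ⟨x.length + 1, by nlinarith [Nat.zero_le x.length, sq_nonneg ((x.length : ℤ) - 1)], ?_⟩⟩
  have h := lastM_iter x 0 (by omega)
  have h2 : lastM.run x (x.length + 1) = lastM.next ((match x.getLast? with
        | none => 0
        | some true => 2
        | some false => 1), [], []) := by
    rw [Mach.run_succ, Mach.run, h]
  cases hx : x.getLast? with
  | none =>
    rw [hx] at h2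
    refine ⟨false, ?_, by simp [hx]⟩
    rw [h2]; rfl
  | some c =>
    cases c with
    | false =>
      rw [hx] at h2
      refine ⟨false, ?_, by simp [hx]⟩
      rw [h2]; rfl
    | true =>
      rw [hx] at h2
      refine ⟨true, ?_, by simp [hx]⟩
      rw [h2]; rfl

/-- Exchange the two answers. -/
def Cmd.flip : Cmd → Cmd
  | .halt b => .halt (!b)
  | c => c

theorem next_flip (M : Mach) (c : Cfg) : Mach.next (M.map Cmd.flip) c = M.next c := by
  obtain ⟨q, x, y⟩ := c
  simp only [Mach.next, List.getElem?_map]
  cases h : M[q]? with
  | none => simp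
  | some k =>
    cases k with
    | push r b q' => cases r <;> simp [Cmd.flip]
    | pop r q0 q1 qe => cases r <;> cases x <;> cases y <;> simp [Cmd.flip]
    | halt b => simp [Cmd.flip]

theorem run_flip (M : Mach) (x : List Bool) (t : ℕ) :
    Mach.run (M.map Cmd.flip) x t = M.run x t := by
  have : Mach.next (M.map Cmd.flip) = M.next := funext (next_flip M)
  rw [Mach.run, Mach.run, this]

theorem ptime_compl {L : Lang} (hL : L ∈ PTime) : Lᶜ ∈ PTime := by
  obtain ⟨M, c, h⟩ := hL
  refine ⟨M.map Cmd.flip, c, fun x => ?_⟩
  obtain ⟨t, ht, b, h1, h2⟩ := h x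
  refine ⟨t, ht, !b, ?_, ?_⟩
  · rw [run_flip, List.getElem?_map, h1]; rfl
  · rw [Set.mem_compl_iff, ← h2]
    cases b <;> simp

theorem next_length (M : Mach) (c : Cfg) :
    (M.next c).2.1.length ≤ c.2.1.length + 1 ∧ (M.next c).2.2.length ≤ c.2.2.length + 1 := by
  obtain ⟨q, x, y⟩ := c
  simp only [Mach.next]
  cases h : M[q]? with
  | none => simp
  | some k =>
    cases k with
    | push r b q' => cases r <;> simp
    | pop r q0 q1 qe =>
      cases r <;> cases x <;> cases y <;> simp <;> omega
    | halt b => simp

/-- Lengths grow by at most one per step. -/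
theorem Mach.run_length (M : Mach) (x : List Bool) (t : ℕ) :
    (M.run x t).2.1.length ≤ x.length + t ∧ (M.run x t).2.2.length ≤ t := by
  induction t with
  | zero => simp [Mach.run]
  | succ t ih =>
    rw [Mach.run_succ]
    have := next_length M (M.run x t)
    omega

theorem fp_length {f : List Bool → List Bool} (hf : f ∈ FPTime) :
    ∃ c, ∀ x, (f x).length ≤ x.length ^ c + c := by
  obtain ⟨M, c, h⟩ := hf
  refine ⟨c + 2, fun x => ?_⟩
  obtain ⟨t, ht, b, _, h2⟩ := h x
  rw [← h2]
  have h3 := (Mach.run_length M x t).1
  have h4 : x.length + x.length ^ c ≤ x.length ^ (c + 2) + 2 := by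
    rcases Nat.lt_or_ge x.length 2 with hx | hx
    · interval_cases hxl : x.length
      · rcases Nat.eq_zero_or_pos c with rfl | hc
        · simp
        · rw [zero_pow (by omega), zero_pow (by omega)]; omega
      · simp
    · have e1 : x.length ^ (c + 2) = x.length ^ c * (x.length * x.length) := by ring
      have e2 : 1 ≤ x.length ^ c := Nat.one_le_pow _ _ (by omega)
      rw [e1]
      generalize x.length ^ c = P at *
      generalize x.length = N at *
      have e3 : P * (N * 2) ≤ P * (N * N) := Nat.mul_le_mul_left _ (Nat.mul_le_mul_left _ hx)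
      have e4 : 1 * N ≤ P * N := Nat.mul_le_mul_right _ e2
      have e5 : P * 2 ≤ P * N := Nat.mul_le_mul_left _ hx
      have e6 : P * (N * 2) = P * N + P * N := by ring
      omega
  omega

end Pool.Agent.LibBHN
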