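import Pool.Agent.LibBHN.All
import Pool.Agent.LibBHN.Long
import Pool.Agent.LibBHN.MachBasic
import Pool.Agent.LibNexp.Values

/-! A universal relation for polynomial time. -/

namespace Pool.Agent.LibBHN

open Function Pool.Agent.LibNexp

variable {O : List Bool → Bool}

/-- Two existential quantifiers. -/
theorem nexp_ex2 {k : ℕ} {R : (Fin k → List Bool) → List Bool → List Bool → Prop}
    (h : NEXP O fun e : Fin (k + 2) → List Bool =>
      R (low (Nat.le_add_right k 2) e) (e (Fin.castSucc (Fin.last k))) (e (Fin.last (k + 1))))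
    {g : ℕ → ℕ} (hg : PolyB g) (hgm : Monotone g)
    (hb : ∀ e a b, R e a b → a.length ≤ g (size e) ∧ b.length ≤ g (size e)) :
    NEXP O fun e : Fin k → List Bool => ∃ a b, R e a b := by
  refine nexp_ex (R := fun e a => ∃ b, R e a b) ?_ hg ?_
  · refine nexp_ex (R := fun (e : Fin (k + 1) → List Bool) b =>
      R (low (Nat.le_add_right k 1) e) (e (Fin.last k)) b) h hg ?_
    intro e z hz
    refine (hb _ _ _ hz).2.trans (hgm ?_)
    have h1 : app (low (Nat.le_add_right k 1) e) (e (Fin.last k)) = e := by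
      funext j
      unfold app low
      refine Fin.lastCases ?_ (fun j => ?_) j
      · rw [Fin.snoc_last]
      · rw [Fin.snoc_castSucc]
        congr 1
    conv_rhs => rw [← h1]
    rw [size_app]
    omega
  · rintro e a ⟨b, hab⟩
    exact (hb _ _ _ hab).1

/-- The tag of an action. -/
def tag : Act → List Bool
  | .push r b => [false, false, r, b]
  | .pop r b => [false, true, r, b]
  | .empty r => [true, false, r]

/-- The tag of a halting command. -/
def tagH (b : Bool) : List Bool := [true, true, b]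

theorem tag_injective : Injective tag := by
  intro a a' h
  rcases a with ⟨r, b⟩ | ⟨r, b⟩ | r <;> rcases a' with ⟨r', b'⟩ | ⟨r', b'⟩ | r' <;>
    simp [tag] at h <;> simp [h]

theorem tag_ne_tagH (a : Act) (b : Bool) : tag a ≠ tagH b := by
  rcases a with ⟨r, b'⟩ | ⟨r, b'⟩ | r <;> simp [tag, tagH]

theorem tagH_injective : Injective tagH := by
  intro b b' h
  simpa [tagH] using h

/-- Lists of strings as strings. -/
def encL : List (List Bool) → List Bool
  | [] => []
  | t :: l => pair t (encL l)

/-- The tail of a coded list. -/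
def Tl (a b : List Bool) : Prop := ∃ h, a = pair h b

/-- Membership in a coded list. -/
def Mem (t w : List Bool) : Prop := ∃ w' w'', Relation.ReflTransGen Tl w w' ∧ w' = pair t w''

theorem tl_length {a b : List Bool} (h : Tl a b) : b.length < a.length := by
  obtain ⟨h, rfl⟩ := h
  rw [length_pair]
  omega

theorem tls_length {a b : List Bool} (h : Relation.ReflTransGen Tl a b) :
    b.length ≤ a.length := by
  induction h with
  | refl => exact le_rfl
  | tail _ h ih => exact (tl_length h).le.trans ih

theorem pair_ne_nil (x y : List Bool) : pair x y ≠ [] := by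
  intro h
  have := congrArg List.length h
  rw [length_pair] at this
  simp at this

theorem mem_encL {t : List Bool} {l : List (List Bool)} : Mem t (encL l) ↔ t ∈ l := by
  induction l with
  | nil =>
    constructor
    · rintro ⟨w', w'', h, rfl⟩
      have := tls_length h
      rw [length_pair] at this
      simp [encL] at this
    · intro h; cases h
  | cons s l ih =>
    constructor
    · rintro ⟨w', w'', h, rfl⟩
      rcases Relation.ReflTransGen.cases_head h with h1 | ⟨c, ⟨h, h2⟩, h3⟩
      · simp only [encL] at h1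
        rw [(pair_injective h1).1]
        simp
      · simp only [encL] at h2
        rw [(pair_injective h2).2] at ih
        exact List.mem_cons_of_mem _ (ih.1 ⟨_, w'', h3, rfl⟩)
    · intro h
      rcases List.mem_cons.1 h with rfl | h
      · exact ⟨_, encL l, .refl, rfl⟩
      · obtain ⟨w', w'', h1, h2⟩ := ih.2 h
        exact ⟨w', w'', .head ⟨s, rfl⟩ h1, h2⟩

theorem mem_length {t w : List Bool} (h : Mem t w) : 2 * t.length + 2 ≤ w.length := by
  obtain ⟨w', w'', h1, rfl⟩ := h
  have := tls_length h1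
  rw [length_pair] at this
  omega

theorem nexp_mem' {k : ℕ} (i j : Fin k) : NEXP O fun e : Fin k → List Bool => Mem (e i) (e j) := by
  have h0 : NEXP O fun e : Fin 3 → List Bool => ∃ h, e 1 = pair h (e 2) := by
    refine nexp_ex (R := fun (e : Fin 3 → List Bool) h => e 1 = pair h (e 2)) ?_
      (g := fun n => n) PolyB.id ?_
    · refine ((nexp_pairRel (O := O)).reindex ![3, 2, 1]).congr fun e => ?_
      simp only [Matrix.cons_val_zero, Matrix.cons_val_one, Matrix.cons_val]
      rfl
    · rintro e z h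
      have := len_le_size e 1
      rw [h, length_pair] at this
      show _ ≤ size e
      omega
  have h1 : NEXP O fun e : Fin 3 → List Bool => Tl (e 1) (e 2) ∧ (e 2).length ≤ (e 0).length := by
    refine h0.and (((nexp_le (O := O)).reindex ![2, 0]).congr fun e => ?_)
    simp
  have h2 := nexp_reach (k := 1) (S := fun e a b => Tl a b ∧ b.length ≤ (e 0).length) h1
    (g := fun n => n) PolyB.id monotone_id (by
      rintro e a b ⟨-, h⟩
      exact h.trans (len_le_size e 0))
  have h3 : NEXP O fun e : Fin 4 → List Bool =>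
      Relation.ReflTransGen (fun a b => Tl a b ∧ b.length ≤ (e 1).length) (e 1) (e 2) ∧
        e 2 = pair (e 0) (e 3) := by
    refine ((h2.reindex ![1, 1, 2]).congr fun e => Iff.rfl).and
      (((nexp_pairRel (O := O)).reindex ![0, 3, 2]).congr fun e => ?_)
    simp
  have h4 : NEXP O fun e : Fin 2 → List Bool => ∃ w' w'',
      Relation.ReflTransGen (fun a b => Tl a b ∧ b.length ≤ (e 1).length) (e 1) w' ∧
        w' = pair (e 0) w'' := by
    refine nexp_ex2 (R := fun (e : Fin 2 → List Bool) w' w'' =>
      Relation.ReflTransGen (fun a b => Tl a b ∧ b.length ≤ (e 1).length) (e 1) w' ∧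
        w' = pair (e 0) w'') h3 (g := fun n => n) PolyB.id monotone_id ?_
    rintro e a b ⟨h5, h6⟩
    have h7 : a.length ≤ (e 1).length := by
      rcases Relation.ReflTransGen.cases_tail h5 with h8 | ⟨c, -, h8⟩
      · rw [h8]
      · exact h8.2
    have h8 := len_le_size e 1
    have h9 := congrArg List.length h6
    rw [length_pair] at h9
    exact ⟨by show _ ≤ size e; omega, by show _ ≤ size e; omega⟩
  refine (h4.reindex ![i, j]).congr fun e => ?_
  show (∃ w' w'', Relation.ReflTransGen (fun a b => Tl a b ∧ b.length ≤ (e j).length) (e j) w' ∧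
        w' = pair (e i) w'') ↔ _
  constructor
  · rintro ⟨w', w'', h5, h6⟩
    refine ⟨w', w'', ?_, h6⟩
    clear h6
    induction h5 with
    | refl => exact .refl
    | tail _ h8 ih => exact ih.tail h8.1
  · rintro ⟨w', w'', h5, h6⟩
    refine ⟨w', w'', ?_, h6⟩
    clear h6
    induction h5 with
    | refl => exact .refl
    | @tail b c h7 h8 ih =>
      exact ih.tail ⟨h8, (tl_length h8).le.trans (tls_length h7)⟩

/-- The control of the universal walk: the parameters are the coded list of transitions and a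
bound on the length. -/
def Ctl (a : Act) (e : Fin 2 → List Bool) (s s' : List Bool) : Prop :=
  (∃ q c, s = pair q c ∧ ∃ q' c', s' = pair q' c' ∧ Suc c c' ∧
    Mem (pair (tag a) (pair q q')) (e 0)) ∧ s'.length ≤ (e 1).length

theorem nexp_ctl (a : Act) : NEXP O fun e : Fin 4 → List Bool =>
    Ctl a (low (Nat.le_add_right 2 2) e) (e 2) (e 3) := by
  -- the entry
  have h1 : NEXP O fun e : Fin 3 → List Bool =>
      ∃ t p, t = pair (tag a) p ∧ p = pair (e 0) (e 1) ∧ Mem t (e 2) := by
    have h2 : NEXP O fun e : Fin 5 → List Bool => ∃ u, u = tag a ∧ e 3 = pair u (e 4) := by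
      refine nexp_ex (R := fun (e : Fin 5 → List Bool) u => u = tag a ∧ e 3 = pair u (e 4)) ?_
        (g := fun _ => (tag a).length) (PolyB.const _) ?_
      · refine (nexp_const (tag a) (k := 6) 5).and
          (((nexp_pairRel (O := O)).reindex ![5, 4, 3]).congr fun e => ?_)
        simp only [Matrix.cons_val_zero, Matrix.cons_val_one, Matrix.cons_val]
        rfl
      · rintro e z ⟨rfl, -⟩
        exact le_rfl
    have h3 : NEXP O fun e : Fin 5 → List Bool =>
        e 3 = pair (tag a) (e 4) ∧ e 4 = pair (e 0) (e 1) ∧ Mem (e 3) (e 2) := by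
      refine (h2.congr fun e => ?_).and ((((nexp_pairRel (O := O)).reindex ![0, 1, 4]).congr
        fun e => ?_).and (nexp_mem' 3 2))
      · simp
      · simp
    refine nexp_ex2 (R := fun (e : Fin 3 → List Bool) t p =>
      t = pair (tag a) p ∧ p = pair (e 0) (e 1) ∧ Mem t (e 2)) h3 (g := fun n => n) PolyB.id
      monotone_id ?_
    rintro e t p ⟨h4, -, h5⟩
    have h6 := mem_length h5
    have h7 := len_le_size e 2
    have h8 := congrArg List.length h4
    rw [length_pair] at h8
    exact ⟨by show _ ≤ size e; omega, by show _ ≤ size e; omega⟩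
  have h2 : NEXP O fun e : Fin 8 → List Bool =>
      (e 2 = pair (e 4) (e 5) ∧ e 3 = pair (e 6) (e 7)) ∧ Suc (e 5) (e 7) ∧
        ∃ t p, t = pair (tag a) p ∧ p = pair (e 4) (e 6) ∧ Mem t (e 0) := by
    refine ((((nexp_pairRel (O := O)).reindex ![4, 5, 2]).congr fun e => ?_).and
      (((nexp_pairRel (O := O)).reindex ![6, 7, 3]).congr fun e => ?_)).and
      ((nexp_suc 5 7).and ((h1.reindex ![4, 6, 0]).congr fun e => ?_))
    · simp
    · simp
    · simp
  have h3 : NEXP O fun e : Fin 6 → List Bool => ∃ q' c',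
      (e 2 = pair (e 4) (e 5) ∧ e 3 = pair q' c') ∧ Suc (e 5) c' ∧
        ∃ t p, t = pair (tag a) p ∧ p = pair (e 4) q' ∧ Mem t (e 0) := by
    refine nexp_ex2 (R := fun (e : Fin 6 → List Bool) q' c' =>
      (e 2 = pair (e 4) (e 5) ∧ e 3 = pair q' c') ∧ Suc (e 5) c' ∧
        ∃ t p, t = pair (tag a) p ∧ p = pair (e 4) q' ∧ Mem t (e 0)) h2 (g := fun n => n)
      PolyB.id monotone_id ?_
    rintro e t p ⟨⟨-, h4⟩, -⟩
    have h7 := len_le_size e 3
    rw [h4, length_pair] at h7
    exact ⟨by show _ ≤ size e; omega, by show _ ≤ size e; omega⟩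
  have h4 : NEXP O fun e : Fin 4 → List Bool => ∃ q c, ∃ q' c',
      (e 2 = pair q c ∧ e 3 = pair q' c') ∧ Suc c c' ∧
        ∃ t p, t = pair (tag a) p ∧ p = pair q q' ∧ Mem t (e 0) := by
    refine nexp_ex2 (R := fun (e : Fin 4 → List Bool) q c => ∃ q' c',
      (e 2 = pair q c ∧ e 3 = pair q' c') ∧ Suc c c' ∧
        ∃ t p, t = pair (tag a) p ∧ p = pair q q' ∧ Mem t (e 0)) h3 (g := fun n => n)
      PolyB.id monotone_id ?_
    rintro e t p ⟨q', c', ⟨h4, -⟩, -⟩
    have h7 := len_le_size e 2
    rw [h4, length_pair] at h7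
    exact ⟨by show _ ≤ size e; omega, by show _ ≤ size e; omega⟩
  have h5 : NEXP O fun e : Fin 4 → List Bool => (e 3).length ≤ (e 1).length := by
    refine ((nexp_le (O := O)).reindex ![3, 1]).congr fun e => ?_
    simp
  refine (h4.and h5).congr fun e => ?_
  · unfold Ctl
    show (∃ q c, ∃ q' c', (e 2 = pair q c ∧ e 3 = pair q' c') ∧ Suc c c' ∧
        ∃ t p, t = pair (tag a) p ∧ p = pair q q' ∧ Mem t (e 0)) ∧ _ ↔
      (∃ q c, e 2 = pair q c ∧ ∃ q' c', e 3 = pair q' c' ∧ Suc c c' ∧
        Mem (pair (tag a) (pair q q')) (e 0)) ∧ (e 3).length ≤ (e 1).length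
    refine and_congr_left fun _ => ?_
    constructor
    · rintro ⟨q, c, q', c', ⟨h5, h6⟩, h7, t, p, rfl, rfl, h8⟩
      exact ⟨q, c, h5, q', c', h6, h7, h8⟩
    · rintro ⟨q, c, h5, q', c', h6, h7, h8⟩
      exact ⟨q, c, q', c', ⟨h5, h6⟩, h7, _, _, rfl, rfl, h8⟩

open Classical in
/-- The counter in a control string. -/
noncomputable def clk (s : List Bool) : ℕ :=
  if h : ∃ q c, s = pair q c then val h.choose_spec.choose else 0

theorem clk_pair (q c : List Bool) : clk (pair q c) = val c := by
  have h : ∃ q' c', pair q c = pair q' c' := ⟨q, c, rfl⟩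
  unfold clk
  rw [dif_pos h]
  have := h.choose_spec.choose_spec
  rw [← (pair_injective this).2]

theorem ctl_clock (a : Act) (e : Fin 2 → List Bool) (s s' : List Bool) (h : Ctl a e s s') :
    clk s' = clk s + 1 ∧ clk s' ≤ 2 ^ size e := by
  obtain ⟨⟨q, c, rfl, q', c', rfl, h1, -⟩, h2⟩ := h
  rw [clk_pair, clk_pair]
  refine ⟨h1.2, ?_⟩
  have h3 := val_lt c'
  rw [length_pair] at h2
  have h4 := len_le_size e 1
  exact h3.le.trans (Nat.pow_le_pow_right (by norm_num) (by omega))

/-- The universal computation relation. -/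
def Comp (prog u s0 y s1 : List Bool) : Prop :=
  ∃ X Y, Relation.ReflTransGen (LStep fun a => Ctl a ![prog, u]) (s0, y, []) (s1, X, Y)

theorem nexp_comp : NEXP O fun e : Fin 5 → List Bool => Comp (e 0) (e 1) (e 2) (e 3) (e 4) := by
  have h1 := nexp_long (O := O) (k := 2) (S := Ctl) (fun a => nexp_ctl a) (g := fun n => n)
    PolyB.id monotone_id (fun a e s s' h => h.2.trans (len_le_size e 1)) clk ctl_clock
  refine h1.congr fun e => ?_
  unfold Comp
  have : low (Nat.le_add_right 2 3) e = ![e 0, e 1] := by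
    funext j
    fin_cases j <;> rfl
  rw [this]
  exact Iff.rfl

/-- The final condition. -/
def Halts (b : Bool) (prog s : List Bool) : Prop :=
  ∃ q c, s = pair q c ∧ Mem (pair (tagH b) q) prog

theorem nexp_halts (b : Bool) : NEXP O fun e : Fin 2 → List Bool => Halts b (e 0) (e 1) := by
  have h1 : NEXP O fun e : Fin 2 → List Bool => ∃ t u, (u = tagH b ∧ t = pair u (e 0)) ∧
      Mem t (e 1) := by
    refine nexp_ex2 (R := fun (e : Fin 2 → List Bool) t u => (u = tagH b ∧ t = pair u (e 0)) ∧
      Mem t (e 1)) (((nexp_const (tagH b) (k := 4) 3).and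
        (((nexp_pairRel (O := O)).reindex ![3, 0, 2]).congr fun e => ?_)).and (nexp_mem' 2 1))
      (g := fun n => n) PolyB.id monotone_id ?_
    · simp only [Matrix.cons_val_zero, Matrix.cons_val_one, Matrix.cons_val]
      rfl
    · rintro e t u ⟨⟨-, h2⟩, h3⟩
      have h4 := mem_length h3
      have h5 := len_le_size e 1
      have h6 := congrArg List.length h2
      rw [length_pair] at h6
      exact ⟨by show _ ≤ size e; omega, by show _ ≤ size e; omega⟩
  have h2 : NEXP O fun e : Fin 2 → List Bool => ∃ q c, e 1 = pair q c ∧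
      ∃ t u, (u = tagH b ∧ t = pair u q) ∧ Mem t (e 0) := by
    refine nexp_ex2 (R := fun (e : Fin 2 → List Bool) q c => e 1 = pair q c ∧
      ∃ t u, (u = tagH b ∧ t = pair u q) ∧ Mem t (e 0))
      ((((nexp_pairRel (O := O)).reindex ![2, 3, 1]).congr fun e => ?_).and
        ((h1.reindex ![2, 0]).congr fun e => ?_)) (g := fun n => n) PolyB.id monotone_id ?_
    · simp only [Matrix.cons_val_zero, Matrix.cons_val_one, Matrix.cons_val]
      rfl
    · simp only [Matrix.cons_val_zero, Matrix.cons_val_one]
      rfl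
    · rintro e t u ⟨h2, -⟩
      have h5 := len_le_size e 1
      rw [h2, length_pair] at h5
      exact ⟨by show _ ≤ size e; omega, by show _ ≤ size e; omega⟩
  refine h2.congr fun e => ?_
  constructor
  · rintro ⟨q, c, h3, t, u, ⟨rfl, rfl⟩, h4⟩
    exact ⟨q, c, h3, h4⟩
  · rintro ⟨q, c, h3, h4⟩
    exact ⟨q, c, h3, _, _, ⟨rfl, rfl⟩, h4⟩

/-- The first control string: state `0`, counter `0` of length `|pad| + |y|`. -/
def Start (pad y s : List Bool) : Prop :=
  ∃ z q, (z = pad.flatMap (fun _ => [false]) ++ [] ++ y.flatMap (fun _ => [false]) ∧ q = []) ∧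
    s = pair q z

theorem nexp_startU : NEXP O fun e : Fin 3 → List Bool => Start (e 0) (e 1) (e 2) := by
  refine nexp_ex2 (R := fun (e : Fin 3 → List Bool) z q =>
    (z = (e 0).flatMap (fun _ => [false]) ++ [] ++ (e 1).flatMap (fun _ => [false]) ∧ q = []) ∧
    e 2 = pair q z) (((((nexp_subst (O := O) (fun _ => [false]) (fun _ => [false]) []).reindex
      ![0, 1, 3]).congr fun e => ?_).and (nexp_const [] (k := 5) 4)).and
      (((nexp_pairRel (O := O)).reindex ![4, 3, 2]).congr fun e => ?_))
    (g := fun n => n) PolyB.id monotone_id ?_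
  · simp only [Matrix.cons_val_zero, Matrix.cons_val_one, Matrix.cons_val]
    rfl
  · simp only [Matrix.cons_val_zero, Matrix.cons_val_one, Matrix.cons_val]
    rfl
  · rintro e z q ⟨-, h2⟩
    have h5 := len_le_size e 2
    rw [h2, length_pair] at h5
    exact ⟨by show _ ≤ size e; omega, by show _ ≤ size e; omega⟩

/-- The universal relation. -/
def UR (b : Bool) (i y : List Bool) : Prop :=
  ∃ prog pad, i = pair prog pad ∧ ∃ s0 s1, (Start pad y s0 ∧ Halts b prog s1) ∧
    ∃ u, u = pair i y ∧ s1.length ≤ u.length ∧ Comp prog u s0 y s1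

theorem nexp_ur (b : Bool) : NEXP O fun e : Fin 2 → List Bool => UR b (e 0) (e 1) := by
  -- variables: i, y, prog, pad, s0, s1, u
  have h1 : NEXP O fun e : Fin 7 → List Bool => e 6 = pair (e 0) (e 1) ∧
      (e 5).length ≤ (e 6).length ∧ Comp (e 2) (e 6) (e 4) (e 1) (e 5) := by
    refine (((nexp_pairRel (O := O)).reindex ![0, 1, 6]).congr fun e => ?_).and
      ((((nexp_le (O := O)).reindex ![5, 6]).congr fun e => ?_).and
        ((nexp_comp.reindex ![2, 6, 4, 1, 5]).congr fun e => ?_))
    · simp
    · simp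
    · simp
  have h2 : NEXP O fun e : Fin 6 → List Bool => ∃ u, u = pair (e 0) (e 1) ∧
      (e 5).length ≤ u.length ∧ Comp (e 2) u (e 4) (e 1) (e 5) := by
    refine nexp_ex (R := fun (e : Fin 6 → List Bool) u => u = pair (e 0) (e 1) ∧
      (e 5).length ≤ u.length ∧ Comp (e 2) u (e 4) (e 1) (e 5)) h1
      (g := fun n => 3 * n + 2) (((PolyB.const 3).mul PolyB.id).add (PolyB.const 2)) ?_
    rintro e z ⟨rfl, -⟩
    rw [length_pair]
    have := len_le_size e 0
    have := len_le_size e 1
    show _ ≤ 3 * size e + 2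
    omega
  have h3 : NEXP O fun e : Fin 4 → List Bool => ∃ s0 s1, (Start (e 3) (e 1) s0 ∧
      Halts b (e 2) s1) ∧ ∃ u, u = pair (e 0) (e 1) ∧ s1.length ≤ u.length ∧
        Comp (e 2) u s0 (e 1) s1 := by
    refine nexp_ex2 (R := fun (e : Fin 4 → List Bool) s0 s1 => (Start (e 3) (e 1) s0 ∧
      Halts b (e 2) s1) ∧ ∃ u, u = pair (e 0) (e 1) ∧ s1.length ≤ u.length ∧
        Comp (e 2) u s0 (e 1) s1)
      ((((nexp_startU.reindex ![3, 1, 4]).congr fun e => ?_).and
        (((nexp_halts b).reindex ![2, 5]).congr fun e => ?_)).and (h2.congr fun e => Iff.rfl))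
      (g := fun n => 3 * n + 2) (((PolyB.const 3).mul PolyB.id).add (PolyB.const 2))
      (fun m n h => by simp only; omega) ?_
    · simp only [Matrix.cons_val_zero, Matrix.cons_val_one, Matrix.cons_val]
      rfl
    · simp only [Matrix.cons_val_zero, Matrix.cons_val_one, Matrix.cons_val]
      rfl
    · rintro e s0 s1 ⟨⟨⟨z, q, ⟨rfl, rfl⟩, rfl⟩, -⟩, u, rfl, h4, -⟩
      have a0 := len_le_size e 0
      have a1 := len_le_size e 1
      have a2 := len_le_size e 2
      have a3 := len_le_size e 3
      have hf : ∀ x : List Bool, (x.flatMap fun _ => [false]).length = x.length := by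
        intro x; simp
      rw [length_pair] at h4
      constructor
      · rw [length_pair]
        simp only [List.length_append, hf, List.length_nil]
        show _ ≤ 3 * size e + 2
        omega
      · show _ ≤ 3 * size e + 2
        omega
  refine nexp_ex2 (R := fun (e : Fin 2 → List Bool) prog pad => e 0 = pair prog pad ∧
    ∃ s0 s1, (Start pad (e 1) s0 ∧ Halts b prog s1) ∧ ∃ u, u = pair (e 0) (e 1) ∧
      s1.length ≤ u.length ∧ Comp prog u s0 (e 1) s1)
    ((((nexp_pairRel (O := O)).reindex ![2, 3, 0]).congr fun e => ?_).and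
      (h3.congr fun e => Iff.rfl)) (g := fun n => n) PolyB.id monotone_id ?_
  · simp only [Matrix.cons_val_zero, Matrix.cons_val_one, Matrix.cons_val]
    rfl
  · rintro e t u ⟨h2, -⟩
    have h5 := len_le_size e 0
    rw [h2, length_pair] at h5
    exact ⟨by show _ ≤ size e; omega, by show _ ≤ size e; omega⟩

/-! ### Machines as lists of transitions -/

/-- Unary numbers. -/
def un (q : ℕ) : List Bool := List.replicate q true

theorem un_injective : Injective un := by
  intro a b h
  simpa [un] using congrArg List.length h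

/-- The transition of the command. -/
def ent (a : Act) (q q' : ℕ) : List Bool := pair (tag a) (pair (un q) (un q'))

/-- The entry of a halting command. -/
def hent (b : Bool) (q : ℕ) : List Bool := pair (tagH b) (un q)

/-- The entries of a command. -/
def cmdEnt (q : ℕ) : Cmd → List (List Bool)
  | .push r b q' => [ent (.push r b) q q']
  | .pop r q0 q1 qe => [ent (.pop r false) q q0, ent (.pop r true) q q1, ent (.empty r) q qe]
  | .halt b => [hent b q]

/-- The entries of a machine, the first state being `q`. -/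
def entFrom (q : ℕ) : List Cmd → List (List Bool)
  | [] => []
  | c :: M => cmdEnt q c ++ entFrom (q + 1) M

theorem mem_entFrom {t : List Bool} {q : ℕ} {M : List Cmd} :
    t ∈ entFrom q M ↔ ∃ i c, M[i]? = some c ∧ t ∈ cmdEnt (q + i) c := by
  induction M generalizing q with
  | nil => simp [entFrom]
  | cons c M ih =>
    rw [entFrom, List.mem_append, ih]
    constructor
    · rintro (h | ⟨i, d, h1, h2⟩)
      · exact ⟨0, c, rfl, h⟩
      · exact ⟨i + 1, d, by simpa using h1, by
          rw [show q + (i + 1) = q + 1 + i by ring]; exact h2⟩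
    · rintro ⟨i, d, h1, h2⟩
      cases i with
      | zero =>
        simp only [List.getElem?_cons_zero, Option.some.injEq] at h1
        subst h1
        exact Or.inl h2
      | succ i =>
        right
        exact ⟨i, d, by simpa using h1, by
          rw [show q + 1 + i = q + (i + 1) by ring]; exact h2⟩

/-- The transitions of a machine. -/
def Trans (M : Mach) (a : Act) (q q' : ℕ) : Prop :=
  match M[q]? with
  | some (.push r b q1) => a = .push r b ∧ q' = q1
  | some (.pop r q0 q1 qe) => (a = .pop r false ∧ q' = q0) ∨ (a = .pop r true ∧ q' = q1) ∨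
      (a = .empty r ∧ q' = qe)
  | _ => False

theorem mem_trans {M : Mach} {a : Act} {s s' : List Bool} :
    Mem (pair (tag a) (pair s s')) (encL (entFrom 0 M)) ↔
      ∃ q q', s = un q ∧ s' = un q' ∧ Trans M a q q' := by
  rw [mem_encL, mem_entFrom]
  have key : ∀ (a' : Act) (q q' : ℕ), pair (tag a) (pair s s') = ent a' q q' →
      a = a' ∧ s = un q ∧ s' = un q' := by
    intro a' q q' h
    obtain ⟨h1, h2⟩ := pair_injective h
    obtain ⟨h3, h4⟩ := pair_injective h2
    exact ⟨tag_injective h1, h3, h4⟩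
  constructor
  · rintro ⟨i, c, h1, h2⟩
    rw [zero_add] at h2
    unfold Trans
    cases c with
    | push r b q' =>
      simp only [cmdEnt, List.mem_singleton] at h2
      obtain ⟨h3, h4, h5⟩ := key _ _ _ h2
      refine ⟨i, q', h4, h5, ?_⟩
      rw [h1]
      exact ⟨h3, rfl⟩
    | pop r q0 q1 qe =>
      simp only [cmdEnt, List.mem_cons, List.not_mem_nil, or_false] at h2
      rcases h2 with h2 | h2 | h2
      · obtain ⟨h3, h4, h5⟩ := key _ _ _ h2
        refine ⟨i, q0, h4, h5, ?_⟩
        rw [h1]
        exact Or.inl ⟨h3, rfl⟩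
      · obtain ⟨h3, h4, h5⟩ := key _ _ _ h2
        refine ⟨i, q1, h4, h5, ?_⟩
        rw [h1]
        exact Or.inr (Or.inl ⟨h3, rfl⟩)
      · obtain ⟨h3, h4, h5⟩ := key _ _ _ h2
        refine ⟨i, qe, h4, h5, ?_⟩
        rw [h1]
        exact Or.inr (Or.inr ⟨h3, rfl⟩)
    | halt b =>
      simp only [cmdEnt, List.mem_singleton, hent] at h2
      exact absurd (pair_injective h2).1 (tag_ne_tagH _ _)
  · rintro ⟨q, q', rfl, rfl, h⟩
    unfold Trans at h
    refine ⟨q, ?_⟩
    rw [zero_add]
    split at h
    · rename_i r b q1 h1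
      obtain ⟨rfl, rfl⟩ := h
      exact ⟨_, h1, by simp [cmdEnt, ent]⟩
    · rename_i r q0 q1 qe h1
      refine ⟨_, h1, ?_⟩
      rcases h with ⟨rfl, rfl⟩ | ⟨rfl, rfl⟩ | ⟨rfl, rfl⟩
      · simp [cmdEnt, ent]
      · simp [cmdEnt, ent]
      · simp [cmdEnt, ent]
    · exact h.elim

theorem mem_halt {M : Mach} {b : Bool} {s : List Bool} :
    Mem (pair (tagH b) s) (encL (entFrom 0 M)) ↔
      ∃ q, s = un q ∧ M[q]? = some (.halt b) := by
  rw [mem_encL, mem_entFrom]
  have key : ∀ (a' : Act) (q q' : ℕ), pair (tagH b) s ≠ ent a' q q' := by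
    intro a' q q' h
    exact tag_ne_tagH _ _ (pair_injective h).1.symm
  constructor
  · rintro ⟨i, c, h1, h2⟩
    rw [zero_add] at h2
    cases c with
    | push r b' q' =>
      simp only [cmdEnt, List.mem_singleton] at h2
      exact absurd h2 (key _ _ _)
    | pop r q0 q1 qe =>
      simp only [cmdEnt, List.mem_cons, List.not_mem_nil, or_false] at h2
      rcases h2 with h2 | h2 | h2
      · exact absurd h2 (key _ _ _)
      · exact absurd h2 (key _ _ _)
      · exact absurd h2 (key _ _ _)
    | halt b' =>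
      simp only [cmdEnt, List.mem_singleton, hent] at h2
      obtain ⟨h3, h4⟩ := pair_injective h2
      rw [tagH_injective h3]
      exact ⟨i, h4, h1⟩
  · rintro ⟨q, rfl, h1⟩
    exact ⟨q, _, h1, by rw [zero_add]; simp [cmdEnt, hent]⟩

theorem trans_next {M : Mach} {a : Act} {q q' : ℕ} {c c' : List Bool × List Bool}
    (h : Trans M a q q') (h' : a.rel c c') : M.next (q, c) = (q', c') := by
  obtain ⟨X, Y⟩ := c
  obtain ⟨X', Y'⟩ := c'
  unfold Trans at h
  split at h
  · rename_i r b q1 h1
    obtain ⟨rfl, rfl⟩ := h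
    cases r
    · simp only [Act.rel] at h'
      simp [Mach.next, h1, h']
    · simp only [Act.rel] at h'
      simp [Mach.next, h1, h']
  · rename_i r q0 q1 qe h1
    rcases h with ⟨rfl, rfl⟩ | ⟨rfl, rfl⟩ | ⟨rfl, rfl⟩
    · cases r
      · simp only [Act.rel, Prod.mk.injEq] at h'
        obtain ⟨rfl, rfl⟩ := h'
        simp [Mach.next, h1]
      · simp only [Act.rel, Prod.mk.injEq] at h'
        obtain ⟨rfl, rfl⟩ := h'
        simp [Mach.next, h1]
    · cases r
      · simp only [Act.rel, Prod.mk.injEq] at h'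
        obtain ⟨rfl, rfl⟩ := h'
        simp [Mach.next, h1]
      · simp only [Act.rel, Prod.mk.injEq] at h'
        obtain ⟨rfl, rfl⟩ := h'
        simp [Mach.next, h1]
    · cases r
      · simp only [Act.rel, Prod.mk.injEq] at h'
        obtain ⟨rfl, rfl, rfl⟩ := h'
        simp [Mach.next, h1]
      · simp only [Act.rel, Prod.mk.injEq] at h'
        obtain ⟨rfl, rfl, rfl⟩ := h'
        simp [Mach.next, h1]
  · exact h.elim

/-- A configuration that is not final makes a transition. -/
theorem exists_trans {M : Mach} {c : Cfg} (h1 : M[c.1]? ≠ none)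
    (h2 : ∀ b, M[c.1]? ≠ some (.halt b)) :
    ∃ a, Trans M a c.1 (M.next c).1 ∧ a.rel c.2 (M.next c).2 := by
  obtain ⟨q, X, Y⟩ := c
  simp only at h1 h2
  unfold Trans
  cases h : M[q]? with
  | none => exact absurd h h1
  | some d =>
    cases d with
    | halt b => exact absurd h (h2 b)
    | push r b q1 =>
      refine ⟨.push r b, ?_⟩
      cases r <;> simp [Mach.next, h, Act.rel]
    | pop r q0 q1 qe =>
      cases r
      · cases X with
        | nil => exact ⟨.empty false, by simp [Mach.next, h, Act.rel]⟩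
        | cons b X =>
          refine ⟨.pop false b, ?_⟩
          cases b <;> simp [Mach.next, h, Act.rel]
      · cases Y with
        | nil => exact ⟨.empty true, by simp [Mach.next, h, Act.rel]⟩
        | cons b Y =>
          refine ⟨.pop true b, ?_⟩
          cases b <;> simp [Mach.next, h, Act.rel]

theorem path_sound {M : Mach} {u z y : List Bool} (hz : val z = 0)
    {d : List Bool × List Bool × List Bool}
    (h : Relation.ReflTransGen (LStep fun a => Ctl a ![encL (entFrom 0 M), u])
      (pair [] z, y, []) d) :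
    ∃ n c, d.1 = pair (un (M.run y n).1) c ∧ d.2 = (M.run y n).2 ∧ val c = n ∧
      c.length = z.length := by
  induction h with
  | refl => exact ⟨0, z, rfl, rfl, hz, rfl⟩
  | @tail d d' _ hstep ih =>
    obtain ⟨n, c, h1, h2, h3, h4⟩ := ih
    obtain ⟨a, ⟨⟨q, c1, h5, q', c', h6, h7, h8⟩, -⟩, h9⟩ := hstep
    rw [h1] at h5
    obtain ⟨rfl, rfl⟩ := pair_injective h5
    obtain ⟨m, m', h10, h11, h12⟩ := mem_trans.1 h8
    have h13 := un_injective h10
    subst h13
    rw [h2] at h9
    have h14 := trans_next h12 h9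
    refine ⟨n + 1, c', ?_, ?_, ?_, ?_⟩
    · rw [Mach.run_succ, h6, h11]
      have : M.next (M.run y n) = (m', d'.2) := h14
      rw [this]
    · rw [Mach.run_succ]
      have : M.next (M.run y n) = (m', d'.2) := h14
      rw [this]
    · rw [h7.2, h3]
    · rw [h7.1, h4]

theorem trans_bound {M : Mach} {a : Act} {q q' : ℕ} (h : Trans M a q q') :
    2 * q' + 2 ≤ (encL (entFrom 0 M)).length := by
  have h1 := mem_length (mem_trans.2 ⟨q, q', rfl, rfl, h⟩)
  rw [length_pair, length_pair] at h1
  unfold un at h1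
  rw [List.length_replicate, List.length_replicate] at h1
  omega

theorem path_complete {M : Mach} {u z y : List Bool} (hz : val z = 0)
    (hu : (encL (entFrom 0 M)).length + z.length + 2 ≤ u.length) {n : ℕ}
    (hn : n < 2 ^ z.length)
    (hact : ∀ m < n, M[(M.run y m).1]? ≠ none ∧ ∀ b, M[(M.run y m).1]? ≠ some (.halt b)) :
    Relation.ReflTransGen (LStep fun a => Ctl a ![encL (entFrom 0 M), u])
      (pair [] z, y, []) (pair (un (M.run y n).1) (bits z.length n), (M.run y n).2) ∧
      (pair (un (M.run y n).1) (bits z.length n)).length ≤ u.length := by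
  induction n with
  | zero =>
    have h1 : bits z.length 0 = z := val_inj (by simp) (by rw [val_bits hn, hz])
    rw [h1]
    refine ⟨.refl, ?_⟩
    rw [length_pair]
    show 2 * (un 0).length + z.length + 2 ≤ u.length
    simp only [un, List.length_replicate]
    omega
  | succ n ih =>
    obtain ⟨h1, -⟩ := ih (by omega) (fun m hm => hact m (by omega))
    obtain ⟨h2, h3⟩ := hact n (by omega)
    obtain ⟨a, h4, h5⟩ := exists_trans h2 h3
    rw [← Mach.run_succ] at h4 h5
    have h6 := trans_bound h4
    have h7 : (pair (un (M.run y (n + 1)).1) (bits z.length (n + 1))).length ≤ u.length := by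
      rw [length_pair, length_bits]
      unfold un
      rw [List.length_replicate]
      omega
    refine ⟨h1.tail ⟨a, ⟨⟨_, _, rfl, _, _, rfl, ⟨by simp, ?_⟩, ?_⟩, h7⟩, h5⟩, h7⟩
    · rw [val_bits hn, val_bits (by omega)]
    · exact mem_trans.2 ⟨_, _, rfl, rfl, h4⟩

theorem exists_pad (c : ℕ) : ∃ P, ∀ m : ℕ, m ^ c + c < 2 ^ (m + P) := by
  have h := tendsto_pow_const_div_const_pow_of_one_lt c (r := 2) (by norm_num)
  have h1 := h.eventually (gt_mem_nhds (show (0 : ℝ) < 1 by norm_num))
  obtain ⟨N, hN⟩ := Filter.eventually_atTop.1 h1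
  refine ⟨N ^ c + c + 2, fun m => ?_⟩
  have h2 : m ^ c < 2 ^ m + (N ^ c + 1) := by
    rcases Nat.lt_or_ge m N with h3 | h3
    · have h6 := Nat.pow_le_pow_left h3.le c
      exact lt_of_le_of_lt h6 (by
        have h5 := Nat.two_pow_pos m
        generalize 2 ^ m = a at h5 ⊢
        omega)
    · have h4 := hN m h3
      rw [div_lt_one (by positivity)] at h4
      have h5 : m ^ c < 2 ^ m := by exact_mod_cast h4
      exact lt_of_lt_of_le h5 (Nat.le_add_right _ _)
  have h3 : N ^ c + c + 2 < 2 ^ (N ^ c + c + 2) := Nat.lt_two_pow_self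
  rw [pow_add]
  have h4 : 1 ≤ 2 ^ m := Nat.one_le_two_pow
  generalize 2 ^ m = a at h2 h4 ⊢
  generalize 2 ^ (N ^ c + c + 2) = b at h3 ⊢
  obtain ⟨a', rfl⟩ : ∃ a', a = a' + 1 := ⟨a - 1, by omega⟩
  obtain ⟨b', rfl⟩ : ∃ b', b = b' + 1 := ⟨b - 1, by omega⟩
  have h5 : (a' + 1) * (b' + 1) = a' * b' + a' + b' + 1 := by ring
  have h6 := Nat.zero_le (a' * b')
  omega

theorem exists_universal (O : List Bool → Bool) : ∃ R : Bool → List Bool → List Bool → Prop,
    (∀ b, NEXP O fun e : Fin 2 → List Bool => R b (e 0) (e 1)) ∧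
    ∀ G ∈ PTime, ∃ i : List Bool, ∀ y, (R true i y ↔ y ∈ G) ∧ (R false i y ↔ y ∉ G) := by
  refine ⟨UR, nexp_ur, ?_⟩
  rintro G ⟨M, c, hM⟩
  obtain ⟨P, hP⟩ := exists_pad c
  set prog := encL (entFrom 0 M) with hprog
  set pad := List.replicate P false with hpad
  refine ⟨pair prog pad, fun y => ?_⟩
  obtain ⟨t, ht, b, hb1, hb2⟩ := hM y
  have hz0 : val (pad.flatMap (fun _ => [false]) ++ [] ++ y.flatMap (fun _ => [false])) = 0 := by
    rw [List.append_nil, ← List.flatMap_append, val_flat_false]
  have hzl : (pad.flatMap (fun _ => [false]) ++ [] ++ y.flatMap (fun _ => [false])).length =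
      P + y.length := by
    have hf : ∀ x : List Bool, (x.flatMap fun _ => [false]).length = x.length := by
      intro x; simp
    rw [List.length_append, List.length_append, hf, hf, hpad]
    simp
  have hsound : ∀ b', UR b' (pair prog pad) y → b' = b := by
    rintro b' ⟨prog', pad', h1, s0, s1, ⟨⟨z, q, ⟨hz, rfl⟩, rfl⟩, ⟨q1, c1, rfl, h2⟩⟩, u, -, -,
      X, Y, h3⟩
    obtain ⟨rfl, rfl⟩ := pair_injective h1
    obtain ⟨n, c2, h4, -, -, -⟩ := path_sound (by rw [hz, hz0]) h3
    obtain ⟨rfl, rfl⟩ := pair_injective h4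
    obtain ⟨m, h5, h6⟩ := mem_halt.1 h2
    rw [← un_injective h5] at h6
    rcases le_total n t with h7 | h7
    · have h8 := Mach.run_halt h7 h6
      rw [h8, h6] at hb1
      simpa using hb1
    · have h8 := Mach.run_halt h7 hb1
      rw [h8, hb1] at h6
      simpa using h6.symm
  have hcomplete : UR b (pair prog pad) y := by
    classical
    have hex : ∃ n, ∃ b', M[(M.run y n).1]? = some (.halt b') := ⟨t, b, hb1⟩
    obtain ⟨b', hb'⟩ := Nat.find_spec hex
    set n := Nat.find hex with hn
    have hnt : n ≤ t := Nat.find_min' hex ⟨b, hb1⟩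
    have hbb : b' = b := by
      have h8 := Mach.run_halt hnt hb'
      rw [h8, hb'] at hb1
      simpa using hb1
    subst hbb
    have hact : ∀ m < n, M[(M.run y m).1]? ≠ none ∧ ∀ b, M[(M.run y m).1]? ≠ some (.halt b) := by
      intro m hm
      refine ⟨fun h => ?_, fun b'' h => Nat.find_min hex hm ⟨b'', h⟩⟩
      have h9 : ∀ k, M.run y (m + k) = M.run y m := by
        intro k
        induction k with
        | zero => rfl
        | succ k ih =>
          rw [← add_assoc, Mach.run_succ, ih]
          generalize M.run y m = cf at h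
          obtain ⟨q, X, Y⟩ := cf
          simp only at h
          simp [Mach.next, h]
      have h10 := h9 (n - m)
      rw [Nat.add_sub_cancel' hm.le] at h10
      rw [h10, h] at hb'
      cases hb'
    have hlt : n < 2 ^ (P + y.length) := by
      have := hP y.length
      rw [add_comm P]
      omega
    obtain ⟨h1, h2⟩ := path_complete (M := M) (u := pair (pair prog pad) y) (y := y) hz0
      (by rw [hzl, length_pair, length_pair, ← hprog, hpad, List.length_replicate]; omega)
      (by rw [hzl]; exact hlt) hact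
    exact ⟨prog, pad, rfl, _, _, ⟨⟨_, [], ⟨rfl, rfl⟩, rfl⟩, ⟨_, _, rfl,
      mem_halt.2 ⟨_, rfl, hb'⟩⟩⟩, _, rfl, h2, _, _, h1⟩
  constructor
  · rw [← hb2]
    constructor
    · intro h; rw [hsound _ h]
    · intro h; rw [h] at hcomplete; exact hcomplete
  · rw [← hb2]
    constructor
    · intro h; rw [← hsound _ h]; simp
    · intro h
      have : b = false := by simpa using h
      rw [this] at hcomplete; exact hcomplete

theorem nexp_ptime {O : List Bool → Bool} {G : Lang} (hG : G ∈ PTime) :
    G ∈ NEXPLang O ∧ Gᶜ ∈ NEXPLang O := by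
  obtain ⟨R, hR, h⟩ := exists_universal O
  obtain ⟨i, hi⟩ := h G hG
  have key : ∀ b, NEXP O fun e : Fin 1 → List Bool => R b i (e 0) := by
    intro b
    have h1 : NEXP O fun e : Fin 2 → List Bool => e 1 = i ∧ R b (e 1) (e 0) :=
      (nexp_const i 1).and (((hR b).reindex ![1, 0]).congr fun e => by simp)
    have h2 := nexp_ex (R := fun (e : Fin 1 → List Bool) z => z = i ∧ R b z (e 0)) h1
      (g := fun _ => i.length) (PolyB.const _) (by
        rintro e z ⟨rfl, -⟩
        exact le_rfl)
    refine h2.congr fun e => ?_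
    simp
  exact ⟨(key true).congr fun e => (hi _).1, (key false).congr fun e => (hi _).2⟩

end Pool.Agent.LibBHN
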