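import Pool.Agent.LibNexp.Advice

/-!
Polynomial time with adaptive queries to nondeterministic exponential time.
-/

namespace Pool.Agent.LibBHN

open Function Pool.Agent.LibNexp

variable {O : List Bool → Bool}

open Classical in
/-- The answers to the first queries of the protocol given by `C` on the input `x`: the query
made after the answers `α` is `⟨x, α⟩`. -/
noncomputable def ans (C : Lang) (x : List Bool) : ℕ → List Bool
  | 0 => []
  | i + 1 => ans C x i ++ [decide (pair x (ans C x i) ∈ C)]

/-- `P^NEXP`: polynomially many adaptive queries to a language of the class. -/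
def PNEXP (O : List Bool → Bool) : Set Lang :=
  {L | ∃ C ∈ NEXPLang O, ∃ c : ℕ, ∀ x, x ∈ L ↔ pair x (ans C x (x.length ^ c + c)) ∈ C}

@[simp] theorem length_ans (C : Lang) (x : List Bool) (i : ℕ) : (ans C x i).length = i := by
  induction i with
  | zero => rfl
  | succ i ih => rw [ans, List.length_append, ih]; rfl

end Pool.Agent.LibBHN
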