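import Pool.Agent.LibBHN.Str2

/-! Universal quantification over all strings of a given length. -/

namespace Pool.Agent.LibBHN

open Function Pool.Agent.LibNexp

variable {O : List Bool → Bool}

theorem val_flat_false (x : List Bool) : val (x.flatMap fun _ => [false]) = 0 := by
  induction x with
  | nil => rfl
  | cons b x ih => simp [val, ih]

theorem val_flat_true (x : List Bool) : val (x.flatMap fun _ => [true]) + 1 = 2 ^ x.length := by
  induction x with
  | nil => rfl
  | cons b x ih =>
    simp only [List.flatMap_cons, List.cons_append, List.nil_append, val, Bool.toNat_true,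
      List.length_cons, pow_succ]
    omega

/-- Universal quantification over the strings as long as a given one. -/
theorem nexp_all {k : ℕ} {R : (Fin k → List Bool) → List Bool → Prop}
    (h : NEXP O fun e : Fin (k + 1) → List Bool =>
      R (low (Nat.le_add_right k 1) e) (e (Fin.last k))) (j : Fin k) :
    NEXP O fun e : Fin k → List Bool => ∀ z, z.length = (e j).length → R e z := by
  -- the step: the next string satisfies the relation
  have h1 : NEXP O fun e : Fin (k + 2) → List Bool =>
      (fun (e : Fin k → List Bool) (a b : List Bool) => (Suc a b ∧ R e b) ∧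
        b.length ≤ (e j).length) (low (Nat.le_add_right k 2) e) (e (Fin.castSucc (Fin.last k)))
        (e (Fin.last (k + 1))) := by
    refine ((nexp_suc _ _).and ?_).and ?_
    · exact h.reindex (m := k + 2) (fun i : Fin (k + 1) =>
        if h : (i : ℕ) < k then ⟨i, by omega⟩ else Fin.last (k + 1)) |>.congr fun e => by
          have e1 : low (Nat.le_add_right k 1) (fun i : Fin (k + 1) =>
              e (if h : (i : ℕ) < k then (⟨i, by omega⟩ : Fin (k + 2)) else Fin.last (k + 1))) =
              low (Nat.le_add_right k 2) e := by
            funext i
            unfold low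
            have := i.2
            simp only [Fin.val_castLE, this, dite_true]
            rfl
          rw [e1]
          have e2 : ¬ (((Fin.last k : Fin (k + 1)) : ℕ) < k) := by simp
          simp only [e2, dite_false]
    · refine ((nexp_le (O := O)).reindex (m := k + 2)
        ![Fin.last (k + 1), Fin.castLE (Nat.le_add_right k 2) j]).congr fun e => ?_
      simp only [Matrix.cons_val_zero, Matrix.cons_val_one]
      rfl
  have h2 := nexp_reach (S := fun (e : Fin k → List Bool) (a b : List Bool) =>
    (Suc a b ∧ R e b) ∧ b.length ≤ (e j).length) h1 (g := fun n => n) PolyB.id monotone_id (by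
    rintro e a b ⟨-, h⟩
    exact h.trans (len_le_size e j))
  -- the first and the last string
  have h3 : NEXP O fun e : Fin (k + 2) → List Bool =>
      (R (low (Nat.le_add_right k 2) e) (e (Fin.castSucc (Fin.last k))) ∧
        (e (Fin.castSucc (Fin.last k)) = (low (Nat.le_add_right k 2) e j).flatMap
          (fun _ => [false]) ∧ e (Fin.last (k + 1)) =
            (low (Nat.le_add_right k 2) e j).flatMap (fun _ => [true]))) ∧
      Relation.ReflTransGen (fun a b => (Suc a b ∧ R (low (Nat.le_add_right k 2) e) b) ∧
        b.length ≤ (low (Nat.le_add_right k 2) e j).length) (e (Fin.castSucc (Fin.last k)))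
        (e (Fin.last (k + 1))) := by
    refine (NEXP.and ?_ (NEXP.and ?_ ?_)).and h2
    · exact h.reindex (m := k + 2) (fun i : Fin (k + 1) => Fin.castSucc i) |>.congr fun e => by
        have e1 : low (Nat.le_add_right k 1) (fun i : Fin (k + 1) => e (Fin.castSucc i)) =
            low (Nat.le_add_right k 2) e := rfl
        rw [e1]
    · refine ((nexp_subst (O := O) (fun _ => [false]) (fun _ => []) []).reindex (m := k + 2)
        ![Fin.castLE (Nat.le_add_right k 2) j, Fin.last (k + 1),
          Fin.castSucc (Fin.last k)]).congr fun e => ?_
      simp only [Matrix.cons_val_zero, Matrix.cons_val_one, Matrix.cons_val]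
      have : (e (Fin.last (k + 1))).flatMap (fun _ => ([] : List Bool)) = [] := by simp
      rw [this, List.append_nil, List.append_nil]
      rfl
    · refine ((nexp_subst (O := O) (fun _ => [true]) (fun _ => []) []).reindex (m := k + 2)
        ![Fin.castLE (Nat.le_add_right k 2) j, Fin.last (k + 1),
          Fin.last (k + 1)]).congr fun e => ?_
      simp only [Matrix.cons_val_zero, Matrix.cons_val_one, Matrix.cons_val]
      have : (e (Fin.last (k + 1))).flatMap (fun _ => ([] : List Bool)) = [] := by simp
      rw [this, List.append_nil, List.append_nil]
      rfl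
  have h4 : NEXP O fun e : Fin (k + 1) → List Bool => ∃ b,
      (R (low (Nat.le_add_right k 1) e) (e (Fin.last k)) ∧
        (e (Fin.last k) = (low (Nat.le_add_right k 1) e j).flatMap
          (fun _ => [false]) ∧ b =
            (low (Nat.le_add_right k 1) e j).flatMap (fun _ => [true]))) ∧
      Relation.ReflTransGen (fun a b => (Suc a b ∧ R (low (Nat.le_add_right k 1) e) b) ∧
        b.length ≤ (low (Nat.le_add_right k 1) e j).length) (e (Fin.last k)) b := by
    refine nexp_ex (R := fun (e : Fin (k + 1) → List Bool) b =>
      (R (low (Nat.le_add_right k 1) e) (e (Fin.last k)) ∧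
        (e (Fin.last k) = (low (Nat.le_add_right k 1) e j).flatMap
          (fun _ => [false]) ∧ b =
            (low (Nat.le_add_right k 1) e j).flatMap (fun _ => [true]))) ∧
      Relation.ReflTransGen (fun a b => (Suc a b ∧ R (low (Nat.le_add_right k 1) e) b) ∧
        b.length ≤ (low (Nat.le_add_right k 1) e j).length) (e (Fin.last k)) b) h3
      (g := fun n => n) PolyB.id ?_
    rintro e z ⟨⟨-, -, h⟩, -⟩
    have h5 : z.length = (low (Nat.le_add_right k 1) e j).length := by rw [h]; simp
    rw [h5]
    exact len_le_size e _
  have h5 : NEXP O fun e : Fin k → List Bool => ∃ a b,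
      (R e a ∧ (a = (e j).flatMap (fun _ => [false]) ∧ b = (e j).flatMap (fun _ => [true]))) ∧
      Relation.ReflTransGen (fun a b => (Suc a b ∧ R e b) ∧ b.length ≤ (e j).length) a b := by
    refine nexp_ex (R := fun (e : Fin k → List Bool) a => ∃ b,
      (R e a ∧ (a = (e j).flatMap (fun _ => [false]) ∧ b = (e j).flatMap (fun _ => [true]))) ∧
      Relation.ReflTransGen (fun a b => (Suc a b ∧ R e b) ∧ b.length ≤ (e j).length) a b) h4
      (g := fun n => n) PolyB.id ?_
    rintro e z ⟨b, ⟨-, h, -⟩, -⟩
    have h5 : z.length = (e j).length := by rw [h]; simp
    rw [h5]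
    exact len_le_size e _
  refine h5.congr fun e => ?_
  constructor
  · rintro ⟨a, b, ⟨ha, rfl, rfl⟩, hab⟩ z hz
    -- every value up to the one of the endpoint is reached
    have key : ∀ c, Relation.ReflTransGen (fun a b => (Suc a b ∧ R e b) ∧
        b.length ≤ (e j).length) ((e j).flatMap fun _ => [false]) c →
        ∀ z : List Bool, z.length = (e j).length → val z ≤ val c → R e z := by
      intro c hc
      induction hc with
      | refl =>
        intro z hz h6
        rw [val_flat_false] at h6
        have : z = (e j).flatMap fun _ => [false] := by
          refine val_inj ?_ ?_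
          · rw [hz]; simp
          · rw [val_flat_false]; omega
        rw [this]
        exact ha
      | @tail c d hc' hcd ih =>
        intro z hz h6
        obtain ⟨⟨⟨h7, h8⟩, h9⟩, h10⟩ := hcd
        rcases Nat.lt_or_ge (val c) (val z) with h11 | h11
        · have hlen : ∀ c, Relation.ReflTransGen (fun a b => (Suc a b ∧ R e b) ∧
              b.length ≤ (e j).length) ((e j).flatMap fun _ => [false]) c →
              c.length = (e j).length := by
            intro c hc
            induction hc with
            | refl => simp
            | tail _ h12 ih' => rw [h12.1.1.1, ih']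
          have : z = d := val_inj (by rw [hz, h7, hlen c hc']) (by omega)
          rw [this]
          exact h9
        · exact ih z hz h11
    refine key _ hab z hz ?_
    have h6 := val_flat_true (e j)
    have h7 := val_lt z
    rw [hz] at h7
    omega
  · intro hall
    refine ⟨_, _, ⟨hall _ (by simp), rfl, rfl⟩, ?_⟩
    have key : ∀ d, d < 2 ^ (e j).length → Relation.ReflTransGen (fun a b => (Suc a b ∧ R e b) ∧
        b.length ≤ (e j).length) ((e j).flatMap fun _ => [false]) (bits (e j).length d) := by
      intro d
      induction d with
      | zero =>
        intro hd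
        have : bits (e j).length 0 = (e j).flatMap fun _ => [false] := by
          refine val_inj ?_ ?_
          · simp
          · rw [val_flat_false, val_bits hd]
        rw [this]
      | succ d ih =>
        intro hd
        refine (ih (by omega)).tail ⟨⟨⟨by simp, ?_⟩, hall _ (by simp)⟩, by simp⟩
        rw [val_bits hd, val_bits (by omega)]
    have h6 := val_flat_true (e j)
    have h7 : bits (e j).length (val ((e j).flatMap fun _ => [true])) =
        (e j).flatMap fun _ => [true] := by
      have := bits_val ((e j).flatMap fun _ => [true])
      rwa [show ((e j).flatMap fun _ => [true]).length = (e j).length by simp] at this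
    rw [← h7]
    exact key _ (by omega)

/-- The form with appended inputs. -/
theorem _root_.Pool.Agent.LibNexp.NEXP.forall {k : ℕ} {R : (Fin (k + 1) → List Bool) → Prop}
    (hR : NEXP O R) (i : Fin k) :
    NEXP O fun e => ∀ y : List Bool, y.length = (e i).length → R (app e y) := by
  refine nexp_all (R := fun e y => R (app e y)) (hR.congr fun e => ?_) i
  have : app (low (Nat.le_add_right k 1) e) (e (Fin.last k)) = e := by
    funext j
    unfold app low
    refine Fin.lastCases ?_ (fun j => ?_) j
    · rw [Fin.snoc_last]
    · rw [Fin.snoc_castSucc]
      congr 1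
  rw [this]

end Pool.Agent.LibBHN
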