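import Pool.Agent.LibBHN.Str1

/-! Task NX-2: counting. -/

namespace Pool.Agent.LibBHN

open Function Pool.Agent.LibNexp

variable {O : List Bool → Bool}

open Classical in
/-- The number of strings of length `n` with a property. -/
noncomputable def cnt (n : ℕ) (P : List Bool → Prop) : ℕ :=
  ((Finset.range (2 ^ n)).filter fun m => P (bits n m)).card

theorem cnt_val_lt (x : List Bool) : val x < 2 ^ x.length := by
  induction x with
  | nil => simp [val]
  | cons b x ih =>
    simp only [val, List.length_cons, pow_succ]
    have := Bool.toNat_le b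
    omega

theorem cnt_le (n : ℕ) (P : List Bool → Prop) : cnt n P ≤ 2 ^ n := by
  classical
  unfold cnt
  refine (Finset.card_filter_le _ _).trans ?_
  simp

theorem cnt_mem {P : List Bool → Prop} {x : List Bool} (hx : P x) :
    cnt x.length (fun y => P y ∧ y ≠ x) + 1 = cnt x.length P := by
  classical
  unfold cnt
  have hmem : val x ∈ (Finset.range (2 ^ x.length)).filter fun m => P (bits x.length m) := by
    rw [Finset.mem_filter, Finset.mem_range]
    exact ⟨cnt_val_lt x, by rw [bits_val]; exact hx⟩
  have h : ((Finset.range (2 ^ x.length)).filter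
      fun m => P (bits x.length m) ∧ bits x.length m ≠ x) =
      ((Finset.range (2 ^ x.length)).filter fun m => P (bits x.length m)).erase (val x) := by
    ext m
    simp only [Finset.mem_filter, Finset.mem_range, Finset.mem_erase]
    constructor
    · rintro ⟨h1, h2, h3⟩
      refine ⟨?_, h1, h2⟩
      rintro rfl
      exact h3 (bits_val x)
    · rintro ⟨h1, h2, h3⟩
      refine ⟨h2, h3, ?_⟩
      intro h4
      apply h1
      rw [← val_bits h2, h4]
  have h5 := Finset.card_erase_add_one hmem
  rw [← h] at h5
  convert h5 using 2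
  congr 1
  ext m
  simp only [Finset.mem_filter]

theorem cnt_notMem {P : List Bool → Prop} {x : List Bool} {n : ℕ} (hx : ¬ P x) :
    cnt n (fun y => P y ∧ y ≠ x) = cnt n P := by
  classical
  unfold cnt
  congr 1
  ext m
  simp only [Finset.mem_filter, Finset.mem_range]
  constructor
  · rintro ⟨h1, h2, h3⟩
    exact ⟨h1, h2⟩
  · rintro ⟨h1, h2⟩
    refine ⟨h1, h2, ?_⟩
    intro h3
    exact hx (h3 ▸ h2)

end Pool.Agent.LibBHN
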