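import Pool.Agent.LibNexp.Advice

/-!
Deterministic machines with two stacks (one-tape Turing machines), polynomial time, and
polynomial time with adaptive queries.
-/

namespace Pool.Agent.LibBHN

open Function Pool.Agent.LibNexp

/-- Commands of a deterministic machine with two stacks of bits; states are numbers. -/
inductive Cmd
  /-- push the bit `b` on the first (`r = false`) or second (`r = true`) stack, go to `q` -/
  | push (r : Bool) (b : Bool) (q : ℕ) : Cmd
  /-- pop a bit; go to `q0` if it was `false`, to `q1` if it was `true`, to `qe` if the stack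
  was empty -/
  | pop (r : Bool) (q0 q1 qe : ℕ) : Cmd
  /-- stop with the answer `b` -/
  | halt (b : Bool) : Cmd
  deriving DecidableEq

/-- A machine: the command number `q` is executed in the state `q`. -/
abbrev Mach := List Cmd

/-- Configurations: state, first and second stack (top of a stack = head of the list). -/
abbrev Cfg := ℕ × List Bool × List Bool

/-- One step; configurations without a push or pop command are final. -/
def Mach.next (M : Mach) (c : Cfg) : Cfg :=
  match M[c.1]?, c with
  | some (.push false b q), (_, x, y) => (q, b :: x, y)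
  | some (.push true b q), (_, x, y) => (q, x, b :: y)
  | some (.pop false _ _ qe), (_, [], y) => (qe, [], y)
  | some (.pop false q0 q1 _), (_, b :: x, y) => (cond b q1 q0, x, y)
  | some (.pop true _ _ qe), (_, x, []) => (qe, x, [])
  | some (.pop true q0 q1 _), (_, x, b :: y) => (cond b q1 q0, x, y)
  | some (.halt _), c => c
  | none, c => c

/-- The configuration after `t` steps on the input `x`. -/
def Mach.run (M : Mach) (x : List Bool) (t : ℕ) : Cfg := (M.next)^[t] (0, x, [])

/-- Languages decided in deterministic polynomial time. -/
def PTime : Set Lang :=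
  {L | ∃ (M : Mach) (c : ℕ), ∀ x : List Bool, ∃ t ≤ x.length ^ c + c, ∃ b : Bool,
    M[(M.run x t).1]? = some (.halt b) ∧ (b = true ↔ x ∈ L)}

/-- Functions computed in deterministic polynomial time; the output is the content of the
first stack. -/
def FPTime : Set (List Bool → List Bool) :=
  {f | ∃ (M : Mach) (c : ℕ), ∀ x : List Bool, ∃ t ≤ x.length ^ c + c, ∃ b : Bool,
    M[(M.run x t).1]? = some (.halt b) ∧ (M.run x t).2.1 = f x}

open Classical in
/-- The answers to the first queries to `A` on the input `x`: after the answers `α` the query
`f ⟨x, α⟩` is made. -/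
noncomputable def answers (f : List Bool → List Bool) (A : Lang) (x : List Bool) :
    ℕ → List Bool
  | 0 => []
  | i + 1 => answers f A x i ++ [decide (f (pair x (answers f A x i)) ∈ A)]

/-- Polynomial time with at most `k` adaptive queries to a language of the class `𝒞`. -/
def PQuery (𝒞 : Set Lang) (k : ℕ) : Set Lang :=
  {L | ∃ A ∈ 𝒞, ∃ f ∈ FPTime, ∃ G ∈ PTime, ∀ x, x ∈ L ↔ pair x (answers f A x k) ∈ G}

/-- Polynomial time with an oracle from the class `𝒞`: polynomially many adaptive queries. -/
def POracle (𝒞 : Set Lang) : Set Lang :=
  {L | ∃ A ∈ 𝒞, ∃ f ∈ FPTime, ∃ G ∈ PTime, ∃ c : ℕ, ∀ x,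
    x ∈ L ↔ pair x (answers f A x (x.length ^ c + c)) ∈ G}

@[simp] theorem length_answers (f : List Bool → List Bool) (A : Lang) (x : List Bool) (i : ℕ) :
    (answers f A x i).length = i := by
  induction i with
  | zero => rfl
  | succ i ih => rw [answers, List.length_append, ih]; rfl

end Pool.Agent.LibBHN
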