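import Pool.Agent.LibBHN.Mach
import Pool.Agent.LibBHN.Misc
import Pool.Agent.LibNexp.Values

/-! Task NX-5: the graph of a function computed in polynomial time. -/

namespace Pool.Agent.LibBHN

open Function Pool.Agent.LibNexp

variable {O : List Bool → Bool}

/-- Configurations as strings. -/
def cfgS (c : Cfg) : List Bool := pair (List.replicate c.1 true) (pair c.2.1 c.2.2)

private theorem MachNext_ex {k : ℕ} {R : (Fin k → List Bool) → List Bool → Prop}
    (h : NEXP O fun e : Fin (k + 1) → List Bool =>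
      R (low (Nat.le_add_right k 1) e) (e (Fin.last k)))
    (hb : ∀ e z, R e z → z.length ≤ size e) :
    NEXP O fun e : Fin k → List Bool => ∃ z, R e z :=
  nexp_ex h (g := fun n => n) PolyB.id hb

private theorem MachNext_sing (x : List Bool) : x.flatMap (fun b => [b]) = x := by simp

private theorem MachNext_nil (x : List Bool) :
    x.flatMap (fun _ => ([] : List Bool)) = [] := by simp

private theorem MachNext_pre (w : List Bool) {k : ℕ} (i j : Fin k) :
    NEXP O fun e : Fin k → List Bool => e j = w ++ e i := by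
  refine ((nexp_subst (O := O) (fun _ => []) (fun b => [b]) w).reindex ![i, i, j]).congr
    fun e => ?_
  show e j = (e i).flatMap (fun _ => []) ++ w ++ (e i).flatMap (fun b => [b]) ↔ _
  rw [MachNext_nil, MachNext_sing, List.nil_append]

private theorem MachNext_A (c : Bool → List Bool) (w1 w2 : List Bool) {k : ℕ} (a i j : Fin k) :
    NEXP O fun e : Fin k → List Bool => e a = w1 ++ ((e i).flatMap c ++ w2 ++ e j) := by
  have h1 : NEXP O fun e : Fin 4 → List Bool =>
      e 0 = w1 ++ e 3 ∧ e 3 = (e 1).flatMap c ++ w2 ++ e 2 := by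
    refine (MachNext_pre w1 3 0).and ?_
    refine ((nexp_subst (O := O) c (fun b => [b]) w2).reindex ![1, 2, 3]).congr fun e => ?_
    show e 3 = (e 1).flatMap c ++ w2 ++ (e 2).flatMap (fun b => [b]) ↔ _
    rw [MachNext_sing]
  have h2 : NEXP O fun e : Fin 3 → List Bool => ∃ z,
      e 0 = w1 ++ z ∧ z = (e 1).flatMap c ++ w2 ++ e 2 := by
    refine MachNext_ex (R := fun e z => e 0 = w1 ++ z ∧ z = (e 1).flatMap c ++ w2 ++ e 2) h1 ?_
    rintro e z ⟨h, -⟩
    have := len_le_size e 0
    rw [h, List.length_append] at this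
    omega
  refine (h2.reindex ![a, i, j]).congr fun e => ?_
  show (∃ z, e a = w1 ++ z ∧ z = (e i).flatMap c ++ w2 ++ e j) ↔ _
  constructor
  · rintro ⟨z, h3, rfl⟩
    exact h3
  · intro h3
    exact ⟨_, h3, rfl⟩

private theorem MachNext_cfgS (i : ℕ) (u v X Y : List Bool) :
    cfgS (i, u ++ X, v ++ Y) = ((List.replicate i true).flatMap (fun b => [b, b]) ++
      [true, false] ++ u.flatMap (fun b => [b, b])) ++
      (X.flatMap (fun b => [b, b]) ++ ([true, false] ++ v) ++ Y) := by
  unfold cfgS pair
  simp only [List.flatMap_append, List.append_assoc]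

private theorem MachNext_len (i : ℕ) (X Y : List Bool) :
    X.length ≤ (cfgS (i, X, Y)).length ∧ Y.length ≤ (cfgS (i, X, Y)).length := by
  change X.length ≤ (pair (List.replicate i true) (pair X Y)).length ∧
    Y.length ≤ (pair (List.replicate i true) (pair X Y)).length
  rw [length_pair, length_pair]
  omega

private theorem MachNext_T {P : List Bool → List Bool → Prop}
    (hP : NEXP O fun e : Fin 2 → List Bool => P (e 0) (e 1)) (i j : ℕ)
    (u1 v1 u2 v2 : List Bool) :
    NEXP O fun e : Fin 2 → List Bool => ∃ X Y, P X Y ∧ e 0 = cfgS (i, u1 ++ X, v1 ++ Y) ∧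
      e 1 = cfgS (j, u2 ++ X, v2 ++ Y) := by
  have h1 : NEXP O fun e : Fin 4 → List Bool => P (e 2) (e 3) ∧
      e 0 = cfgS (i, u1 ++ e 2, v1 ++ e 3) ∧ e 1 = cfgS (j, u2 ++ e 2, v2 ++ e 3) := by
    refine NEXP.and ((hP.reindex ![2, 3]).congr fun e => Iff.rfl) (NEXP.and ?_ ?_)
    · refine (MachNext_A (fun b => [b, b]) ((List.replicate i true).flatMap (fun b => [b, b]) ++
        [true, false] ++ u1.flatMap (fun b => [b, b])) ([true, false] ++ v1) 0 2 3).congr
        fun e => ?_
      rw [MachNext_cfgS]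
    · refine (MachNext_A (fun b => [b, b]) ((List.replicate j true).flatMap (fun b => [b, b]) ++
        [true, false] ++ u2.flatMap (fun b => [b, b])) ([true, false] ++ v2) 1 2 3).congr
        fun e => ?_
      rw [MachNext_cfgS]
  have h2 : NEXP O fun e : Fin 3 → List Bool => ∃ Y, P (e 2) Y ∧
      e 0 = cfgS (i, u1 ++ e 2, v1 ++ Y) ∧ e 1 = cfgS (j, u2 ++ e 2, v2 ++ Y) := by
    refine MachNext_ex (R := fun e Y => P (e 2) Y ∧
      e 0 = cfgS (i, u1 ++ e 2, v1 ++ Y) ∧ e 1 = cfgS (j, u2 ++ e 2, v2 ++ Y)) h1 ?_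
    rintro e z ⟨-, h, -⟩
    have h3 := len_le_size e 0
    have h4 := (MachNext_len i (u1 ++ e 2) (v1 ++ z)).2
    rw [← h, List.length_append] at h4
    omega
  refine MachNext_ex (R := fun e X => ∃ Y, P X Y ∧
      e 0 = cfgS (i, u1 ++ X, v1 ++ Y) ∧ e 1 = cfgS (j, u2 ++ X, v2 ++ Y)) h2 ?_
  rintro e z ⟨Y, -, h, -⟩
  have h3 := len_le_size e 0
  have h4 := (MachNext_len i (u1 ++ z) (v1 ++ Y)).1
  rw [← h, List.length_append] at h4
  omega

private theorem MachNext_isPair : NEXP O fun e : Fin 1 → List Bool => ∃ X Y, e 0 = pair X Y := by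
  have h1 : NEXP O fun e : Fin 3 → List Bool => e 0 = pair (e 1) (e 2) :=
    ((nexp_pairRel (O := O)).reindex ![1, 2, 0]).congr fun e => Iff.rfl
  have h2 : NEXP O fun e : Fin 2 → List Bool => ∃ Y, e 0 = pair (e 1) Y := by
    refine MachNext_ex (R := fun e Y => e 0 = pair (e 1) Y) h1 ?_
    intro e z h
    have h3 := len_le_size e 0
    rw [h, length_pair] at h3
    omega
  refine MachNext_ex (R := fun e X => ∃ Y, e 0 = pair X Y) h2 ?_
  rintro e z ⟨Y, h⟩
  have h3 := len_le_size e 0
  rw [h, length_pair] at h3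
  omega

private theorem MachNext_rep (Z : List Bool) :
    (List.replicate Z.length true).flatMap (fun b => [b, b]) =
      Z.flatMap (fun _ => [true, true]) := by
  induction Z with
  | nil => rfl
  | cons a Z ih => rw [List.length_cons, List.replicate_succ, List.flatMap_cons, ih]; rfl

private theorem MachNext_dbl (z : List Bool) :
    (z.flatMap (fun _ => [true, true])).length = 2 * z.length := by
  induction z with
  | nil => rfl
  | cons a z ih =>
    rw [List.flatMap_cons, List.length_append, List.length_cons, ih]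
    simp only [List.length_cons, List.length_nil]
    ring

private theorem MachNext_C (n : ℕ) : NEXP O fun e : Fin 2 → List Bool =>
    e 1 = e 0 ∧ ∃ q X Y, n ≤ q ∧ e 0 = cfgS (q, X, Y) := by
  have h1 : NEXP O fun e : Fin 3 → List Bool =>
      e 0 = (List.replicate n true).flatMap (fun b => [b, b]) ++
        ((e 2).flatMap (fun _ => [true, true]) ++ [true, false] ++ e 1) ∧
        ∃ X Y, e 1 = pair X Y :=
    (MachNext_A (fun _ => [true, true]) _ _ 0 2 1).and
      (((MachNext_isPair (O := O)).reindex ![1]).congr fun e => Iff.rfl)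
  have h2 : NEXP O fun e : Fin 2 → List Bool => ∃ Z : List Bool,
      e 0 = (List.replicate n true).flatMap (fun b => [b, b]) ++
        (Z.flatMap (fun _ => [true, true]) ++ [true, false] ++ e 1) ∧
        ∃ X Y, e 1 = pair X Y := by
    refine MachNext_ex (R := fun (e : Fin 2 → List Bool) (Z : List Bool) =>
      e 0 = (List.replicate n true).flatMap (fun b => [b, b]) ++
        (Z.flatMap (fun _ => [true, true]) ++ [true, false] ++ e 1) ∧
        ∃ X Y, e 1 = pair X Y) h1 ?_
    rintro e z ⟨h, -⟩
    have h3 := len_le_size e 0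
    have h4 := MachNext_dbl z
    rw [h, List.length_append, List.length_append, List.length_append, h4] at h3
    omega
  have h3 : NEXP O fun e : Fin 1 → List Bool => ∃ V Z : List Bool,
      e 0 = (List.replicate n true).flatMap (fun b => [b, b]) ++
        (Z.flatMap (fun _ => [true, true]) ++ [true, false] ++ V) ∧
        ∃ X Y, V = pair X Y := by
    refine MachNext_ex (R := fun (e : Fin 1 → List Bool) (V : List Bool) => ∃ Z : List Bool,
      e 0 = (List.replicate n true).flatMap (fun b => [b, b]) ++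
        (Z.flatMap (fun _ => [true, true]) ++ [true, false] ++ V) ∧
        ∃ X Y, V = pair X Y) h2 ?_
    rintro e z ⟨Z, h, -⟩
    have h3 := len_le_size e 0
    rw [h, List.length_append, List.length_append] at h3
    omega
  refine NEXP.and ((nexp_eq 1 0).congr fun e => Iff.rfl) ((h3.reindex ![0]).congr fun e => ?_)
  show (∃ V Z : List Bool, e 0 = (List.replicate n true).flatMap (fun b => [b, b]) ++
        (Z.flatMap (fun _ => [true, true]) ++ [true, false] ++ V) ∧
        ∃ X Y, V = pair X Y) ↔ _
  constructor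
  · rintro ⟨V, Z, h, X, Y, rfl⟩
    refine ⟨n + Z.length, X, Y, by omega, ?_⟩
    rw [h, ← MachNext_rep]
    simp only [cfgS, pair, List.replicate_add, List.flatMap_append, List.append_assoc]
  · rintro ⟨q, X, Y, hq, h⟩
    obtain ⟨m, rfl⟩ := Nat.exists_eq_add_of_le hq
    refine ⟨pair X Y, List.replicate m true, ?_, X, Y, rfl⟩
    rw [← MachNext_rep, List.length_replicate, h]
    simp only [cfgS, pair, List.replicate_add, List.flatMap_append, List.append_assoc]

private theorem MachNext_state (M : Mach) (i : ℕ) : NEXP O fun e : Fin 2 → List Bool =>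
    ∃ X Y, e 0 = cfgS (i, X, Y) ∧ e 1 = cfgS (M.next (i, X, Y)) := by
  have hT : NEXP O fun _ : Fin 2 → List Bool => True := nexp_true
  have hX : NEXP O fun e : Fin 2 → List Bool => e 0 = [] := nexp_const [] 0
  have hY : NEXP O fun e : Fin 2 → List Bool => e 1 = [] := nexp_const [] 1
  rcases hM : M[i]? with _ | ⟨r, b, q⟩ | ⟨r, q0, q1, qe⟩ | b
  · refine (MachNext_T (P := fun _ _ => True) hT i i [] [] [] []).congr fun e => ?_
    simp [Mach.next, hM]
  · cases r
    · refine (MachNext_T (P := fun _ _ => True) hT i q [] [] [b] []).congr fun e => ?_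
      simp [Mach.next, hM]
    · refine (MachNext_T (P := fun _ _ => True) hT i q [] [] [] [b]).congr fun e => ?_
      simp [Mach.next, hM]
  · cases r
    · refine ((MachNext_T (P := fun X _ => X = []) hX i qe [] [] [] []).or ((MachNext_T (P := fun _ _ => True) hT i q0 [false] [] [] []).or
        (MachNext_T (P := fun _ _ => True) hT i q1 [true] [] [] []))).congr fun e => ?_
      constructor
      · rintro (⟨X, Y, rfl, h1, h2⟩ | ⟨X, Y, -, h1, h2⟩ | ⟨X, Y, -, h1, h2⟩)
        · exact ⟨[], Y, h1, by rw [h2]; simp [Mach.next, hM]⟩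
        · exact ⟨false :: X, Y, h1, by rw [h2]; simp [Mach.next, hM]⟩
        · exact ⟨true :: X, Y, h1, by rw [h2]; simp [Mach.next, hM]⟩
      · rintro ⟨X, Y, h1, h2⟩
        rcases X with _ | ⟨b, X⟩
        · left
          exact ⟨[], Y, rfl, h1, by rw [h2]; simp [Mach.next, hM]⟩
        · cases b
          · right; left
            exact ⟨X, Y, trivial, h1, by rw [h2]; simp [Mach.next, hM]⟩
          · right; right
            exact ⟨X, Y, trivial, h1, by rw [h2]; simp [Mach.next, hM]⟩
    · refine ((MachNext_T (P := fun _ Y => Y = []) hY i qe [] [] [] []).or ((MachNext_T (P := fun _ _ => True) hT i q0 [] [false] [] []).or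
        (MachNext_T (P := fun _ _ => True) hT i q1 [] [true] [] []))).congr fun e => ?_
      constructor
      · rintro (⟨X, Y, rfl, h1, h2⟩ | ⟨X, Y, -, h1, h2⟩ | ⟨X, Y, -, h1, h2⟩)
        · exact ⟨X, [], h1, by rw [h2]; simp [Mach.next, hM]⟩
        · exact ⟨X, false :: Y, h1, by rw [h2]; simp [Mach.next, hM]⟩
        · exact ⟨X, true :: Y, h1, by rw [h2]; simp [Mach.next, hM]⟩
      · rintro ⟨X, Y, h1, h2⟩
        rcases Y with _ | ⟨b, Y⟩
        · left
          exact ⟨X, [], rfl, h1, by rw [h2]; simp [Mach.next, hM]⟩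
        · cases b
          · right; left
            exact ⟨X, Y, trivial, h1, by rw [h2]; simp [Mach.next, hM]⟩
          · right; right
            exact ⟨X, Y, trivial, h1, by rw [h2]; simp [Mach.next, hM]⟩
  · refine (MachNext_T (P := fun _ _ => True) hT i i [] [] [] []).congr fun e => ?_
    simp [Mach.next, hM]

/-- The step relation of a fixed machine. -/
theorem nexp_next (M : Mach) : NEXP O fun e : Fin 2 → List Bool =>
    ∃ c : Cfg, e 0 = cfgS c ∧ e 1 = cfgS (M.next c) := by
  have h1 := NEXP.finite_exists (O := O) (Finset.range M.length)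
    (R := fun i (e : Fin 2 → List Bool) =>
      ∃ X Y, e 0 = cfgS (i, X, Y) ∧ e 1 = cfgS (M.next (i, X, Y)))
    (fun i _ => MachNext_state M i)
  refine (h1.or (MachNext_C M.length)).congr fun e => ?_
  have hnone : ∀ q X Y, M.length ≤ q → M.next (q, X, Y) = (q, X, Y) := by
    intro q X Y hq
    have hM : M[q]? = none := List.getElem?_eq_none hq
    simp [Mach.next, hM]
  constructor
  · rintro (⟨i, -, X, Y, h2, h3⟩ | ⟨h2, q, X, Y, hq, h3⟩)
    · exact ⟨_, h2, h3⟩
    · refine ⟨_, h3, ?_⟩
      rw [hnone q X Y hq, h2, h3]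
  · rintro ⟨⟨q, X, Y⟩, h2, h3⟩
    by_cases hq : q < M.length
    · left
      exact ⟨q, Finset.mem_range.2 hq, X, Y, h2, h3⟩
    · right
      rw [hnone q X Y (by omega)] at h3
      exact ⟨by rw [h2, h3], q, X, Y, by omega, h2⟩

end Pool.Agent.LibBHN
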