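import Pool.Agent.LibBHN.MachBasic
import Pool.Agent.LibBHN.MachNext

/-! Task NX-6: the graph of a function computed in polynomial time. -/

namespace Pool.Agent.LibBHN

open Function Pool.Agent.LibNexp

variable {O : List Bool → Bool}

/-- A bound for the states a command leads to. -/
def cmdTgt : Cmd → ℕ
  | .push _ _ q => q
  | .pop _ q0 q1 qe => q0 + q1 + qe
  | .halt _ => 0

theorem exists_cmdTgt_le (M : Mach) : ∃ Q, ∀ cmd ∈ M, cmdTgt cmd ≤ Q := by
  induction M with
  | nil => exact ⟨0, fun cmd h => by simp at h⟩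
  | cons a M ih =>
    obtain ⟨Q, hQ⟩ := ih
    refine ⟨Q + cmdTgt a, fun cmd h => ?_⟩
    rcases List.mem_cons.1 h with rfl | h
    · omega
    · exact (hQ cmd h).trans (by omega)

theorem exists_state_bound (M : Mach) : ∃ Q, ∀ c : Cfg, c.1 ≤ Q → (M.next c).1 ≤ Q := by
  obtain ⟨Q, hQ⟩ := exists_cmdTgt_le M
  refine ⟨Q, ?_⟩
  rintro ⟨q, X, Y⟩ hq
  cases hm : M[q]? with
  | none =>
    simp only [Mach.next, hm]
    exact hq
  | some cmd =>
    have h1 := hQ cmd (List.mem_of_getElem? hm)
    cases cmd with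
    | push r b q' =>
      cases r <;> simp only [Mach.next, hm] <;> exact h1
    | pop r q0 q1 qe =>
      simp only [cmdTgt] at h1
      cases r
      · cases X with
        | nil => simp only [Mach.next, hm]; omega
        | cons b X =>
          cases b <;> simp only [Mach.next, hm, cond_true, cond_false] <;> omega
      · cases Y with
        | nil => simp only [Mach.next, hm]; omega
        | cons b Y =>
          cases b <;> simp only [Mach.next, hm, cond_true, cond_false] <;> omega
    | halt b =>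
      simp only [Mach.next, hm]
      exact hq

theorem run_state_bound {M : Mach} {Q : ℕ} (hQ : ∀ c : Cfg, c.1 ≤ Q → (M.next c).1 ≤ Q)
    (x : List Bool) (t : ℕ) : (M.run x t).1 ≤ Q := by
  induction t with
  | zero => exact Nat.zero_le _
  | succ t ih => rw [Mach.run_succ]; exact hQ _ ih

theorem cfgS_injective : Injective cfgS := by
  rintro ⟨q, X, Y⟩ ⟨q', X', Y'⟩ h
  obtain ⟨h1, h2⟩ := pair_injective h
  obtain ⟨h3, h4⟩ := pair_injective h2
  have h5 : q = q' := by
    have := congrArg List.length h1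
    simpa using this
  simp only at h3 h4
  rw [h5, h3, h4]

theorem length_cfgS (c : Cfg) : (cfgS c).length = 2 * c.1 + 2 * c.2.1.length + c.2.2.length + 4 := by
  unfold cfgS
  rw [length_pair, length_pair, List.length_replicate]
  omega

/-- Steps between short configurations. -/
def stepS (M : Mach) (u : List Bool) (a b : List Bool) : Prop :=
  (∃ c : Cfg, a = cfgS c ∧ b = cfgS (M.next c)) ∧ b.length ≤ u.length

theorem reach_run {M : Mach} {x u z : List Bool}
    (h : Relation.ReflTransGen (stepS M u) (cfgS (0, x, [])) z) : ∃ n, z = cfgS (M.run x n) := by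
  induction h with
  | refl => exact ⟨0, rfl⟩
  | tail _ h2 ih =>
    obtain ⟨n, hn⟩ := ih
    obtain ⟨⟨c, hc1, hc2⟩, -⟩ := h2
    refine ⟨n + 1, ?_⟩
    rw [Mach.run_succ, hc2]
    rw [hn] at hc1
    rw [cfgS_injective hc1]

theorem run_reach {M : Mach} {x u : List Bool} {t : ℕ}
    (h : ∀ n ≤ t, (cfgS (M.run x n)).length ≤ u.length) :
    Relation.ReflTransGen (stepS M u) (cfgS (0, x, [])) (cfgS (M.run x t)) := by
  induction t with
  | zero => exact .refl
  | succ t ih =>
    refine (ih fun n hn => h n (by omega)).tail ⟨⟨M.run x t, rfl, ?_⟩, h _ le_rfl⟩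
    rw [Mach.run_succ]

theorem nexp_reachCfg (M : Mach) : NEXP O fun e : Fin 3 → List Bool =>
    Relation.ReflTransGen (stepS M (e 0)) (e 1) (e 2) := by
  have h1 : NEXP O fun e : Fin 3 → List Bool => stepS M (e 0) (e 1) (e 2) := by
    refine (((nexp_next M).reindex ![1, 2]).congr fun e => ?_).and (nexp_lenLe 2 0)
    simp
  exact nexp_reach (k := 1) (S := fun e a b => stepS M (e 0) a b) h1 (g := fun n => n) PolyB.id
    monotone_id (by
      rintro e a b ⟨-, h⟩
      exact h.trans (len_le_size e 0))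

theorem nexp_pair3 {k : ℕ} (i j l : Fin k) :
    NEXP O fun e : Fin k → List Bool => e l = pair (e i) (e j) := by
  refine ((nexp_pairRel (O := O)).reindex ![i, j, l]).congr fun e => ?_
  simp

/-- A configuration with given state and first stack. -/
theorem nexp_cfgState (q : ℕ) : NEXP O fun e : Fin 2 → List Bool =>
    ∃ Y : List Bool, e 0 = cfgS (q, e 1, Y) := by
  have h1 : NEXP O fun e : Fin 5 → List Bool => e 4 = List.replicate q true ∧
      e 3 = pair (e 1) (e 2) ∧ e 0 = pair (e 4) (e 3) :=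
    (nexp_const _ 4).and ((nexp_pair3 1 2 3).and (nexp_pair3 4 3 0))
  have h2 : NEXP O fun e : Fin 4 → List Bool => ∃ r, r = List.replicate q true ∧
      e 3 = pair (e 1) (e 2) ∧ e 0 = pair r (e 3) := by
    refine nexp_ex (R := fun e r => r = List.replicate q true ∧
      e 3 = pair (e 1) (e 2) ∧ e 0 = pair r (e 3)) h1 (g := fun n => n) PolyB.id ?_
    rintro e z ⟨-, -, h⟩
    have h3 := len_le_size e 0
    rw [h, length_pair] at h3
    omega
  have h3 : NEXP O fun e : Fin 3 → List Bool => ∃ w r, r = List.replicate q true ∧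
      w = pair (e 1) (e 2) ∧ e 0 = pair r w := by
    refine nexp_ex (R := fun e w => ∃ r, r = List.replicate q true ∧
      w = pair (e 1) (e 2) ∧ e 0 = pair r w) h2 (g := fun n => n) PolyB.id ?_
    rintro e z ⟨r, -, -, h⟩
    have h3 := len_le_size e 0
    rw [h, length_pair] at h3
    omega
  have h4 : NEXP O fun e : Fin 2 → List Bool => ∃ Y w r : List Bool,
      r = List.replicate q true ∧ w = pair (e 1) Y ∧ e 0 = pair r w := by
    refine nexp_ex (R := fun e Y => ∃ w r, r = List.replicate q true ∧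
      w = pair (e 1) Y ∧ e 0 = pair r w) h3 (g := fun n => n) PolyB.id ?_
    rintro e z ⟨w, r, -, h', h⟩
    have h3 := len_le_size e 0
    rw [h, length_pair, h', length_pair] at h3
    omega
  refine h4.congr fun e => ?_
  constructor
  · rintro ⟨Y, w, r, rfl, rfl, h⟩
    exact ⟨Y, h⟩
  · rintro ⟨Y, h⟩
    exact ⟨Y, _, _, rfl, rfl, h⟩

/-- The start configuration. -/
theorem nexp_start : NEXP O fun e : Fin 2 → List Bool => e 0 = cfgS (0, e 1, []) := by
  have h1 : NEXP O fun e : Fin 4 → List Bool => e 3 = [] ∧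
      e 2 = pair (e 1) (e 3) ∧ e 0 = pair (e 3) (e 2) :=
    (nexp_const _ 3).and ((nexp_pair3 1 3 2).and (nexp_pair3 3 2 0))
  have h2 : NEXP O fun e : Fin 3 → List Bool => ∃ r : List Bool, r = [] ∧
      e 2 = pair (e 1) r ∧ e 0 = pair r (e 2) := by
    refine nexp_ex (R := fun e r => r = [] ∧
      e 2 = pair (e 1) r ∧ e 0 = pair r (e 2)) h1 (g := fun n => n) PolyB.id ?_
    rintro e z ⟨rfl, -, -⟩
    exact Nat.zero_le _
  have h3 : NEXP O fun e : Fin 2 → List Bool => ∃ w r : List Bool, r = [] ∧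
      w = pair (e 1) r ∧ e 0 = pair r w := by
    refine nexp_ex (R := fun e w => ∃ r : List Bool, r = [] ∧
      w = pair (e 1) r ∧ e 0 = pair r w) h2 (g := fun n => n) PolyB.id ?_
    rintro e z ⟨r, -, -, h⟩
    have h3 := len_le_size e 0
    rw [h, length_pair] at h3
    omega
  refine h3.congr fun e => ?_
  constructor
  · rintro ⟨w, r, rfl, rfl, h⟩
    exact h
  · intro h
    exact ⟨_, _, rfl, rfl, h⟩

/-- The final configurations with first stack `e 1`. -/
theorem nexp_final (M : Mach) : NEXP O fun e : Fin 2 → List Bool =>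
    ∃ c : Cfg, (∃ b, M[c.1]? = some (.halt b)) ∧ c.2.1 = e 1 ∧ e 0 = cfgS c := by
  classical
  have h1 := NEXP.finite_exists (O := O)
    ((Finset.range M.length).filter fun q => ∃ b, M[q]? = some (.halt b))
    (R := fun q (e : Fin 2 → List Bool) => ∃ Y : List Bool, e 0 = cfgS (q, e 1, Y))
    (fun q _ => nexp_cfgState q)
  refine h1.congr fun e => ?_
  constructor
  · rintro ⟨q, hq, Y, h⟩
    exact ⟨(q, e 1, Y), (Finset.mem_filter.1 hq).2, rfl, h⟩
  · rintro ⟨⟨q, X, Y⟩, hb, rfl, h⟩
    refine ⟨q, Finset.mem_filter.2 ⟨?_, hb⟩, Y, h⟩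
    obtain ⟨b, hb⟩ := hb
    rw [Finset.mem_range]
    exact (List.getElem?_eq_some_iff.1 hb).1

theorem nexp_fp {f : List Bool → List Bool} (hf : f ∈ FPTime) :
    NEXP O fun e : Fin 2 → List Bool => e 1 = f (e 0) := by
  obtain ⟨M, c, hM⟩ := hf
  obtain ⟨Q, hQ⟩ := exists_state_bound M
  obtain ⟨C, hC⟩ : PolyB fun n => 3 * (n ^ c + c) + 2 * n + (2 * Q + 4) :=
    (((PolyB.const 3).mul ((PolyB.id.pow c).add (PolyB.const c))).add
      ((PolyB.const 2).mul PolyB.id)).add (PolyB.const _)
  have hlen : ∀ (x : List Bool) (t n : ℕ), t ≤ x.length ^ c + c → n ≤ t →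
      (cfgS (M.run x n)).length ≤ x.length ^ C + C := by
    intro x t n ht hn
    have h1 := Mach.run_length M x n
    have h2 := run_state_bound hQ x n
    have h3 := hC x.length
    rw [length_cfgS]
    simp only at h3
    omega
  -- the relation in all variables: x y u a z
  have h1 : NEXP O fun e : Fin 5 → List Bool =>
      (e 2).length = (e 0).length ^ C + C ∧ e 3 = cfgS (0, e 0, []) ∧
      (∃ c : Cfg, (∃ b, M[c.1]? = some (.halt b)) ∧ c.2.1 = e 1 ∧ e 4 = cfgS c) ∧
      Relation.ReflTransGen (stepS M (e 2)) (e 3) (e 4) := by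
    refine (nexp_powAdd C C 0 2).and (NEXP.and ?_ (NEXP.and ?_ ?_))
    · refine ((nexp_start (O := O)).reindex ![3, 0]).congr fun e => ?_
      simp
    · refine ((nexp_final M).reindex ![4, 1]).congr fun e => ?_
      simp
    · refine ((nexp_reachCfg M).reindex ![2, 3, 4]).congr fun e => ?_
      simp
  have hz : ∀ {u a z : List Bool}, Relation.ReflTransGen (stepS M u) a z →
      z.length ≤ u.length + a.length := by
    intro u a z h
    rcases Relation.ReflTransGen.cases_tail h with rfl | ⟨y, -, -, h⟩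
    · omega
    · omega
  have h2 : NEXP O fun e : Fin 4 → List Bool => ∃ z,
      (e 2).length = (e 0).length ^ C + C ∧ e 3 = cfgS (0, e 0, []) ∧
      (∃ c : Cfg, (∃ b, M[c.1]? = some (.halt b)) ∧ c.2.1 = e 1 ∧ z = cfgS c) ∧
      Relation.ReflTransGen (stepS M (e 2)) (e 3) z := by
    refine nexp_ex (R := fun e z => (e 2).length = (e 0).length ^ C + C ∧
      e 3 = cfgS (0, e 0, []) ∧
      (∃ c : Cfg, (∃ b, M[c.1]? = some (.halt b)) ∧ c.2.1 = e 1 ∧ z = cfgS c) ∧
      Relation.ReflTransGen (stepS M (e 2)) (e 3) z) h1 (g := fun n => n + n)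
      (PolyB.id.add PolyB.id) ?_
    rintro e z ⟨-, -, -, h⟩
    have h3 := hz h
    have h4 := len_le_size e 2
    have h5 := len_le_size e 3
    show _ ≤ size e + size e
    omega
  have h3 : NEXP O fun e : Fin 3 → List Bool => ∃ a z,
      (e 2).length = (e 0).length ^ C + C ∧ a = cfgS (0, e 0, []) ∧
      (∃ c : Cfg, (∃ b, M[c.1]? = some (.halt b)) ∧ c.2.1 = e 1 ∧ z = cfgS c) ∧
      Relation.ReflTransGen (stepS M (e 2)) a z := by
    refine nexp_ex (R := fun e a => ∃ z, (e 2).length = (e 0).length ^ C + C ∧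
      a = cfgS (0, e 0, []) ∧
      (∃ c : Cfg, (∃ b, M[c.1]? = some (.halt b)) ∧ c.2.1 = e 1 ∧ z = cfgS c) ∧
      Relation.ReflTransGen (stepS M (e 2)) a z) h2 (g := fun n => 2 * n + 4)
      (((PolyB.const 2).mul PolyB.id).add (PolyB.const 4)) ?_
    rintro e a ⟨z, -, rfl, -⟩
    have h4 := len_le_size e 0
    rw [length_cfgS]
    simp only [List.length_nil]
    omega
  have h4 : NEXP O fun e : Fin 2 → List Bool => ∃ u a z : List Bool,
      u.length = (e 0).length ^ C + C ∧ a = cfgS (0, e 0, []) ∧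
      (∃ c : Cfg, (∃ b, M[c.1]? = some (.halt b)) ∧ c.2.1 = e 1 ∧ z = cfgS c) ∧
      Relation.ReflTransGen (stepS M u) a z := by
    refine nexp_ex (R := fun e u => ∃ a z : List Bool, u.length = (e 0).length ^ C + C ∧
      a = cfgS (0, e 0, []) ∧
      (∃ c : Cfg, (∃ b, M[c.1]? = some (.halt b)) ∧ c.2.1 = e 1 ∧ z = cfgS c) ∧
      Relation.ReflTransGen (stepS M u) a z) h3 (g := fun n => n ^ C + C)
      ((PolyB.id.pow C).add (PolyB.const C)) ?_
    rintro e u ⟨a, z, h, -⟩
    rw [h]
    have h5 := Nat.pow_le_pow_left (len_le_size e 0) C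
    show _ ≤ size e ^ C + C
    omega
  refine h4.congr fun e => ?_
  obtain ⟨t, ht, b, hb1, hb2⟩ := hM (e 0)
  constructor
  · rintro ⟨u, a, z, -, rfl, ⟨cf, ⟨b', hb'⟩, h5, h6⟩, h7⟩
    obtain ⟨n, hn⟩ := reach_run h7
    have h8 : cf = M.run (e 0) n := cfgS_injective (h6.symm.trans hn)
    subst h8
    rw [← h5, ← hb2]
    rcases le_total n t with h9 | h9
    · rw [Mach.run_halt h9 hb']
    · rw [Mach.run_halt h9 hb1]
  · intro h
    refine ⟨List.replicate ((e 0).length ^ C + C) true, _, cfgS (M.run (e 0) t), by simp, rfl,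
      ⟨M.run (e 0) t, ⟨b, hb1⟩, hb2.trans h.symm, rfl⟩, run_reach fun n hn => ?_⟩
    rw [List.length_replicate]
    exact hlen _ t n ht hn

end Pool.Agent.LibBHN
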