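import Pool.Agent.LibBHN.MachGraph
import Pool.Agent.LibBHN.PNexp
import Pool.Agent.LibBHN.Univ

/-! Task NX-7,8: `P^NEXP` by machines and by protocols. -/

namespace Pool.Agent.LibBHN

open Function Pool.Agent.LibNexp

variable {O : List Bool → Bool}

theorem PoracleA_lt (c : ℕ) :
    NEXP O fun e : Fin 2 → List Bool => (e 1).length < (e 0).length ^ c + c := by
  have h1 : NEXP O fun e : Fin 4 → List Bool => (e 2).length = (e 0).length ^ c + c ∧
      (e 3).length = 1 * (e 1).length + 1 ∧ (e 3).length ≤ (e 2).length :=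
    (nexp_powAdd c c 0 2).and ((nexp_lin 1 1 1 3).and (nexp_lenLe 3 2))
  have h2 := nexp_ex (R := fun (e : Fin 3 → List Bool) z =>
      (e 2).length = (e 0).length ^ c + c ∧ z.length = 1 * (e 1).length + 1 ∧
        z.length ≤ (e 2).length) h1 (g := fun n => n) PolyB.id (by
      rintro e z ⟨_, _, h⟩
      exact h.trans (len_le_size e 2))
  have h3 := nexp_ex (R := fun (e : Fin 2 → List Bool) w => ∃ z : List Bool,
      w.length = (e 0).length ^ c + c ∧ z.length = 1 * (e 1).length + 1 ∧
        z.length ≤ w.length) h2 (g := fun n => n ^ c + c) (PolyB.id.comp_pow c) (by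
      rintro e w ⟨_, h, _⟩
      rw [h]
      have := Nat.pow_le_pow_left (len_le_size e 0) c
      show _ ≤ size e ^ c + c
      omega)
  refine h3.congr fun e => ?_
  constructor
  · rintro ⟨w, z, h1, h2, h3⟩
    omega
  · intro h
    refine ⟨List.replicate ((e 0).length ^ c + c) false,
      List.replicate ((e 1).length + 1) false, by simp, by simp, ?_⟩
    simp only [List.length_replicate]
    omega

theorem PoracleA_ge (c : ℕ) :
    NEXP O fun e : Fin 2 → List Bool => (e 0).length ^ c + c ≤ (e 1).length := by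
  have h1 : NEXP O fun e : Fin 3 → List Bool => (e 2).length = (e 0).length ^ c + c ∧
      (e 2).length ≤ (e 1).length :=
    (nexp_powAdd c c 0 2).and (nexp_lenLe 2 1)
  have h3 := nexp_ex (R := fun (e : Fin 2 → List Bool) w =>
      w.length = (e 0).length ^ c + c ∧ w.length ≤ (e 1).length) h1 (g := fun n => n) PolyB.id (by
      rintro e w ⟨_, h⟩
      exact h.trans (len_le_size e 1))
  refine h3.congr fun e => ?_
  constructor
  · rintro ⟨w, h1, h2⟩
    omega
  · intro h
    exact ⟨List.replicate ((e 0).length ^ c + c) false, by simp, by simpa using h⟩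

theorem PoracleA_query {f : List Bool → List Bool} (hf : f ∈ FPTime) {A : Lang}
    (hA : A ∈ NEXPLang O) :
    NEXP O fun e : Fin 2 → List Bool => f (pair (e 0) (e 1)) ∈ A := by
  obtain ⟨K, hK⟩ := fp_length hf
  have h0 : NEXP O fun e : Fin 2 → List Bool => e 1 = f (e 0) ∧ e 1 ∈ A :=
    (nexp_fp hf).and (nexp_mem hA 1)
  have h1 := nexp_ex (R := fun (e : Fin 1 → List Bool) z => z = f (e 0) ∧ z ∈ A) h0
    (g := fun n => n ^ K + K) (PolyB.id.comp_pow K) (by
      rintro e z ⟨rfl, _⟩
      have h2 := hK (e 0)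
      have := Nat.pow_le_pow_left (len_le_size e 0) K
      show _ ≤ size e ^ K + K
      omega)
  have h2 : {u : List Bool | f u ∈ A} ∈ NEXPLang O := by
    refine h1.congr fun e => ?_
    simp
  exact nexp_pair_mem h2 0 1

theorem poracle_subset : POracle (NEXPLang O) ⊆ PNEXP O := by
  rintro L ⟨A, hA, f, hf, G, hG, c, hL⟩
  obtain ⟨B, hB, hBC⟩ := rel_of_nexp (O := O) (C := fun x α =>
    (α.length < x.length ^ c + c ∧ f (pair x α) ∈ A) ∨
      (x.length ^ c + c ≤ α.length ∧ pair x α ∈ G))
    (((PoracleA_lt c).and (PoracleA_query hf hA)).or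
      ((PoracleA_ge c).and (nexp_pair_mem (nexp_ptime hG).1 0 1)))
  refine ⟨B, hB, c, fun x => ?_⟩
  have key : ∀ i, i ≤ x.length ^ c + c → ans B x i = answers f A x i := by
    intro i
    induction i with
    | zero => intro _; rfl
    | succ i ih =>
      intro hi
      rw [ans, answers, ih (by omega)]
      congr 2
      rw [decide_eq_decide, hBC, length_answers]
      constructor
      · rintro (⟨_, h⟩ | ⟨h, _⟩)
        · exact h
        · omega
      · intro h
        exact Or.inl ⟨by omega, h⟩
  rw [hL x, key _ le_rfl, hBC, length_answers]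
  constructor
  · intro h
    exact Or.inr ⟨le_rfl, h⟩
  · rintro (⟨h, _⟩ | ⟨_, h⟩)
    · exact absurd h (lt_irrefl _)
    · exact h

end Pool.Agent.LibBHN
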