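import Pool.Agent.LibBHN.MachBasic
import Pool.Agent.LibBHN.Misc
import Pool.Agent.LibBHN.PNexp

/-! Task NX-7,8: `P^NEXP` by machines and by protocols. -/

namespace Pool.Agent.LibBHN

open Function Pool.Agent.LibNexp

variable {O : List Bool → Bool}

/-- The relation used for `pnexp_subset`. -/
def PbRel (C : Lang) (c : ℕ) (x α : List Bool) : Prop :=
  (α.length ≤ x.length ^ c + c ∧ pair x α ∈ C) ∨
    (x.length ^ c + (c + 1) ≤ α.length ∧ ∃ β, α = β ++ [true])

theorem nexp_PbRel {C : Lang} (hC : C ∈ NEXPLang O) (c : ℕ) :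
    NEXP O fun e : Fin 2 → List Bool => PbRel C c (e 0) (e 1) := by
  have hA : NEXP O fun e : Fin 2 → List Bool => ∃ z : List Bool,
      z.length = (e 0).length ^ c + c ∧ (e 1).length ≤ z.length := by
    refine nexp_ex (R := fun (e : Fin 2 → List Bool) z => z.length = (e 0).length ^ c + c ∧
      (e 1).length ≤ z.length) ((nexp_powAdd c c 0 2).and (nexp_lenLe 1 2))
      (g := fun n => n ^ c + c) ((PolyB.id.pow c).add (PolyB.const c)) ?_
    rintro e z ⟨h, -⟩
    rw [h]
    exact Nat.add_le_add_right (Nat.pow_le_pow_left (len_le_size e 0) c) c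
  have hB : NEXP O fun e : Fin 2 → List Bool => ∃ z : List Bool,
      z.length = (e 0).length ^ c + (c + 1) ∧ z.length ≤ (e 1).length := by
    refine nexp_ex (R := fun (e : Fin 2 → List Bool) z => z.length = (e 0).length ^ c + (c + 1) ∧
      z.length ≤ (e 1).length) ((nexp_powAdd c (c + 1) 0 2).and (nexp_lenLe 2 1))
      (g := fun n => n) PolyB.id ?_
    rintro e z ⟨-, h⟩
    exact h.trans (len_le_size e 1)
  have hD : NEXP O fun e : Fin 2 → List Bool => ∃ z : List Bool, e 1 = z ++ [true] := by
    refine nexp_ex (R := fun (e : Fin 2 → List Bool) z => e 1 = z ++ [true]) (nexp_snoc true 2 1)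
      (g := fun n => n) PolyB.id ?_
    intro e z h
    have := len_le_size e 1
    rw [h, List.length_append] at this
    omega
  refine ((hA.and (nexp_pair_mem hC 0 1)).or (hB.and hD)).congr fun e => ?_
  unfold PbRel
  constructor
  · rintro (⟨⟨z, h1, h2⟩, h3⟩ | ⟨⟨z, h1, h2⟩, h3⟩)
    · exact Or.inl ⟨h1 ▸ h2, h3⟩
    · exact Or.inr ⟨h1 ▸ h2, h3⟩
  · rintro (⟨h1, h2⟩ | ⟨h1, h2⟩)
    · exact Or.inl ⟨⟨List.replicate ((e 0).length ^ c + c) true, by simp, by simpa using h1⟩, h2⟩
    · exact Or.inr ⟨⟨List.replicate ((e 0).length ^ c + (c + 1)) true, by simp,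
        by simpa using h1⟩, h2⟩

theorem pnexp_subset : PNEXP O ⊆ POracle (NEXPLang O) := by
  classical
  rintro L ⟨C, hC, c, hL⟩
  obtain ⟨A, hA, hAR⟩ := rel_of_nexp (C := PbRel C c) (nexp_PbRel hC c)
  refine ⟨A, hA, fun x => x, id_mem, _, last_mem, c + 2, fun x => ?_⟩
  -- the first answers
  have h1 : ∀ i ≤ x.length ^ c + (c + 1), answers (fun x => x) A x i = ans C x i := by
    intro i
    induction i with
    | zero => intro _; rfl
    | succ i ih =>
      intro hi
      have ih' := ih (by omega)
      have hlen : (ans C x i).length = i := length_ans C x i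
      have h2 : pair x (ans C x i) ∈ A ↔ pair x (ans C x i) ∈ C := by
        rw [hAR, PbRel, hlen]
        constructor
        · rintro (⟨-, h⟩ | ⟨h, -⟩)
          · exact h
          · omega
        · intro h
          exact Or.inl ⟨by omega, h⟩
      rw [answers, ans, ih']
      simp only [h2]
  have h3 : ∀ i, (answers (fun x => x) A x (x.length ^ c + (c + 1) + i)).getLast?
      = some (decide (x ∈ L)) := by
    intro i
    induction i with
    | zero =>
      rw [Nat.add_zero, h1 _ le_rfl]
      have h4 : x.length ^ c + (c + 1) = (x.length ^ c + c) + 1 := by ring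
      rw [h4, ans, List.getLast?_concat]
      congr 1
      rw [decide_eq_decide]
      exact (hL x).symm
    | succ i ih =>
      rw [← Nat.add_assoc, answers, List.getLast?_concat]
      congr 1
      rw [decide_eq_decide, hAR, PbRel, length_answers]
      set α := answers (fun x => x) A x (x.length ^ c + (c + 1) + i) with hα
      constructor
      · rintro (⟨h, -⟩ | ⟨-, β, hβ⟩)
        · omega
        · rw [hβ, List.getLast?_concat] at ih
          simpa using ih.symm
      · intro hx
        refine Or.inr ⟨by omega, ?_⟩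
        have hd : decide (x ∈ L) = true := by simpa using hx
        rw [hd, List.getLast?_eq_some_iff] at ih
        exact ih
  have h5 : ∃ i, x.length ^ (c + 2) + (c + 2) = x.length ^ c + (c + 1) + i := by
    refine Nat.exists_eq_add_of_le ?_
    rcases Nat.eq_zero_or_pos x.length with h0 | h0
    · rw [h0]
      rcases Nat.eq_zero_or_pos c with hc | hc
      · subst hc; norm_num
      · rw [zero_pow hc.ne', zero_pow (show c + 2 ≠ 0 by omega)]; omega
    · have := Nat.pow_le_pow_right h0 (show c ≤ c + 2 by omega)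
      omega
  obtain ⟨i, hi⟩ := h5
  rw [hi]
  have h6 := h3 i
  set α := answers (fun x => x) A x (x.length ^ c + (c + 1) + i) with hα
  show x ∈ L ↔ (pair x α).getLast? = some true
  rw [List.getLast?_eq_some_iff] at h6
  obtain ⟨β, hβ⟩ := h6
  rw [hβ, pair, ← List.append_assoc, List.getLast?_concat]
  simp

theorem poracle_compl {𝒞 : Set Lang} {L : Lang} (hL : L ∈ POracle 𝒞) : Lᶜ ∈ POracle 𝒞 := by
  obtain ⟨A, hA, f, hf, G, hG, c, h⟩ := hL
  refine ⟨A, hA, f, hf, Gᶜ, ptime_compl hG, c, fun x => ?_⟩
  rw [Set.mem_compl_iff, Set.mem_compl_iff, h x]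

end Pool.Agent.LibBHN
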