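import Pool.Agent.LibNexp.Closure
import Pool.Agent.LibNexp.Rel

/-!
Reachability by a relation of the class through strings of polynomial length.
-/

namespace Pool.Agent.LibBHN

open Function Pool.Agent.LibNexp

variable {O : List Bool → Bool}

/-- An injective coding of strings by numbers. -/
def code : List Bool → ℕ
  | [] => 1
  | b :: l => b.toNat + 2 * code l

theorem code_pos : ∀ l : List Bool, 1 ≤ code l
  | [] => le_rfl
  | b :: l => by have := code_pos l; simp only [code]; omega

theorem code_lt : ∀ l : List Bool, code l < 2 ^ (l.length + 1)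
  | [] => by simp [code]
  | b :: l => by
    have := code_lt l
    have := Bool.toNat_le b
    simp only [code, List.length_cons]
    rw [pow_succ]
    omega

theorem code_injective : Injective code := by
  intro l
  induction l with
  | nil =>
    intro l' h
    cases l' with
    | nil => rfl
    | cons b l' => have := code_pos l'; simp only [code] at h; omega
  | cons b l ih =>
    intro l' h
    cases l' with
    | nil => have := code_pos l; simp only [code] at h; omega
    | cons b' l' =>
      simp only [code] at h
      have h1 : b = b' := by cases b <;> cases b' <;> simp at h ⊢ <;> omega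
      subst h1
      have h2 : code l = code l' := by omega
      rw [ih h2]

/-- A shortest path visits distinct points. -/
theorem exists_short_path {r : List Bool → List Bool → Prop} {a b : List Bool} {G : ℕ}
    (hG : ∀ x y, r x y → y.length ≤ G) (h : Relation.ReflTransGen r a b) :
    ∃ (n : ℕ) (f : ℕ → List Bool), n ≤ 2 ^ (G + 1) ∧ f 0 = a ∧ f n = b ∧
      ∀ i < n, r (f i) (f (i + 1)) := by
  classical
  have hex : ∃ n, ∃ f : ℕ → List Bool, f 0 = a ∧ f n = b ∧ ∀ i < n, r (f i) (f (i + 1)) := by
    induction h with
    | refl => exact ⟨0, fun _ => a, rfl, rfl, fun i hi => by omega⟩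
    | @tail c d _ hcd ih =>
      obtain ⟨n, f, h0, h1, h2⟩ := ih
      refine ⟨n + 1, fun i => if i ≤ n then f i else d, by simp [h0], by simp, fun i hi => ?_⟩
      rcases Nat.lt_or_ge i n with h3 | h3
      · simp only [show i ≤ n by omega, if_true, show i + 1 ≤ n by omega]
        exact h2 i h3
      · have : i = n := by omega
        subst this
        simp only [le_refl, if_true, show ¬ (i + 1 ≤ i) by omega, if_false, h1]
        exact hcd
  obtain ⟨f, h0, h1, h2⟩ := Nat.find_spec hex
  set n := Nat.find hex with hn
  refine ⟨n, f, ?_, h0, h1, h2⟩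
  have hinj : ∀ i j, i < j → j ≤ n → f i ≠ f j := by
    intro i j hij hj heq
    refine Nat.find_min hex (m := n - (j - i)) (by omega)
      ⟨fun m => if m ≤ i then f m else f (m + (j - i)), by simp [h0], ?_, fun m hm => ?_⟩
    · show (if n - (j - i) ≤ i then f (n - (j - i)) else f (n - (j - i) + (j - i))) = b
      by_cases h3 : n - (j - i) ≤ i
      · have h4 : j = n := by omega
        have h5 : n - (j - i) = i := by omega
        rw [if_pos h3, h5, heq, h4, h1]
      · rw [if_neg h3, Nat.sub_add_cancel (by omega), h1]
    · rcases Nat.lt_trichotomy m i with h3 | h3 | h3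
      · simp only [show m ≤ i by omega, if_true, show m + 1 ≤ i by omega]
        exact h2 m (by omega)
      · subst h3
        simp only [le_refl, if_true, show ¬ (m + 1 ≤ m) by omega, if_false]
        rw [heq]
        have := h2 j (by omega)
        rwa [show m + 1 + (j - m) = j + 1 by omega]
      · simp only [show ¬ (m ≤ i) by omega, if_false, show ¬ (m + 1 ≤ i) by omega]
        have := h2 (m + (j - i)) (by omega)
        rwa [show m + 1 + (j - i) = m + (j - i) + 1 by omega]
  have hlen : ∀ i < n, (f (i + 1)).length ≤ G := fun i hi => hG _ _ (h2 i hi)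
  have hcard : (Finset.range n).card ≤ (Finset.range (2 ^ (G + 1))).card := by
    refine Finset.card_le_card_of_injOn (fun i => code (f (i + 1))) (fun i hi => ?_) ?_
    · simp only [Finset.coe_range, Set.mem_Iio] at hi ⊢
      exact lt_of_lt_of_le (code_lt _) (Nat.pow_le_pow_right (by norm_num)
        (by have := hlen i hi; omega))
    · intro i hi j hj hij
      simp only [Finset.coe_range, Set.mem_Iio] at hi hj
      have h3 := code_injective hij
      by_contra hne
      rcases Nat.lt_or_gt_of_ne hne with h4 | h4
      · exact hinj (i + 1) (j + 1) (by omega) (by omega) h3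
      · exact hinj (j + 1) (i + 1) (by omega) (by omega) h3.symm
  simpa using hcard

theorem nexp_eq {k : ℕ} (i j : Fin k) : NEXP O fun e : Fin k → List Bool => e i = e j := by
  have h : NEXP O fun e : Fin 3 → List Bool => e 2 = e 0 := by
    refine (nexp_subst (O := O) (fun b => [b]) (fun _ => []) []).congr fun e => ?_
    have h1 : (e 0).flatMap (fun b => [b]) = e 0 := by simp
    have h2 : (e 1).flatMap (fun _ => ([] : List Bool)) = [] := by simp
    rw [h1, h2]
    simp
  exact (h.reindex ![j, j, i]).congr fun e => by simp

/-- One step of the walk: guess a string, test the relation, replace the current string. -/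
def walkStep (k : ℕ) (p : Prog) : Prog :=
  .seq (guess (k + 2)) (.seq p (.seq (clear k) (.seq (copy (k + 2) k (k + 3)) (clear (k + 2)))))

/-- The stacks passed to the test. -/
def walkRs (k : ℕ) : Fin (k + 2) → ℕ := fun j => if (j : ℕ) = k + 1 then k + 2 else j

theorem walk_args {k : ℕ} {σ : State} {z : List Bool} :
    (fun j => update σ (k + 2) z (walkRs k j)) =
      app (app (fun j : Fin k => σ j) (σ k)) z := by
  funext j
  unfold walkRs app
  refine Fin.lastCases ?_ (fun j => ?_) j
  · simp
  · rw [Fin.snoc_castSucc]
    refine Fin.lastCases ?_ (fun j => ?_) j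
    · simp
    · rw [Fin.snoc_castSucc]
      have := j.2
      simp only [Fin.val_castSucc]
      rw [if_neg (by omega), update_of_ne (by omega)]

theorem walkStep_sound {k : ℕ} {p : Prog} {R : (Fin (k + 2) → List Bool) → Prop}
    {T : State → ℕ} (hp : IsTest O (k + 3) (fun σ => R fun j => σ (walkRs k j)) T p)
    {σ σ' : State} {t : ℕ} (hq : Quiet (k + 2) σ) (h : Run O (walkStep k p) t σ σ') :
    ∃ z, R (app (app (fun j : Fin k => σ j) (σ k)) z) ∧ σ' = update σ k z := by
  obtain ⟨t1, t2, τ1, -, h1, t3, t4, τ2, -, h2, t5, t6, τ3, -, h3, t7, t8, τ4, -, h4, h5⟩ := h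
  rw [run_guess] at h1
  obtain ⟨z, -, rfl⟩ := h1
  have e1 : σ (k + 2) = [] := hq _ le_rfl
  rw [e1, List.append_nil] at h2
  have hq1 : Quiet (k + 3) (update σ (k + 2) z) := by
    intro r hr
    rw [update_of_ne (by omega)]
    exact hq r (by omega)
  obtain ⟨rfl, h6⟩ := (hp _ hq1).1 _ _ h2
  rw [walk_args] at h6
  rw [run_clear] at h3
  obtain ⟨-, rfl⟩ := h3
  have e2 : update (update σ (k + 2) z) k [] (k + 3) = [] := by
    rw [update_of_ne (by omega)]
    exact hq1 _ le_rfl
  rw [run_copy (by omega) (by omega) (by omega) e2] at h4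
  obtain ⟨-, rfl⟩ := h4
  rw [run_clear] at h5
  obtain ⟨-, rfl⟩ := h5
  refine ⟨z, h6, ?_⟩
  funext r
  by_cases h7 : r = k + 2
  · subst h7
    rw [update_self, update_of_ne (by omega), e1]
  · rw [update_of_ne h7]
    by_cases h8 : r = k
    · subst h8
      simp
    · rw [update_of_ne h8, update_of_ne h8, update_of_ne h7, update_of_ne h8]

theorem walkStep_complete {k : ℕ} {p : Prog} {R : (Fin (k + 2) → List Bool) → Prop}
    {T : State → ℕ} (hp : IsTest O (k + 3) (fun σ => R fun j => σ (walkRs k j)) T p)
    {σ : State} {z : List Bool} (hq : Quiet (k + 2) σ)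
    (h : R (app (app (fun j : Fin k => σ j) (σ k)) z)) :
    ∃ t, t ≤ 7 * z.length + (σ k).length + T (update σ (k + 2) z) + 4 ∧
      Run O (walkStep k p) t σ (update σ k z) := by
  have e1 : σ (k + 2) = [] := hq _ le_rfl
  have hq1 : Quiet (k + 3) (update σ (k + 2) z) := by
    intro r hr
    rw [update_of_ne (by omega)]
    exact hq r (by omega)
  have hR : R fun j => update σ (k + 2) z (walkRs k j) := by rw [walk_args]; exact h
  obtain ⟨t2, ht2, h2⟩ := (hp _ hq1).2 hR
  have e2 : update (update σ (k + 2) z) k [] (k + 3) = [] := by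
    rw [update_of_ne (by omega)]
    exact hq1 _ le_rfl
  have e3 : update σ (k + 2) z k = σ k := by
    rw [update_of_ne (by omega)]
  have h1 : Run O (guess (k + 2)) z.length σ (update σ (k + 2) z) := by
    rw [run_guess]
    exact ⟨z, rfl, by rw [e1, List.append_nil]⟩
  have h3 : Run O (clear k) ((σ k).length + 1) (update σ (k + 2) z)
      (update (update σ (k + 2) z) k []) := by
    rw [run_clear, e3]
    exact ⟨rfl, rfl⟩
  have h4 : Run O (copy (k + 2) k (k + 3)) (5 * z.length + 2)
      (update (update σ (k + 2) z) k []) (update (update (update σ (k + 2) z) k []) k z) := by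
    rw [run_copy (by omega) (by omega) (by omega) e2]
    rw [update_of_ne (show k + 2 ≠ k by omega), update_self, update_self, List.append_nil]
    exact ⟨rfl, rfl⟩
  have h5 : Run O (clear (k + 2)) (z.length + 1)
      (update (update (update σ (k + 2) z) k []) k z)
      (update (update (update (update σ (k + 2) z) k []) k z) (k + 2) []) := by
    rw [run_clear, update_of_ne (show k + 2 ≠ k by omega), update_of_ne (show k + 2 ≠ k by omega),
      update_self]
    exact ⟨rfl, rfl⟩
  have hfin : update (update (update (update σ (k + 2) z) k []) k z) (k + 2) [] =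
      update σ k z := by
    funext r
    by_cases h7 : r = k + 2
    · subst h7
      rw [update_self, update_of_ne (by omega), e1]
    · rw [update_of_ne h7]
      by_cases h8 : r = k
      · subst h8
        simp
      · rw [update_of_ne h8, update_of_ne h8, update_of_ne h7, update_of_ne h8]
  rw [hfin] at h5
  refine ⟨z.length + (t2 + ((σ k).length + 1 + (5 * z.length + 2 + (z.length + 1)))), by omega,
    _, _, _, rfl, h1, _, _, _, rfl, h2, _, _, _, rfl, h3, _, _, _, rfl, h4, h5⟩

/-- The first `k` inputs. -/
def low {k m : ℕ} (h : k ≤ m) (e : Fin m → List Bool) : Fin k → List Bool :=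
  fun j => e (Fin.castLE h j)

theorem low_app2 {k : ℕ} (e : Fin k → List Bool) (a b : List Bool) :
    low (Nat.le_add_right k 2) (app (app e a) b) = e := by
  funext j
  unfold low app
  have h1 : Fin.castLE (Nat.le_add_right k 2) j = (j.castSucc).castSucc := by
    ext; simp
  rw [h1, Fin.snoc_castSucc, Fin.snoc_castSucc]

theorem app2_k {k : ℕ} (e : Fin k → List Bool) (a b : List Bool) :
    app (app e a) b (Fin.castSucc (Fin.last k)) = a ∧ app (app e a) b (Fin.last (k + 1)) = b := by
  unfold app
  constructor
  · rw [Fin.snoc_castSucc, Fin.snoc_last]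
  · rw [Fin.snoc_last]

theorem app_eta2 {k : ℕ} (e : Fin (k + 2) → List Bool) :
    app (app (low (Nat.le_add_right k 2) e) (e (Fin.castSucc (Fin.last k)))) (e (Fin.last (k + 1))) = e := by
  funext j
  unfold app low
  refine Fin.lastCases ?_ (fun j => ?_) j
  · rw [Fin.snoc_last]
  · rw [Fin.snoc_castSucc]
    refine Fin.lastCases ?_ (fun j => ?_) j
    · rw [Fin.snoc_last]
    · rw [Fin.snoc_castSucc]
      congr 1

theorem size_mono_app {k : ℕ} (e : Fin (k + 2) → List Bool) :
    size e = size (low (Nat.le_add_right k 2) e) + (e (Fin.castSucc (Fin.last k))).length +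
      (e (Fin.last (k + 1))).length := by
  conv_lhs => rw [← app_eta2 e]
  rw [size_app, size_app]

/-- Reachability through strings of polynomial length stays in the class. -/
theorem nexp_reach {k : ℕ} {S : (Fin k → List Bool) → List Bool → List Bool → Prop}
    (hS : NEXP O fun e : Fin (k + 2) → List Bool =>
      S (low (Nat.le_add_right k 2) e) (e (Fin.castSucc (Fin.last k))) (e (Fin.last (k + 1))))
    {g : ℕ → ℕ} (hg : PolyB g) (hgm : Monotone g) (hbound : ∀ e a b, S e a b → b.length ≤ g (size e)) :
    NEXP O fun e : Fin (k + 2) → List Bool =>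
      Relation.ReflTransGen (S (low (Nat.le_add_right k 2) e))
        (e (Fin.castSucc (Fin.last k))) (e (Fin.last (k + 1))) := by
  obtain ⟨T, hT, hmono, h⟩ := isTest_nexp hS
  obtain ⟨p, hp⟩ := h (k + 3) (walkRs k) (fun j => by
    unfold walkRs; have := j.2; split_ifs <;> omega)
  set R : (Fin (k + 2) → List Bool) → Prop := fun e => S (low (Nat.le_add_right k 2) e)
    (e (Fin.castSucc (Fin.last k))) (e (Fin.last (k + 1))) with hR
  replace hp : IsTest O (k + 3) (fun σ => R fun j => σ (walkRs k j))
    (fun σ => T (size fun j => σ (walkRs k j))) p := hp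
  have heq := nexp_eq (O := O) (k := k + 2) (Fin.castSucc (Fin.last k)) (Fin.last (k + 1))
  obtain ⟨Tq, hTq, hmonoq, hq⟩ := isTest_nexp heq
  obtain ⟨q, hq⟩ := hq (k + 2) (fun j => j) (fun j => j.2)
  rw [nexp_iff]
  refine ⟨fun n => 2 ^ (g n + 1) * (8 * (g n + n) + T (n + (g n + n) + g n) + 4) +
      Tq (n + n + g n), ?_, .seq (.star (walkStep k p)) q, fun e => ?_⟩
  · refine EP.add (EP.mul (EP.pow2 hg.succ) (EP.add (EP.add (EP.of_poly
      ((PolyB.const 8).mul (hg.add PolyB.id))) (hT.comp ((PolyB.id.add (hg.add PolyB.id)).add hg)))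
      (EP.const 4))) (hTq.comp ((PolyB.id.add PolyB.id).add hg))
  -- invariants of the walk
  set e0 := low (Nat.le_add_right k 2) e with he0
  set a := e (Fin.castSucc (Fin.last k)) with ha
  set u := e (Fin.last (k + 1)) with hu
  have hlow : ∀ z, (fun j : Fin k => update (init e) k z j) = e0 := by
    intro z
    funext j
    have := j.2
    rw [update_of_ne (by omega)]
    have h1 := init_apply e (Fin.castLE (Nat.le_add_right k 2) j)
    simpa [he0, low] using h1
  have hk : init e k = a := by
    have h1 := init_apply e (Fin.castSucc (Fin.last k))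
    simpa using h1
  have hk1 : init e (k + 1) = u := by
    have h1 := init_apply e (Fin.last (k + 1))
    simpa using h1
  have hquiet : ∀ z, Quiet (k + 2) (update (init e) k z) := by
    intro z r hr
    rw [update_of_ne (by omega)]
    exact quiet_init e r hr
  have hcur : ∀ z, update (init e) k z k = z := fun z => update_self _ _ _
  have hself : update (init e) k a = init e := by rw [← hk, update_eq_self]
  have hargs : ∀ z, (fun j : Fin (k + 2) => update (init e) k z j) = app (app e0 z) u := by
    intro z
    funext j
    unfold app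
    refine Fin.lastCases ?_ (fun j => ?_) j
    · rw [Fin.snoc_last]
      simp only [Fin.val_last]
      rw [update_of_ne (by omega), hk1]
    · rw [Fin.snoc_castSucc]
      refine Fin.lastCases ?_ (fun j => ?_) j
      · rw [Fin.snoc_last]
        simp
      · rw [Fin.snoc_castSucc]
        have := congrFun (hlow z) j
        simpa using this
  constructor
  · rintro t σ' ⟨t1, t2, τ, -, h1, h2⟩
    change Iter _ t1 _ _ at h1
    have key : ∃ z, τ = update (init e) k z ∧ Relation.ReflTransGen (S e0) a z := by
      rw [← hself] at h1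
      generalize hρ : update (init e) k a = ρ at h1
      have : ∃ z, ρ = update (init e) k z ∧ Relation.ReflTransGen (S e0) a z :=
        ⟨a, hρ.symm, .refl⟩
      clear hρ
      induction h1 with
      | nil σ => exact this
      | cons h3 _ ih =>
        obtain ⟨z, rfl, h4⟩ := this
        obtain ⟨z', h5, h6⟩ := walkStep_sound hp (hquiet z) h3
        refine ih h2 ⟨z', ?_, h4.tail ?_⟩
        · rw [h6, update_idem]
        · rw [hlow, hcur, hR] at h5
          simpa only [low_app2, (app2_k _ _ _).1, (app2_k _ _ _).2] using h5
    obtain ⟨z, rfl, h4⟩ := key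
    have h5 := ((hq _ (hquiet z)).1 _ _ h2).2
    have h6 : z = u := by
      have h7 : (fun j : Fin (k + 2) => update (init e) k z j) (Fin.castSucc (Fin.last k)) =
        (fun j : Fin (k + 2) => update (init e) k z j) (Fin.last (k + 1)) := h5
      rwa [hargs, (app2_k _ _ _).1, (app2_k _ _ _).2] at h7
    subst h6
    exact h4
  · intro hreach
    obtain ⟨n, f, hn, f0, fn, hf⟩ := exists_short_path (hbound e0) hreach
    set N := size e with hN
    have hN0 : size e0 + a.length + u.length = N := (size_mono_app e).symm
    have hgN : g (size e0) ≤ g N := hgm (by omega)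
    have hflen : ∀ i ≤ n, (f i).length ≤ g N + N := by
      intro i hi
      rcases Nat.eq_zero_or_pos i with rfl | hpos
      · rw [f0]; show a.length ≤ _; omega
      · have := hbound _ _ _ (hf (i - 1) (by omega))
        rw [Nat.sub_add_cancel hpos] at this
        omega
    have hflen' : ∀ i < n, (f (i + 1)).length ≤ g N := fun i hi =>
      le_trans (hbound _ _ _ (hf i hi)) hgN
    have hsteps : ∀ i ≤ n, ∃ t, t ≤ i * (8 * (g N + N) + T (N + (g N + N) + g N) + 4) ∧
        Iter (Run O (walkStep k p)) t (init e) (update (init e) k (f i)) := by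
      intro i
      induction i with
      | zero =>
        intro _
        rw [f0, hself]
        exact ⟨0, by simp, Iter.nil _⟩
      | succ i ih =>
        intro hi
        obtain ⟨t, ht, h1⟩ := ih (by omega)
        have h2 : R (app (app (fun j : Fin k => update (init e) k (f i) j)
            (update (init e) k (f i) k)) (f (i + 1))) := by
          rw [hlow, hcur, hR]
          simp only [low_app2, (app2_k _ _ _).1, (app2_k _ _ _).2]
          exact hf i (by omega)
        obtain ⟨t', ht', h3⟩ := walkStep_complete hp (hquiet (f i)) h2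
        rw [hcur, update_idem] at *
        refine ⟨t + t', ?_, h1.trans (Iter.single h3)⟩
        have h4 := hflen i (by omega)
        have h5 := hflen' i (by omega)
        have h6 : size (fun j => update (update (init e) k (f i)) (k + 2) (f (i + 1)) (walkRs k j)) ≤
            N + (g N + N) + g N := by
          rw [walk_args, hlow, hcur, size_app, size_app]
          omega
        have h7 := hmono h6
        rw [Nat.succ_mul]
        omega
    obtain ⟨t, ht, h1⟩ := hsteps n le_rfl
    rw [fn] at h1
    obtain ⟨t', ht', h2⟩ := (hq _ (hquiet u)).2 (by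
      show (fun j : Fin (k + 2) => update (init e) k u j) (Fin.castSucc (Fin.last k)) =
        (fun j : Fin (k + 2) => update (init e) k u j) (Fin.last (k + 1))
      rw [hargs, (app2_k _ _ _).1, (app2_k _ _ _).2])
    refine ⟨t + t', _, ?_, t, t', _, rfl, h1, h2⟩
    have ht'' : t' ≤ Tq (size fun j : Fin (k + 2) => update (init e) k u j) := ht'
    rw [hargs, size_app, size_app] at ht''
    have h3 : Tq (size e0 + u.length + u.length) ≤ Tq (N + N + g N) := hmonoq (by omega)
    have h4 : n * (8 * (g N + N) + T (N + (g N + N) + g N) + 4) ≤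
        2 ^ (g (size e0) + 1) * (8 * (g N + N) + T (N + (g N + N) + g N) + 4) :=
      Nat.mul_le_mul_right _ hn
    have h5 : 2 ^ (g (size e0) + 1) * (8 * (g N + N) + T (N + (g N + N) + g N) + 4) ≤
        2 ^ (g N + 1) * (8 * (g N + N) + T (N + (g N + N) + g N) + 4) :=
      Nat.mul_le_mul_right _ (Nat.pow_le_pow_right (by norm_num) (by omega))
    show t + t' ≤ 2 ^ (g N + 1) * (8 * (g N + N) + T (N + (g N + N) + g N) + 4) + Tq (N + N + g N)
    omega

end Pool.Agent.LibBHN
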