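import Pool.Agent.LibBHN.Reach
import Pool.Agent.LibNexp.Witness

/-!
Elementary relations on strings, viewed as binary numbers.
-/

namespace Pool.Agent.LibBHN

open Function Pool.Agent.LibNexp

variable {O : List Bool → Bool}

theorem low_app {k : ℕ} (e : Fin k → List Bool) (z : List Bool) :
    low (Nat.le_add_right k 1) (app e z) = e := by
  funext j
  unfold low app
  have h1 : Fin.castLE (Nat.le_add_right k 1) j = j.castSucc := by
    ext; simp
  rw [h1, Fin.snoc_castSucc]

theorem app_last {k : ℕ} (e : Fin k → List Bool) (z : List Bool) : app e z (Fin.last k) = z := by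
  unfold app
  rw [Fin.snoc_last]

/-- Existential quantification over a string of polynomial length. -/
theorem nexp_ex {k : ℕ} {R : (Fin k → List Bool) → List Bool → Prop}
    (h : NEXP O fun e : Fin (k + 1) → List Bool =>
      R (low (Nat.le_add_right k 1) e) (e (Fin.last k)))
    {g : ℕ → ℕ} (hg : PolyB g) (hb : ∀ e z, R e z → z.length ≤ g (size e)) :
    NEXP O fun e : Fin k → List Bool => ∃ z, R e z := by
  refine (NEXP.exists h hg fun e z hz => ?_).congr fun e => ?_
  · rw [low_app, app_last] at hz
    exact hb e z hz
  · simp only [low_app, app_last]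

/-- Strings of length `n` from numbers. -/
def bits : ℕ → ℕ → List Bool
  | 0, _ => []
  | n + 1, m => decide (m % 2 = 1) :: bits n (m / 2)

/-- The successor relation on binary numbers of the same length. -/
def Suc (x y : List Bool) : Prop := y.length = x.length ∧ val y = val x + 1

end Pool.Agent.LibBHN
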