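import Pool.Agent.LibBHN.Str

/-! Arithmetic of `val` and `bits`. -/

namespace Pool.Agent.LibBHN

open Function Pool.Agent.LibNexp

variable {O : List Bool → Bool}

@[simp] theorem length_bits (n m : ℕ) : (bits n m).length = n := by
  induction n generalizing m with
  | zero => rfl
  | succ n ih => simp [bits, ih]

theorem val_bits {n m : ℕ} (h : m < 2 ^ n) : val (bits n m) = m := by
  induction n generalizing m with
  | zero => simp at h; subst h; rfl
  | succ n ih =>
    rw [pow_succ] at h
    simp only [bits, val]
    rw [ih (by omega)]
    rcases Nat.mod_two_eq_zero_or_one m with h1 | h1
    · simp [h1]; omega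
    · simp [h1]; omega

theorem bits_val (x : List Bool) : bits x.length (val x) = x := by
  induction x with
  | nil => rfl
  | cons b x ih =>
    simp only [List.length_cons, bits, val]
    have h1 : (b.toNat + 2 * val x) / 2 = val x := by
      have := Bool.toNat_le b
      omega
    rw [h1, ih]
    congr 1
    cases b
    · simp
    · simp

theorem val_inj {x y : List Bool} (h : x.length = y.length) (hv : val x = val y) : x = y := by
  rw [← bits_val x, ← bits_val y, h, hv]

/-- `Suc x y` in terms of carries. -/
theorem suc_iff {x y : List Bool} : Suc x y ↔
    ∃ z l : List Bool, x = z.flatMap (fun _ => [true]) ++ [false] ++ l ∧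
      y = z.flatMap (fun _ => [false]) ++ [true] ++ l := by
  constructor
  · intro h
    induction x generalizing y with
    | nil =>
      obtain ⟨h1, h2⟩ := h
      have : y = [] := List.length_eq_zero_iff.1 h1
      subst this
      simp [val] at h2
    | cons b x ih =>
      obtain ⟨h1, h2⟩ := h
      obtain ⟨b', y', rfl⟩ : ∃ b' y', y = b' :: y' := by
        cases y with
        | nil => simp at h1
        | cons b' y' => exact ⟨b', y', rfl⟩
      simp only [List.length_cons, Nat.add_right_cancel_iff] at h1
      simp only [val] at h2
      cases b with
      | false =>
        cases b' with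
        | false => simp only [Bool.toNat_false] at h2; omega
        | true =>
          simp only [Bool.toNat_false, Bool.toNat_true] at h2
          have h3 := val_inj h1 (by omega)
          subst h3
          exact ⟨[], y', by simp, by simp⟩
      | true =>
        cases b' with
        | true => simp only [Bool.toNat_true] at h2; omega
        | false =>
          simp only [Bool.toNat_false, Bool.toNat_true] at h2
          obtain ⟨z, l, rfl, rfl⟩ := ih (y := y') ⟨h1, by omega⟩
          exact ⟨true :: z, l, by simp, by simp⟩
  · rintro ⟨z, l, rfl, rfl⟩
    induction z with
    | nil => exact ⟨by simp, by simp [val]; omega⟩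
    | cons b z ih =>
      obtain ⟨h1, h2⟩ := ih
      constructor
      · simp
      · simp only [List.flatMap_cons, List.cons_append, List.nil_append, val, Bool.toNat_true,
          Bool.toNat_false]
        rw [h2]
        ring

end Pool.Agent.LibBHN
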